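import Mathlib

/-!
Chains on tuples of points of a standard simplex, the cone operator, the barycentric
subdivision operator and the chain homotopy to the identity.
All complexes are augmented: a simplex with `n` vertices lives in index `n`.
-/

namespace Pool.Agent.Helper45

open Finset

/-- The alternating double sum cancels. -/
theorem alt_sum_zero {M : Type*} [AddCommGroup M] [Module ℚ M] {n : ℕ}
    (f : Fin (n + 1) → Fin (n + 2) → M)
    (h : ∀ i j : Fin (n + 1), i ≤ j → f i j.succ = f j i.castSucc) :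
    ∑ i : Fin (n + 1), ∑ j : Fin (n + 2), ((-1 : ℚ) ^ ((i : ℕ) + (j : ℕ))) • f i j = 0 := by
  rw [← Finset.sum_product']
  let g : Fin (n + 1) × Fin (n + 2) → Fin (n + 1) × Fin (n + 2) := fun p =>
    if hp : (p.1 : ℕ) < (p.2 : ℕ) then (⟨(p.2 : ℕ) - 1, by omega⟩, ⟨(p.1 : ℕ), by omega⟩)
    else (⟨(p.2 : ℕ), by omega⟩, ⟨(p.1 : ℕ) + 1, by omega⟩)
  refine Finset.sum_involution (fun p _ => g p) ?_ ?_ (fun p _ => Finset.mem_univ _) ?_
  · rintro ⟨i, j⟩ -
    by_cases hp : (i : ℕ) < (j : ℕ)
    · have hg : g (i, j) = (⟨(j : ℕ) - 1, by omega⟩, ⟨(i : ℕ), by omega⟩) := by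
        simp only [g]; rw [dif_pos hp]
      rw [hg]
      have h1 := h i ⟨(j : ℕ) - 1, by omega⟩ (by
        rw [Fin.le_def]; simp only []; omega)
      have h2 : (⟨(j : ℕ) - 1, by omega⟩ : Fin (n + 1)).succ = j := by
        ext; simp only [Fin.val_succ]; omega
      have h3 : i.castSucc = (⟨(i : ℕ), by omega⟩ : Fin (n + 2)) := rfl
      rw [h2, h3] at h1
      simp only []
      rw [h1]
      have h4 : ((-1 : ℚ) ^ ((i : ℕ) + (j : ℕ))) = - ((-1 : ℚ) ^ (((j : ℕ) - 1) + (i : ℕ))) := by
        have : (i : ℕ) + (j : ℕ) = (((j : ℕ) - 1) + (i : ℕ)) + 1 := by omega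
        rw [this, pow_succ]; ring
      rw [h4, neg_smul, neg_add_cancel]
    · have hg : g (i, j) = (⟨(j : ℕ), by omega⟩, ⟨(i : ℕ) + 1, by omega⟩) := by
        simp only [g]; rw [dif_neg hp]
      rw [hg]
      have h1 := h ⟨(j : ℕ), by omega⟩ i (by
        rw [Fin.le_def]; simp only []; omega)
      have h2 : i.succ = (⟨(i : ℕ) + 1, by omega⟩ : Fin (n + 2)) := rfl
      have h3 : (⟨(j : ℕ), by omega⟩ : Fin (n + 1)).castSucc = j := rfl
      rw [h2, h3] at h1
      simp only []
      rw [h1]
      have h4 : ((-1 : ℚ) ^ ((j : ℕ) + ((i : ℕ) + 1))) = - ((-1 : ℚ) ^ ((i : ℕ) + (j : ℕ))) := by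
        have : (j : ℕ) + ((i : ℕ) + 1) = ((i : ℕ) + (j : ℕ)) + 1 := by omega
        rw [this, pow_succ]; ring
      rw [h4, neg_smul, add_neg_cancel]
  · rintro ⟨i, j⟩ - _ he
    by_cases hp : (i : ℕ) < (j : ℕ)
    · have hg : g (i, j) = (⟨(j : ℕ) - 1, by omega⟩, ⟨(i : ℕ), by omega⟩) := by
        simp only [g]; rw [dif_pos hp]
      rw [hg] at he
      have := congrArg (fun p : Fin (n + 1) × Fin (n + 2) => (p.2 : ℕ)) he
      simp only [] at this
      omega
    · have hg : g (i, j) = (⟨(j : ℕ), by omega⟩, ⟨(i : ℕ) + 1, by omega⟩) := by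
        simp only [g]; rw [dif_neg hp]
      rw [hg] at he
      have := congrArg (fun p : Fin (n + 1) × Fin (n + 2) => (p.2 : ℕ)) he
      simp only [] at this
      omega
  · rintro ⟨i, j⟩ -
    by_cases hp : (i : ℕ) < (j : ℕ)
    · have hg : g (i, j) = (⟨(j : ℕ) - 1, by omega⟩, ⟨(i : ℕ), by omega⟩) := by
        simp only [g]; rw [dif_pos hp]
      rw [hg]
      have hn : ¬ ((j : ℕ) - 1 < (i : ℕ)) := by omega
      simp only [g]
      rw [dif_neg hn]
      simp only [Prod.mk.injEq, Fin.ext_iff]
      exact ⟨trivial, by omega⟩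
    · have hg : g (i, j) = (⟨(j : ℕ), by omega⟩, ⟨(i : ℕ) + 1, by omega⟩) := by
        simp only [g]; rw [dif_neg hp]
      rw [hg]
      have hn : ((j : ℕ) < (i : ℕ) + 1) := by omega
      simp only [g]
      rw [dif_pos hn]
      simp only [Prod.mk.injEq, Fin.ext_iff]
      exact ⟨by omega, trivial⟩

/-- A system of sets of simplices with face maps (augmented semi-simplicial set). -/
structure FaceSys where
  /-- simplices with `n` vertices -/
  K : ℕ → Type
  /-- face maps -/
  face : ∀ n, Fin (n + 1) → K (n + 1) → K n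
  comm : ∀ (n : ℕ) (i j : Fin (n + 1)), i ≤ j → ∀ x : K (n + 2),
    face n i (face (n + 1) j.succ x) = face n j (face (n + 1) i.castSucc x)

namespace FaceSys

variable (S : FaceSys)

/-- Chains. -/
abbrev Ch (n : ℕ) : Type := S.K n →₀ ℚ

/-- The boundary. -/
noncomputable def bd (n : ℕ) : S.Ch (n + 1) →ₗ[ℚ] S.Ch n :=
  ∑ i : Fin (n + 1), ((-1 : ℚ) ^ (i : ℕ)) • Finsupp.lmapDomain ℚ ℚ (S.face n i)

theorem bd_single (n : ℕ) (x : S.K (n + 1)) (a : ℚ) :
    S.bd n (Finsupp.single x a) =
      ∑ i : Fin (n + 1), ((-1 : ℚ) ^ (i : ℕ)) • Finsupp.single (S.face n i x) a := by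
  simp [bd, LinearMap.sum_apply, Finsupp.lmapDomain_apply, Finsupp.mapDomain_single]

theorem bd_bd (n : ℕ) (x : S.Ch (n + 2)) : S.bd n (S.bd (n + 1) x) = 0 := by
  have : S.bd n ∘ₗ S.bd (n + 1) = 0 := by
    apply Finsupp.lhom_ext
    intro x a
    rw [LinearMap.comp_apply, bd_single, map_sum]
    simp only [map_smul, bd_single, Finset.smul_sum, smul_smul, LinearMap.zero_apply]
    rw [Finset.sum_comm]
    have := alt_sum_zero (M := S.Ch n) (n := n)
      (fun i j => Finsupp.single (S.face n i (S.face (n + 1) j x)) a)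
      (fun i j hij => by rw [S.comm n i j hij x])
    rw [← this]
    refine Finset.sum_congr rfl fun i _ => Finset.sum_congr rfl fun j _ => ?_
    rw [← pow_add, add_comm (j : ℕ)]
  exact LinearMap.congr_fun this x

end FaceSys

/-- Tuples of points of a type. -/
def tup (K : Type) : FaceSys where
  K n := Fin n → K
  face n i w := w ∘ i.succAbove
  comm n i j hij w := by
    funext k
    simp only [Function.comp_apply]
    congr 1
    have hij' : (i : ℕ) ≤ (j : ℕ) := hij
    simp only [Fin.succAbove, Fin.lt_def, Fin.ext_iff]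
    split_ifs <;> simp only [Fin.val_succ, Fin.val_castSucc] at * <;> omega

/-- Pushing a supported chain forward. -/
theorem lmapDomain_mem_supported {α γ : Type} (f : α → γ) {s : Set α} {t : Set γ}
    (h : ∀ a ∈ s, f a ∈ t) {x : α →₀ ℚ} (hx : x ∈ Finsupp.supported ℚ ℚ s) :
    Finsupp.lmapDomain ℚ ℚ f x ∈ Finsupp.supported ℚ ℚ t := by
  rw [Finsupp.mem_supported] at hx ⊢
  intro c hc
  classical
  have h1 := Finsupp.mapDomain_support hc
  rw [Finset.mem_image] at h1
  obtain ⟨a, ha, rfl⟩ := h1
  exact h a (hx ha)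

/-- Prepend a point. -/
def consW {K : Type} {n : ℕ} (b : K) (w : (tup K).K n) : (tup K).K (n + 1) :=
  (Fin.cons b (w : Fin n → K) : Fin (n + 1) → K)

/-- Apply a map to all points. -/
def mapW {K L : Type} {n : ℕ} (f : K → L) (w : (tup K).K n) : (tup L).K n :=
  fun i : Fin n => f ((w : Fin n → K) i)

theorem face_zero_consW {K : Type} {n : ℕ} (b : K) (w : (tup K).K n) :
    (tup K).face n 0 (consW b w) = w := by
  funext k
  simp [tup, consW]

theorem face_succ_consW {K : Type} {n : ℕ} (b : K) (w : (tup K).K (n + 1))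
    (i : Fin (n + 1)) :
    (tup K).face (n + 1) i.succ (consW b w) = consW b ((tup K).face n i w) := by
  funext k
  refine Fin.cases ?_ (fun k => ?_) k
  · simp [tup, consW]
  · simp [tup, consW]

theorem mapW_consW {K L : Type} {n : ℕ} (f : K → L) (b : K) (w : (tup K).K n) :
    mapW f (consW b w) = consW (f b) (mapW f w) := by
  funext k
  refine Fin.cases ?_ (fun k => ?_) k
  · simp [mapW, consW]
  · simp [mapW, consW]

theorem face_mapW {K L : Type} {n : ℕ} (f : K → L) (w : (tup K).K (n + 1)) (i : Fin (n + 1)) :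
    (tup L).face n i (mapW f w) = mapW f ((tup K).face n i w) := rfl

/-- Linear maps out of chains agree if they agree on simplices. -/
theorem ch_ext {S : FaceSys} {n : ℕ} {M : Type*} [AddCommGroup M] [Module ℚ M]
    (f g : S.Ch n →ₗ[ℚ] M) (h : ∀ w, f (Finsupp.single w 1) = g (Finsupp.single w 1)) :
    f = g := by
  apply Finsupp.lhom_ext'
  intro w
  apply LinearMap.ext_ring
  simpa using h w

section Cone

variable {K : Type}

/-- The cone operator. -/
noncomputable def cone (b : K) (n : ℕ) : (tup K).Ch n →ₗ[ℚ] (tup K).Ch (n + 1) :=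
  Finsupp.lmapDomain ℚ ℚ (fun w => consW b w)

theorem cone_single (b : K) (n : ℕ) (w : (tup K).K n) (a : ℚ) :
    cone b n (Finsupp.single w a) = Finsupp.single (consW b w) a := by
  simp only [cone, Finsupp.lmapDomain_apply]
  exact Finsupp.mapDomain_single

theorem bd_cone_zero (b : K) (x : (tup K).Ch 0) : (tup K).bd 0 (cone b 0 x) = x := by
  have : (tup K).bd 0 ∘ₗ cone b 0 = LinearMap.id := by
    apply ch_ext
    intro w
    rw [LinearMap.comp_apply, cone_single, FaceSys.bd_single, Fin.sum_univ_succ,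
      face_zero_consW, Finset.univ_eq_empty, Finset.sum_empty, add_zero, Fin.val_zero, pow_zero,
      one_smul, LinearMap.id_apply]
  exact LinearMap.congr_fun this x

theorem bd_cone_succ (b : K) (n : ℕ) (x : (tup K).Ch (n + 1)) :
    (tup K).bd (n + 1) (cone b (n + 1) x) = x - cone b n ((tup K).bd n x) := by
  have : (tup K).bd (n + 1) ∘ₗ cone b (n + 1) =
      LinearMap.id - cone b n ∘ₗ (tup K).bd n := by
    apply ch_ext
    intro w
    rw [LinearMap.comp_apply, cone_single, FaceSys.bd_single, Fin.sum_univ_succ]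
    rw [LinearMap.sub_apply, LinearMap.comp_apply, FaceSys.bd_single, map_sum, LinearMap.id_apply]
    rw [face_zero_consW]
    simp only [Fin.val_zero, pow_zero, one_smul]
    rw [sub_eq_add_neg, ← Finset.sum_neg_distrib]
    congr 1
    refine Finset.sum_congr rfl fun i _ => ?_
    rw [face_succ_consW, map_smul, cone_single, Fin.val_succ, pow_succ, mul_neg_one, neg_smul]
  exact LinearMap.congr_fun this x

end Cone

section Subdivision

variable {K : Type} (β : ∀ n, (tup K).K (n + 1) → K)

/-- The subdivision operator attached to a choice of apex for every simplex. -/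
noncomputable def sub : ∀ n, (tup K).Ch n →ₗ[ℚ] (tup K).Ch n
  | 0 => LinearMap.id
  | (n + 1) => Finsupp.linearCombination ℚ (fun w : (tup K).K (n + 1) =>
      cone (β n w) n (sub n ((tup K).bd n (Finsupp.single w 1))))

/-- The homotopy from the subdivision operator to the identity. -/
noncomputable def hmt : ∀ n, (tup K).Ch n →ₗ[ℚ] (tup K).Ch (n + 1)
  | 0 => 0
  | (n + 1) => Finsupp.linearCombination ℚ (fun w : (tup K).K (n + 1) =>
      cone (β n w) (n + 1) ((Finsupp.single w 1 : (tup K).Ch (n + 1)) -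
        hmt n ((tup K).bd n (Finsupp.single w 1))))

theorem sub_zero' (x : (tup K).Ch 0) : sub β 0 x = x := rfl

theorem hmt_zero' (x : (tup K).Ch 0) : hmt β 0 x = 0 := rfl

theorem sub_succ_single (n : ℕ) (w : (tup K).K (n + 1)) :
    sub β (n + 1) (Finsupp.single w 1) =
      cone (β n w) n (sub β n ((tup K).bd n (Finsupp.single w 1))) := by
  conv_lhs => rw [sub]
  rw [Finsupp.linearCombination_single, one_smul]

theorem hmt_succ_single (n : ℕ) (w : (tup K).K (n + 1)) :
    hmt β (n + 1) (Finsupp.single w 1) =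
      cone (β n w) (n + 1) ((Finsupp.single w 1 : (tup K).Ch (n + 1)) -
        hmt β n ((tup K).bd n (Finsupp.single w 1))) := by
  conv_lhs => rw [hmt]
  rw [Finsupp.linearCombination_single, one_smul]

theorem bd_sub (n : ℕ) (x : (tup K).Ch (n + 1)) :
    (tup K).bd n (sub β (n + 1) x) = sub β n ((tup K).bd n x) := by
  have : ∀ n, (tup K).bd n ∘ₗ sub β (n + 1) = sub β n ∘ₗ (tup K).bd n := by
    intro n
    induction n with
    | zero =>
      apply ch_ext
      intro w
      rw [LinearMap.comp_apply, LinearMap.comp_apply, sub_succ_single, bd_cone_zero]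
    | succ n ih =>
      apply ch_ext
      intro w
      rw [LinearMap.comp_apply, LinearMap.comp_apply, sub_succ_single, bd_cone_succ]
      have h1 := LinearMap.congr_fun ih ((tup K).bd (n + 1) (Finsupp.single w 1))
      rw [LinearMap.comp_apply, LinearMap.comp_apply, FaceSys.bd_bd, map_zero] at h1
      rw [h1, map_zero, sub_zero]
  exact LinearMap.congr_fun (this n) x

theorem bd_hmt (n : ℕ) (x : (tup K).Ch (n + 1)) :
    (tup K).bd (n + 1) (hmt β (n + 1) x) + hmt β n ((tup K).bd n x) = x - sub β (n + 1) x := by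
  have : ∀ n, (tup K).bd (n + 1) ∘ₗ hmt β (n + 1) + hmt β n ∘ₗ (tup K).bd n =
      LinearMap.id - sub β (n + 1) := by
    intro n
    induction n with
    | zero =>
      apply ch_ext
      intro w
      simp only [LinearMap.add_apply, LinearMap.comp_apply, LinearMap.sub_apply,
        LinearMap.id_apply]
      rw [hmt_succ_single, sub_succ_single, bd_cone_succ, hmt_zero', sub_zero, add_zero,
        sub_zero']
    | succ n ih =>
      apply ch_ext
      intro w
      simp only [LinearMap.add_apply, LinearMap.comp_apply, LinearMap.sub_apply,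
        LinearMap.id_apply]
      rw [hmt_succ_single, sub_succ_single, bd_cone_succ]
      have h1 := LinearMap.congr_fun ih ((tup K).bd (n + 1) (Finsupp.single w 1))
      simp only [LinearMap.add_apply, LinearMap.comp_apply, LinearMap.sub_apply,
        LinearMap.id_apply, FaceSys.bd_bd, map_zero, add_zero] at h1
      rw [map_sub, h1]
      simp only [map_sub]
      abel
  exact LinearMap.congr_fun (this n) x

/-- Functoriality of chains of tuples. -/
noncomputable def mapK {K L : Type} (f : K → L) (n : ℕ) :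
    (tup K).Ch n →ₗ[ℚ] (tup L).Ch n :=
  Finsupp.lmapDomain ℚ ℚ (fun w => mapW f w)

theorem mapK_single {K L : Type} (f : K → L) (n : ℕ) (w : (tup K).K n) (a : ℚ) :
    mapK f n (Finsupp.single w a) = Finsupp.single (mapW f w) a := by
  simp only [mapK, Finsupp.lmapDomain_apply]
  exact Finsupp.mapDomain_single

theorem mapK_bd {K L : Type} (f : K → L) (n : ℕ) (x : (tup K).Ch (n + 1)) :
    mapK f n ((tup K).bd n x) = (tup L).bd n (mapK f (n + 1) x) := by
  have : mapK f n ∘ₗ (tup K).bd n = (tup L).bd n ∘ₗ mapK f (n + 1) := by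
    apply ch_ext
    intro w
    rw [LinearMap.comp_apply, LinearMap.comp_apply, mapK_single, FaceSys.bd_single,
      FaceSys.bd_single, map_sum]
    refine Finset.sum_congr rfl fun i _ => ?_
    rw [map_smul, mapK_single, face_mapW]
  exact LinearMap.congr_fun this x

theorem mapK_cone {K L : Type} (f : K → L) (b : K) (n : ℕ) (x : (tup K).Ch n) :
    mapK f (n + 1) (cone b n x) = cone (f b) n (mapK f n x) := by
  have : mapK f (n + 1) ∘ₗ cone b n = cone (f b) n ∘ₗ mapK f n := by
    apply ch_ext
    intro w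
    rw [LinearMap.comp_apply, LinearMap.comp_apply, mapK_single, cone_single, cone_single,
      mapK_single, mapW_consW]
  exact LinearMap.congr_fun this x

theorem mapK_sub {K L : Type} (β : ∀ n, (tup K).K (n + 1) → K)
    (γ : ∀ n, (tup L).K (n + 1) → L) (f : K → L)
    (h : ∀ n w, f (β n w) = γ n (mapW f w)) (n : ℕ) (x : (tup K).Ch n) :
    mapK f n (sub β n x) = sub γ n (mapK f n x) := by
  have : ∀ n, mapK f n ∘ₗ sub β n = sub γ n ∘ₗ mapK f n := by
    intro n
    induction n with
    | zero => rfl
    | succ n ih =>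
      apply ch_ext
      intro w
      rw [LinearMap.comp_apply, LinearMap.comp_apply, sub_succ_single, mapK_cone,
        mapK_single, sub_succ_single, ← h]
      have h1 := LinearMap.congr_fun ih ((tup K).bd n (Finsupp.single w 1))
      rw [LinearMap.comp_apply, LinearMap.comp_apply, mapK_bd, mapK_single] at h1
      rw [h1]
  exact LinearMap.congr_fun (this n) x

theorem mapK_hmt {K L : Type} (β : ∀ n, (tup K).K (n + 1) → K)
    (γ : ∀ n, (tup L).K (n + 1) → L) (f : K → L)
    (h : ∀ n w, f (β n w) = γ n (mapW f w)) (n : ℕ) (x : (tup K).Ch n) :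
    mapK f (n + 1) (hmt β n x) = hmt γ n (mapK f n x) := by
  have : ∀ n, mapK f (n + 1) ∘ₗ hmt β n = hmt γ n ∘ₗ mapK f n := by
    intro n
    induction n with
    | zero =>
      apply ch_ext
      intro w
      rw [LinearMap.comp_apply, LinearMap.comp_apply, hmt_zero', hmt_zero', map_zero]
    | succ n ih =>
      apply ch_ext
      intro w
      rw [LinearMap.comp_apply, LinearMap.comp_apply, hmt_succ_single, mapK_cone,
        mapK_single, hmt_succ_single, ← h, map_sub, mapK_single]
      have h1 := LinearMap.congr_fun ih ((tup K).bd n (Finsupp.single w 1))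
      rw [LinearMap.comp_apply, LinearMap.comp_apply, mapK_bd, mapK_single] at h1
      rw [h1]
  exact LinearMap.congr_fun (this n) x

/-- The words occurring in the subdivision of a word. -/
def Fine : ∀ n, (tup K).K n → (tup K).K n → Prop
  | 0 => fun _ _ => True
  | (n + 1) => fun w w' => ∃ (i : Fin (n + 1)) (v : (tup K).K n),
      Fine n ((tup K).face n i w) v ∧ w' = consW (β n w) v

theorem sub_mem_supported (n : ℕ) (w : (tup K).K n) :
    sub β n (Finsupp.single w 1) ∈ Finsupp.supported ℚ ℚ {w' | Fine β n w w'} := by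
  induction n with
  | zero =>
    rw [sub_zero', Finsupp.mem_supported]
    intro v _
    exact trivial
  | succ n ih =>
    rw [sub_succ_single, FaceSys.bd_single, map_sum, map_sum]
    refine Submodule.sum_mem _ fun i _ => ?_
    rw [map_smul, map_smul]
    refine Submodule.smul_mem _ _ ?_
    refine lmapDomain_mem_supported _ ?_ (ih ((tup K).face n i w))
    intro v hv
    exact ⟨i, v, hv, rfl⟩

end Subdivision

end Pool.Agent.Helper45
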