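import Pool.Agent.Helper45.Punctured

/-!
Attaching a cell: the effect on homology of adding a coordinate chart which meets the old open
set in the complement of a coordinate plane.
-/

namespace Pool.Agent.Helper45

open Set

section PuncturedCoord

variable (J : Finset (Fin 4))

/-- The punctured coordinate space. -/
def PJ : Set (J → ℂ) := {v | v ≠ 0}

theorem hr_PJ (n : ℕ) : hr (PJ J) n = if n = 2 * J.card then 1 else 0 := by
  have hfr : Module.finrank ℝ (J → ℂ) = Module.finrank ℝ (Fin (2 * J.card) → ℝ) := by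
    rw [Module.finrank_pi_fintype, Module.finrank_fin_fun]
    simp [Complex.finrank_real_complex, mul_comm]
  let L : (J → ℂ) ≃L[ℝ] (Fin (2 * J.card) → ℝ) := ContinuousLinearEquiv.ofFinrankEq hfr
  have h1 : L '' PJ J = Pn (2 * J.card) := by
    ext x
    constructor
    · rintro ⟨v, hv, rfl⟩
      intro h
      exact hv ((map_eq_zero_iff L L.injective).1 h)
    · intro hx
      refine ⟨L.symm x, ?_, by simp⟩
      intro h
      apply hx
      rw [← L.apply_symm_apply x, h, map_zero]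
  rw [← hr_image L.toHomeomorph.isEmbedding (PJ J) n]
  have h2 : L.toHomeomorph '' PJ J = Pn (2 * J.card) := h1
  rw [h2, hr_Pn]

variable {J} {O : Set (Fin 4 → ℂ)}

/-- The part of `O` outside the coordinate plane. -/
def TJ (J : Finset (Fin 4)) (O : Set (Fin 4 → ℂ)) : Set (Fin 4 → ℂ) :=
  {u | u ∈ O ∧ ∃ j ∈ J, u j ≠ 0}

/-- Scale the coordinates outside `J`. -/
noncomputable def scl (J : Finset (Fin 4)) (t : ℝ) (u : Fin 4 → ℂ) : Fin 4 → ℂ :=
  fun i => if i ∈ J then u i else (t : ℂ) * u i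

theorem continuous_scl (J : Finset (Fin 4)) :
    Continuous (fun p : ℝ × (Fin 4 → ℂ) => scl J p.1 p.2) := by
  refine continuous_pi fun i => ?_
  unfold scl
  by_cases h : i ∈ J
  · simp only [if_pos h]
    fun_prop
  · simp only [if_neg h]
    fun_prop

/-- Restriction to the coordinates in `J`. -/
def resJ : C(TJ J O, PJ J) :=
  ⟨fun u => ⟨fun j => u.1 j.1, by
    obtain ⟨j, hj, hne⟩ := u.2.2
    intro h
    exact hne (congrFun h ⟨j, hj⟩)⟩, by
    refine Continuous.subtype_mk ?_ _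
    exact continuous_pi fun j => (continuous_apply j.1).comp continuous_subtype_val⟩

/-- Extension by zero. -/
noncomputable def extJ0 (J : Finset (Fin 4)) (v : J → ℂ) : Fin 4 → ℂ :=
  fun i => if h : i ∈ J then v ⟨i, h⟩ else 0

theorem extJ0_mem (hmem : ∀ v : Fin 4 → ℂ, (∀ i, i ∉ J → v i = 0) → v ∈ O) {v : J → ℂ}
    (hv : v ∈ PJ J) : extJ0 J v ∈ TJ J O := by
  constructor
  · apply hmem
    intro i hi
    unfold extJ0
    rw [dif_neg hi]
  · obtain ⟨j, hj⟩ := Function.ne_iff.1 hv
    refine ⟨j.1, j.2, ?_⟩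
    unfold extJ0
    rw [dif_pos j.2]
    exact hj

/-- Extension by zero, continuous version. -/
noncomputable def extJ (hmem : ∀ v : Fin 4 → ℂ, (∀ i, i ∉ J → v i = 0) → v ∈ O) :
    C(PJ J, TJ J O) :=
  ⟨fun v => ⟨extJ0 J v.1, extJ0_mem hmem v.2⟩, by
    refine Continuous.subtype_mk ?_ _
    refine continuous_pi fun i => ?_
    unfold extJ0
    by_cases h : i ∈ J
    · simp only [dif_pos h]
      exact (continuous_apply (⟨i, h⟩ : J)).comp continuous_subtype_val
    · simp only [dif_neg h]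
      exact continuous_const⟩

/-- The retraction homotopy. -/
noncomputable def htpJ (hmem : ∀ v : Fin 4 → ℂ, (∀ i, i ∉ J → v i = 0) → v ∈ O)
    (hdef : ∀ u ∈ O, ∀ t : ℝ, 0 ≤ t → t ≤ 1 → scl J t u ∈ O) :
    ((extJ hmem).comp resJ).Homotopy (ContinuousMap.id (TJ J O)) where
  toFun p := ⟨scl J (p.1 : ℝ) p.2.1, hdef _ p.2.2.1 _ p.1.2.1 p.1.2.2, by
    obtain ⟨j, hj, hne⟩ := p.2.2.2
    refine ⟨j, hj, ?_⟩
    unfold scl
    rw [if_pos hj]
    exact hne⟩
  continuous_toFun := by
    refine Continuous.subtype_mk ?_ _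
    exact (continuous_scl J).comp
      ((continuous_subtype_val.comp continuous_fst).prodMk
        (continuous_subtype_val.comp continuous_snd))
  map_zero_left u := by
    apply Subtype.ext
    funext i
    show scl J ((0 : unitInterval) : ℝ) u.1 i = extJ0 J (fun j => u.1 j.1) i
    unfold scl extJ0
    by_cases h : i ∈ J
    · rw [if_pos h, dif_pos h]
    · rw [if_neg h, dif_neg h]
      simp
  map_one_left u := by
    apply Subtype.ext
    funext i
    show scl J ((1 : unitInterval) : ℝ) u.1 i = u.1 i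
    unfold scl
    by_cases h : i ∈ J
    · rw [if_pos h]
    · rw [if_neg h]
      simp

theorem resJ_comp_extJ (hmem : ∀ v : Fin 4 → ℂ, (∀ i, i ∉ J → v i = 0) → v ∈ O) :
    (resJ (J := J) (O := O)).comp (extJ hmem) = ContinuousMap.id _ := by
  ext1 v
  apply Subtype.ext
  funext j
  show extJ0 J v.1 j.1 = v.1 j
  unfold extJ0
  rw [dif_pos j.2]

theorem hr_TJ (hmem : ∀ v : Fin 4 → ℂ, (∀ i, i ∉ J → v i = 0) → v ∈ O)
    (hdef : ∀ u ∈ O, ∀ t : ℝ, 0 ≤ t → t ≤ 1 → scl J t u ∈ O) (n : ℕ) :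
    hr (TJ J O) n = if n = 2 * J.card then 1 else 0 := by
  rw [← hr_PJ J n]
  exact hr_eq_of_subtype_equiv
    { toFun := resJ
      invFun := extJ hmem
      left_inv := ⟨htpJ hmem hdef⟩
      right_inv := by rw [resJ_comp_extJ] } n

end PuncturedCoord

section Attach

variable {X : Type} [TopologicalSpace X]

/-- Attaching a cell. -/
theorem attach_cell (φ : OpenPartialHomeomorph X (Fin 4 → ℂ)) {U : Set X} (hU : IsOpen U)
    (J : Finset (Fin 4)) (hJ : J.Nonempty)
    (hstar : StarConvex ℝ 0 φ.target)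
    (hmem : ∀ v : Fin 4 → ℂ, (∀ i, i ∉ J → v i = 0) → v ∈ φ.target)
    (hdef : ∀ u ∈ φ.target, ∀ t : ℝ, 0 ≤ t → t ≤ 1 → scl J t u ∈ φ.target)
    (hint : ∀ u ∈ φ.target, φ.symm u ∈ U ↔ ∃ j ∈ J, u j ≠ 0)
    (hev : ∀ n, Acyc U (2 * n)) :
    (∀ n, Acyc (U ∪ φ.source) (2 * n)) ∧
      ∀ n, hr (U ∪ φ.source) (2 * n + 1) = hr U (2 * n + 1) + if n = J.card then 1 else 0 := by
  have hW : IsOpen φ.source := φ.open_source
  have h0 : (0 : Fin 4 → ℂ) ∈ φ.target := hmem 0 (fun _ _ => rfl)
  have hWa : ∀ n, Acyc φ.source n := by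
    intro n
    have h1 : ContractibleSpace φ.target := hstar.contractibleSpace ⟨0, h0⟩
    exact acyc_coe (φ.toHomeomorphSourceTarget.contractibleSpace) n
  have hemb : Topology.IsEmbedding (fun u : φ.target => φ.symm u.1) := by
    have h1 : (fun u : φ.target => φ.symm u.1) =
        Subtype.val ∘ φ.toHomeomorphSourceTarget.symm := by
      funext u
      rfl
    rw [h1]
    exact Topology.IsEmbedding.subtypeVal.comp φ.toHomeomorphSourceTarget.symm.isEmbedding
  have hR : ∀ n, hr (U ∩ φ.source) n = if n = 2 * J.card then 1 else 0 := by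
    intro n
    rw [← hr_TJ hmem hdef n]
    have h1 : (fun u : φ.target => φ.symm u.1) '' {u | ∃ j ∈ J, u.1 j ≠ 0} =
        U ∩ φ.source := by
      ext x
      constructor
      · rintro ⟨u, hu, rfl⟩
        exact ⟨(hint u.1 u.2).2 hu, φ.map_target u.2⟩
      · rintro ⟨hxU, hx⟩
        refine ⟨⟨φ x, φ.map_source hx⟩, ?_, φ.left_inv hx⟩
        have h2 := (hint (φ x) (φ.map_source hx)).1
        rw [φ.left_inv hx] at h2
        exact h2 hxU
    have h2 : (Subtype.val : φ.target → (Fin 4 → ℂ)) '' {u | ∃ j ∈ J, u.1 j ≠ 0} =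
        TJ J φ.target := by
      ext u
      constructor
      · rintro ⟨u, hu, rfl⟩
        exact ⟨u.2, hu⟩
      · rintro ⟨hu, hne⟩
        exact ⟨⟨u, hu⟩, hne, rfl⟩
    rw [← h1, hr_image hemb, ← h2, hr_image Topology.IsEmbedding.subtypeVal]
  have hRa : ∀ n, n ≠ 2 * J.card → Acyc (U ∩ φ.source) n := by
    intro n hn
    rw [acyc_iff, hR, if_neg hn]
  have hJ1 : 1 ≤ J.card := Finset.card_pos.2 hJ
  constructor
  · intro n
    rcases n with _ | n
    · exact acyc_union_zero hU hW (hev 0) (hWa 0)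
    · exact acyc_union_succ (n := 2 * n + 1) hU hW (hev (n + 1)) (hWa _)
        (hRa _ (by omega))
  · intro n
    by_cases hn : n = J.card
    · rw [if_pos hn]
      rw [hr_union_connect (n := 2 * n) hU hW (hWa _) (hWa _) (hev n)
        (fun p hp hb => mv_inj hU hW (hRa _ (by omega)) hp hb), hR, if_pos (by omega)]
    · rw [if_neg hn, add_zero]
      exact hr_union_succ (n := 2 * n) hU hW (hWa _) (hRa _ (by omega)) (hRa _ (by omega))

end Attach

end Pool.Agent.Helper45
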