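import Mathlib

/-!
Betti numbers via singular cohomology with rational coefficients.
-/

namespace Pool.Agent.Helper45

open CategoryTheory

/-- The singular chain complex of a topological space with rational coefficients
(Mathlib's definition). -/
noncomputable abbrev singularChains (X : Type) [TopologicalSpace X] :
    ChainComplex (ModuleCat.{0} ℚ) ℕ :=
  ((AlgebraicTopology.singularChainComplexFunctor (ModuleCat.{0} ℚ)).obj
    (ModuleCat.of ℚ ℚ)).obj (TopCat.of X)

/-- The vector space of singular `k`-chains of `X` with rational coefficients. -/
noncomputable abbrev singularChainSpace (X : Type) [TopologicalSpace X] (k : ℕ) :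
    ModuleCat.{0} ℚ :=
  (singularChains X).X k

/-- The boundary map from singular `i`-chains to singular `j`-chains (the differential of
Mathlib's singular chain complex; it is zero unless `i = j + 1`). -/
noncomputable abbrev singularBoundary (X : Type) [TopologicalSpace X] (i j : ℕ) :
    singularChainSpace X i →ₗ[ℚ] singularChainSpace X j :=
  ((singularChains X).d i j).hom

/-- The vector space of singular `k`-cochains with rational coefficients: the linear forms on
singular `k`-chains. -/
abbrev singularCochains (X : Type) [TopologicalSpace X] (k : ℕ) : Type :=
  Module.Dual ℚ (singularChainSpace X k)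

/-- Singular `k`-cocycles with rational coefficients: the linear forms on singular `k`-chains
which vanish on the boundaries of singular `(k+1)`-chains. -/
noncomputable def singularCocycles (X : Type) [TopologicalSpace X] (k : ℕ) :
    Submodule ℚ (singularCochains X k) :=
  LinearMap.ker (singularBoundary X (k + 1) k).dualMap

/-- Singular `k`-coboundaries with rational coefficients: the linear forms on singular `k`-chains
of the form `ψ ∘ ∂` with `ψ` a linear form on singular `(k-1)`-chains. -/
noncomputable def singularCoboundaries (X : Type) [TopologicalSpace X] (k : ℕ) :
    Submodule ℚ (singularCochains X k) :=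
  LinearMap.range (singularBoundary X k (k - 1)).dualMap

/-- The dimension over `ℚ` of the quotient of the subspace `Z` by its subspace `B ⊓ Z`. -/
noncomputable def quotientDim {M : Type} [AddCommGroup M] [Module ℚ M] (Z B : Submodule ℚ M) : ℕ :=
  Module.finrank ℚ (Z ⧸ B.submoduleOf Z)

/-- The `k`-th Betti number of `X`: the dimension over `ℚ` of the singular cohomology
`H^k(X; ℚ)`, that is, cocycles modulo coboundaries. -/
noncomputable def bettiNumber (X : Type) [TopologicalSpace X] (k : ℕ) : ℕ :=
  quotientDim (singularCocycles X k) (singularCoboundaries X k)

end Pool.Agent.Helper45
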