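import Pool.Agent.Helper45.Bridge
import Pool.Agent.Helper45.Betti

/-!
The Betti numbers are the ranks of the hand-made homology.
-/

namespace Pool.Agent.Helper45

open CategoryTheory

/-- Duality for a subquotient. -/
theorem finrank_annihilator_quotient {V : Type*} [AddCommGroup V] [Module ℚ V]
    (B Z : Submodule ℚ V) (hle : B ≤ Z) :
    Module.finrank ℚ (B.dualAnnihilator ⧸ (Z.dualAnnihilator).submoduleOf B.dualAnnihilator) =
      Module.finrank ℚ (Z ⧸ B.submoduleOf Z) := by
  let T : B.dualAnnihilator →ₗ[ℚ] Module.Dual ℚ (Z ⧸ B.submoduleOf Z) :=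
    { toFun := fun φ => (B.submoduleOf Z).liftQ (φ.1 ∘ₗ Z.subtype) (by
        intro z hz
        exact (Submodule.mem_dualAnnihilator φ.1).1 φ.2 z.1 hz)
      map_add' := by
        intro a b
        apply LinearMap.ext
        intro q
        obtain ⟨z, rfl⟩ := Submodule.Quotient.mk_surjective _ q
        rfl
      map_smul' := by
        intro c a
        apply LinearMap.ext
        intro q
        obtain ⟨z, rfl⟩ := Submodule.Quotient.mk_surjective _ q
        rfl }
  have hT : ∀ (φ : B.dualAnnihilator) (z : Z),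
      T φ (Submodule.Quotient.mk z) = φ.1 z.1 := fun _ _ => rfl
  have hsurj : Function.Surjective T := by
    intro ψ
    obtain ⟨φ, hφ⟩ := LinearMap.exists_extend (ψ ∘ₗ (B.submoduleOf Z).mkQ)
    have hker : ∀ z : Z, φ z.1 = ψ (Submodule.Quotient.mk z) := fun z =>
      LinearMap.congr_fun hφ z
    refine ⟨⟨φ, ?_⟩, ?_⟩
    · rw [Submodule.mem_dualAnnihilator]
      intro b hb
      have h1 := hker ⟨b, hle hb⟩
      rw [h1]
      have : (Submodule.Quotient.mk (⟨b, hle hb⟩ : Z) : Z ⧸ B.submoduleOf Z) = 0 := by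
        rw [Submodule.Quotient.mk_eq_zero]
        exact hb
      rw [this, map_zero]
    · apply LinearMap.ext
      intro q
      obtain ⟨z, rfl⟩ := Submodule.Quotient.mk_surjective _ q
      rw [hT]
      exact hker z
  have hk : LinearMap.ker T = (Z.dualAnnihilator).submoduleOf B.dualAnnihilator := by
    ext φ
    rw [LinearMap.mem_ker]
    constructor
    · intro h
      show φ.1 ∈ Z.dualAnnihilator
      rw [Submodule.mem_dualAnnihilator]
      intro z hz
      rw [← hT φ ⟨z, hz⟩, h]
      rfl
    · intro h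
      have h' : φ.1 ∈ Z.dualAnnihilator := h
      rw [Submodule.mem_dualAnnihilator] at h'
      apply LinearMap.ext
      intro q
      obtain ⟨z, rfl⟩ := Submodule.Quotient.mk_surjective _ q
      rw [hT]
      exact h' z.1 z.2
  rw [← hk, (T.quotKerEquivOfSurjective hsurj).finrank_eq, Subspace.dual_finrank_eq]

section

variable (X : Type) [TopologicalSpace X]

theorem betti_eq_homology (k : ℕ) :
    bettiNumber X k = Module.finrank ℚ
      (LinearMap.ker ((singularChains X).d k (k - 1)).hom ⧸
        (LinearMap.range ((singularChains X).d (k + 1) k).hom).submoduleOf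
          (LinearMap.ker ((singularChains X).d k (k - 1)).hom)) := by
  have hle : LinearMap.range ((singularChains X).d (k + 1) k).hom ≤
      LinearMap.ker ((singularChains X).d k (k - 1)).hom := by
    rintro _ ⟨y, rfl⟩
    rw [LinearMap.mem_ker, ← LinearMap.comp_apply, ← ModuleCat.hom_comp,
      HomologicalComplex.d_comp_d]
    rfl
  rw [← finrank_annihilator_quotient _ _ hle]
  unfold bettiNumber singularCocycles singularCoboundaries
  rw [LinearMap.ker_dualMap_eq_dualAnnihilator_range,
    LinearMap.range_dualMap_eq_dualAnnihilator_ker]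
  rfl

/-- Betti numbers in positive degree are the ranks of the hand-made homology. -/
theorem betti_eq_hr (m : ℕ) :
    bettiNumber X (m + 1) = Cardinal.toNat (hr (Set.univ : Set X) (m + 2)) := by
  rw [betti_eq_homology]
  unfold hr
  show Module.finrank ℚ (LinearMap.ker ((SC X).d (m + 1) m).hom ⧸
        (LinearMap.range ((SC X).d (m + 2) (m + 1)).hom).submoduleOf
          (LinearMap.ker ((SC X).d (m + 1) m).hom)) =
    Module.finrank ℚ (HH (Set.univ : Set X) (m + 2))
  have hmem : ∀ n (x : (sing X).Ch n), x ∈ CU (Set.univ : Set X) n := by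
    intro n x
    simp [CU]
  have hZ : ∀ x ∈ Zc (Set.univ : Set X) (m + 2),
      phi X (m + 1) x ∈ LinearMap.ker ((SC X).d (m + 1) m).hom := by
    intro x hx
    rw [LinearMap.mem_ker, phi_bd, (mem_Zc_succ.1 hx).2, map_zero]
  let F : HH (Set.univ : Set X) (m + 2) →ₗ[ℚ]
      (LinearMap.ker ((SC X).d (m + 1) m).hom ⧸
        (LinearMap.range ((SC X).d (m + 2) (m + 1)).hom).submoduleOf
          (LinearMap.ker ((SC X).d (m + 1) m).hom)) :=
    Submodule.mapQ _ _ ((phi X (m + 1)).restrict hZ) (by
      rintro ⟨x, hx⟩ ⟨y, -, hy⟩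
      refine ⟨phi X (m + 2) y, ?_⟩
      rw [phi_bd, hy]
      rfl)
  have hF : ∀ x : Zc (Set.univ : Set X) (m + 2), F (Submodule.Quotient.mk x) =
      Submodule.Quotient.mk ⟨phi X (m + 1) x.1, hZ x.1 x.2⟩ := fun _ => rfl
  refine (LinearEquiv.finrank_eq (LinearEquiv.ofBijective F ⟨?_, ?_⟩)).symm
  · rw [injective_iff_map_eq_zero]
    intro a ha
    obtain ⟨x, rfl⟩ := Submodule.Quotient.mk_surjective _ a
    rw [hF, Submodule.Quotient.mk_eq_zero] at ha
    obtain ⟨y, hy⟩ := ha
    rw [mk_eq_zero_iff]
    refine ⟨(psi X (m + 2)).hom y, hmem _ _, ?_⟩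
    apply (phiE X (m + 1)).injective
    show phi X (m + 1) _ = phi X (m + 1) x.1
    rw [← phi_bd, phi_psi]
    exact hy
  · intro a
    obtain ⟨y, rfl⟩ := Submodule.Quotient.mk_surjective _ a
    have hx : (psi X (m + 1)).hom y.1 ∈ Zc (Set.univ : Set X) (m + 2) := by
      refine mem_Zc_succ.2 ⟨hmem _ _, ?_⟩
      apply (phiE X m).injective
      show phi X m _ = phi X m 0
      rw [← phi_bd, phi_psi, map_zero]
      exact y.2
    refine ⟨Submodule.Quotient.mk ⟨_, hx⟩, ?_⟩
    rw [hF]
    congr 1
    apply Subtype.ext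
    exact phi_psi X (m + 1) y.1

end

end Pool.Agent.Helper45
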