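import Pool.Agent.Helper45.Punctured

/-!
Comparison of the hand-made chains with Mathlib's singular chain complex.
-/

namespace Pool.Agent.Helper45

open CategoryTheory Simplicial Limits

section Bridge

variable (X : Type) [TopologicalSpace X]

/-- The singular simplicial set of `X`. -/
noncomputable abbrev SSX : SSet.{0} := TopCat.toSSet.obj (TopCat.of X)

/-- The singular chain complex of `X` with rational coefficients. -/
noncomputable abbrev SC : ChainComplex (ModuleCat.{0} ℚ) ℕ :=
  (SSX X).chainComplex (ModuleCat.of ℚ ℚ)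

theorem SC_eq : SC X = ((AlgebraicTopology.singularChainComplexFunctor (ModuleCat.{0} ℚ)).obj
    (ModuleCat.of ℚ ℚ)).obj (TopCat.of X) := rfl

/-- Singular simplices. -/
noncomputable def simpEquiv (n : ℕ) : (SSX X) _⦋n⦌ ≃ (sing X).K (n + 1) :=
  TopCat.toSSetObjEquiv (TopCat.of X) (Opposite.op ⦋n⦌)

theorem map_succAbove_eq (n : ℕ) (i : Fin (n + 2)) (t : Sp (n + 1)) :
    stdSimplex.map i.succAbove t = faceC (n + 1) i t := by
  apply Subtype.ext
  funext j
  show (FunOnFinite.linearMap ℝ ℝ i.succAbove t) j = _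
  rw [FunOnFinite.linearMap_apply_apply]
  show _ = ∑ k, t.1 k * (Pi.single (i.succAbove k) 1 : Fin (n + 2) → ℝ) j
  rw [Finset.sum_filter]
  refine Finset.sum_congr rfl fun k _ => ?_
  rw [Pi.single_apply]
  by_cases h : i.succAbove k = j
  · rw [if_pos h, if_pos h.symm, mul_one]
    rfl
  · rw [if_neg h, if_neg (fun h' => h h'.symm), mul_zero]

theorem simpEquiv_face (n : ℕ) (i : Fin (n + 2)) (x : (SSX X) _⦋n + 1⦌) :
    simpEquiv X n ((SSX X).δ i x) = (sing X).face (n + 1) i (simpEquiv X (n + 1) x) := by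
  have h : unS (simpEquiv X n ((SSX X).δ i x)) =
      (unS (simpEquiv X (n + 1) x)).comp (faceC (n + 1) i) := by
    ext t
    rw [ContinuousMap.comp_apply, ← map_succAbove_eq]
    rfl
  exact h

/-- The comparison map. -/
noncomputable def phi (n : ℕ) : (sing X).Ch (n + 1) →ₗ[ℚ] (SC X).X n :=
  Finsupp.linearCombination ℚ
    (fun σ => ((SSX X).ιChainComplex (R := ModuleCat.of ℚ ℚ) ((simpEquiv X n).symm σ)).hom (1 : ℚ))

theorem phi_single (n : ℕ) (σ : (sing X).K (n + 1)) :
    phi X n (Finsupp.single σ 1) =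
      ((SSX X).ιChainComplex (R := ModuleCat.of ℚ ℚ) ((simpEquiv X n).symm σ)).hom (1 : ℚ) := by
  rw [phi, Finsupp.linearCombination_single, one_smul]

/-- The inverse comparison map. -/
noncomputable def psi (n : ℕ) : (SC X).X n ⟶ ModuleCat.of ℚ ((sing X).Ch (n + 1)) :=
  Cofan.IsColimit.desc ((SSX X).isColimitChainComplexXCofan (ModuleCat.of ℚ ℚ) n)
    (fun x => ModuleCat.ofHom (Finsupp.lsingle (simpEquiv X n x)))

theorem psi_iota (n : ℕ) (x : (SSX X) _⦋n⦌) :
    (SSX X).ιChainComplex (R := ModuleCat.of ℚ ℚ) x ≫ psi X n =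
      ModuleCat.ofHom (Finsupp.lsingle (simpEquiv X n x)) :=
  Cofan.IsColimit.fac ((SSX X).isColimitChainComplexXCofan (ModuleCat.of ℚ ℚ) n) _ x

theorem psi_phi (n : ℕ) (x : (sing X).Ch (n + 1)) : (psi X n).hom (phi X n x) = x := by
  have : (psi X n).hom ∘ₗ phi X n = LinearMap.id := by
    apply ch_ext
    intro σ
    rw [LinearMap.comp_apply, phi_single]
    have := congrArg (fun f => f.hom (1 : ℚ)) (psi_iota X n ((simpEquiv X n).symm σ))
    simp only [ModuleCat.hom_comp, LinearMap.comp_apply] at this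
    rw [this]
    simp
  exact LinearMap.congr_fun this x

theorem phi_psi (n : ℕ) (y : (SC X).X n) : phi X n ((psi X n).hom y) = y := by
  have : psi X n ≫ ModuleCat.ofHom (phi X n) = 𝟙 _ := by
    apply SSet.chainComplex_hom_ext
    intro x
    rw [← Category.assoc, psi_iota, Category.comp_id]
    ext
    simp only [ModuleCat.hom_comp, ModuleCat.hom_ofHom, LinearMap.comp_apply,
      Finsupp.lsingle_apply]
    erw [phi_single]
    rw [Equiv.symm_apply_apply]
  exact congrArg (fun f => f.hom y) this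

/-- The comparison isomorphism. -/
noncomputable def phiE (n : ℕ) : (sing X).Ch (n + 1) ≃ₗ[ℚ] (SC X).X n :=
  LinearEquiv.ofBijective (phi X n)
    ⟨fun a b h => by rw [← psi_phi X n a, ← psi_phi X n b, h],
      fun y => ⟨(psi X n).hom y, phi_psi X n y⟩⟩

theorem phi_bd (n : ℕ) (x : (sing X).Ch (n + 2)) :
    ((SC X).d (n + 1) n).hom (phi X (n + 1) x) = phi X n ((sing X).bd (n + 1) x) := by
  have : ((SC X).d (n + 1) n).hom ∘ₗ phi X (n + 1) = phi X n ∘ₗ (sing X).bd (n + 1) := by
    apply ch_ext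
    intro σ
    rw [LinearMap.comp_apply, LinearMap.comp_apply, phi_single, FaceSys.bd_single, map_sum]
    have := congrArg (fun f => f.hom (1 : ℚ))
      ((SSX X).ιChainComplex_d (R := ModuleCat.of ℚ ℚ) ((simpEquiv X (n + 1)).symm σ))
    simp only [ModuleCat.hom_comp, LinearMap.comp_apply, ModuleCat.hom_sum,
      LinearMap.sum_apply] at this
    refine this.trans ?_
    refine Finset.sum_congr rfl fun i _ => ?_
    rw [map_smul, phi_single]
    have h1 : (simpEquiv X n).symm ((sing X).face (n + 1) i σ) =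
        (SSX X).δ i ((simpEquiv X (n + 1)).symm σ) := by
      rw [Equiv.symm_apply_eq, simpEquiv_face, Equiv.apply_symm_apply]
    rw [h1]
    rcases Nat.even_or_odd (i : ℕ) with hi | hi
    · simp [hi.neg_one_pow]
    · simp [hi.neg_one_pow]
  exact LinearMap.congr_fun this x

end Bridge

end Pool.Agent.Helper45
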