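import Mathlib.Analysis.InnerProductSpace.PiL2
import Mathlib.Geometry.Manifold.IsManifold.Basic
import Mathlib.Geometry.Manifold.ContMDiff.Defs

/-!
Compactifications of complex affine space.
-/

namespace Pool.Agent.Helper45

open scoped ContDiff Manifold

/-- The subset `A` of the complex manifold `V` of dimension `n` is a (closed) analytic subset: every
point of `V` has an open neighbourhood `U` in which `A` is the common zero set of finitely many
holomorphic functions on `U`. -/
def IsAnalyticSubset (n : ℕ) (V : Type) [TopologicalSpace V]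
    [ChartedSpace (EuclideanSpace ℂ (Fin n)) V] (A : Set V) : Prop :=
  ∀ p : V, ∃ U : Set V, IsOpen U ∧ p ∈ U ∧ ∃ (m : ℕ) (f : Fin m → V → ℂ),
    (∀ j, ContMDiffOn 𝓘(ℂ, EuclideanSpace ℂ (Fin n)) 𝓘(ℂ, ℂ) ω (f j) U) ∧
    ∀ q ∈ U, q ∈ A ↔ ∀ j, f j q = 0

/-- The map `f : V → W` between complex manifolds of dimensions `m` and `n` is holomorphic on the
set `U`. -/
def IsHolomorphicOn (m n : ℕ) {V W : Type} [TopologicalSpace V]
    [ChartedSpace (EuclideanSpace ℂ (Fin m)) V] [TopologicalSpace W]
    [ChartedSpace (EuclideanSpace ℂ (Fin n)) W] (f : V → W) (U : Set V) : Prop :=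
  ContMDiffOn 𝓘(ℂ, EuclideanSpace ℂ (Fin m)) 𝓘(ℂ, EuclideanSpace ℂ (Fin n)) ω f U

/-- The open subset `U` of the complex manifold `V` of dimension `n` is biholomorphic to `ℂ^n`:
there are mutually inverse holomorphic maps between `U` and `ℂ^n`. -/
def IsBiholomorphicToAffineSpace (n : ℕ) {V : Type} [TopologicalSpace V]
    [ChartedSpace (EuclideanSpace ℂ (Fin n)) V] (U : Set V) : Prop :=
  ∃ (φ : V → EuclideanSpace ℂ (Fin n)) (ψ : EuclideanSpace ℂ (Fin n) → V),
    IsHolomorphicOn n n φ U ∧ IsHolomorphicOn n n ψ Set.univ ∧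
    (∀ u, ψ u ∈ U) ∧ (∀ u, φ (ψ u) = u) ∧ ∀ p ∈ U, ψ (φ p) = p

/-- `(V, A)` is a compactification of `ℂ^n`: `V` is a connected compact complex manifold of
dimension `n` (Hausdorff, second countable, with holomorphic coordinate changes), `A` is a closed
analytic subset of `V` and the complement of `A` is biholomorphic to `ℂ^n`. -/
structure IsCompactification (n : ℕ) (V : Type) [TopologicalSpace V]
    [ChartedSpace (EuclideanSpace ℂ (Fin n)) V] (A : Set V) : Prop where
  /-- `V` is Hausdorff -/
  t2Space : T2Space V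
  /-- `V` is second countable -/
  secondCountable : SecondCountableTopology V
  /-- `V` is compact -/
  compactSpace : CompactSpace V
  /-- `V` is connected -/
  connectedSpace : ConnectedSpace V
  /-- `V` is a complex manifold -/
  isManifold : IsManifold 𝓘(ℂ, EuclideanSpace ℂ (Fin n)) ω V
  /-- `A` is closed -/
  isClosed : IsClosed A
  /-- `A` is analytic -/
  isAnalytic : IsAnalyticSubset n V A
  /-- the complement of `A` is biholomorphic to `ℂ^n` -/
  biholomorphic : IsBiholomorphicToAffineSpace n Aᶜ

end Pool.Agent.Helper45
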