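import Pool.Agent.Helper45.MayerVietoris

/-!
Functoriality and homotopy invariance of the homology of `MayerVietoris`.
-/

namespace Pool.Agent.Helper45

open Set

section Functorial

variable {X Y Z : Type} [TopologicalSpace X] [TopologicalSpace Y] [TopologicalSpace Z]

/-- Pushforward of singular chains. -/
noncomputable def mapS (f : C(X, Y)) (n : ℕ) : (sing X).Ch n →ₗ[ℚ] (sing Y).Ch n :=
  Finsupp.lmapDomain ℚ ℚ (fun σ => mkS (f.comp (unS σ)))

theorem mapS_single (f : C(X, Y)) (n : ℕ) (σ : C(Sp n, X)) (a : ℚ) :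
    mapS f n (Finsupp.single (mkS σ) a) = Finsupp.single (mkS (f.comp σ)) a := by
  simp only [mapS, Finsupp.lmapDomain_apply]
  exact Finsupp.mapDomain_single

theorem mapS_bd (f : C(X, Y)) (n : ℕ) (x : (sing X).Ch (n + 1)) :
    mapS f n ((sing X).bd n x) = (sing Y).bd n (mapS f (n + 1) x) := by
  have : mapS f n ∘ₗ (sing X).bd n = (sing Y).bd n ∘ₗ mapS f (n + 1) := by
    apply ch_ext
    intro σ
    rw [← mkS_unS σ, LinearMap.comp_apply, LinearMap.comp_apply, mapS_single, FaceSys.bd_single,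
      FaceSys.bd_single, map_sum]
    refine Finset.sum_congr rfl fun i _ => ?_
    rw [map_smul, face_mkS, face_mkS, mapS_single, ContinuousMap.comp_assoc]
  exact LinearMap.congr_fun this x

theorem mapS_comp (g : C(Y, Z)) (f : C(X, Y)) (n : ℕ) (x : (sing X).Ch n) :
    mapS (g.comp f) n x = mapS g n (mapS f n x) := by
  have : mapS (g.comp f) n = mapS g n ∘ₗ mapS f n := by
    apply ch_ext
    intro σ
    rw [← mkS_unS σ, LinearMap.comp_apply, mapS_single, mapS_single, mapS_single,
      ContinuousMap.comp_assoc]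
  exact LinearMap.congr_fun this x

theorem mapS_id (n : ℕ) (x : (sing X).Ch n) : mapS (ContinuousMap.id X) n x = x := by
  have : mapS (ContinuousMap.id X) n = LinearMap.id := by
    apply ch_ext
    intro σ
    rw [← mkS_unS σ, mapS_single, ContinuousMap.id_comp, LinearMap.id_apply]
  exact LinearMap.congr_fun this x

theorem mapS_mem_CU {f : C(X, Y)} {U : Set X} {V : Set Y} (h : MapsTo f U V) {n : ℕ}
    {x : (sing X).Ch n} (hx : x ∈ CU U n) : mapS f n x ∈ CU V n := by
  refine map_supported_mem (mapS f n) _ (CU V n) ?_ hx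
  intro σ hσ
  rw [← mkS_unS σ, mapS_single]
  refine single_mem_CU ?_ _
  rintro _ ⟨t, rfl⟩
  exact h (hσ ⟨t, rfl⟩)

theorem mapS_mem_Zc {f : C(X, Y)} {U : Set X} {V : Set Y} (h : MapsTo f U V) {n : ℕ}
    {x : (sing X).Ch n} (hx : x ∈ Zc U n) : mapS f n x ∈ Zc V n := by
  cases n with
  | zero => exact mapS_mem_CU h hx
  | succ n =>
    refine mem_Zc_succ.2 ⟨mapS_mem_CU h hx.1, ?_⟩
    rw [← mapS_bd, (mem_Zc_succ.1 hx).2, map_zero]

theorem mapS_mem_Bc {f : C(X, Y)} {U : Set X} {V : Set Y} (h : MapsTo f U V) {n : ℕ}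
    {x : (sing X).Ch n} (hx : x ∈ Bc U n) : mapS f n x ∈ Bc V n := by
  obtain ⟨y, hy, rfl⟩ := hx
  rw [mapS_bd]
  exact ⟨_, mapS_mem_CU h hy, rfl⟩

/-- The induced map in homology. -/
noncomputable def mapH {f : C(X, Y)} {U : Set X} {V : Set Y} (h : MapsTo f U V) (n : ℕ) :
    HH U n →ₗ[ℚ] HH V n :=
  Submodule.mapQ _ _ ((mapS f n).restrict (fun _ hx => mapS_mem_Zc h hx)) (by
    rintro ⟨x, hx⟩ hb
    exact mapS_mem_Bc h hb)

theorem mapH_mk {f : C(X, Y)} {U : Set X} {V : Set Y} (h : MapsTo f U V) (n : ℕ) (x : Zc U n) :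
    mapH h n (Submodule.Quotient.mk x) =
      Submodule.Quotient.mk ⟨mapS f n x.1, mapS_mem_Zc h x.2⟩ := rfl

/-- Embeddings identify the homology of a subset and of its image. -/
theorem hr_image {i : X → Y} (hi : Topology.IsEmbedding i) (A : Set X) (n : ℕ) :
    hr (i '' A) n = hr A n := by
  let f : C(X, Y) := ⟨i, hi.continuous⟩
  have hmaps : MapsTo f A (i '' A) := fun x hx => ⟨x, hx, rfl⟩
  have hinj : ∀ n, Function.Injective (mapS f n) := by
    intro n
    refine Finsupp.mapDomain_injective ?_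
    intro σ τ h
    have h' : f.comp (unS σ) = f.comp (unS τ) := h
    have : unS σ = unS τ := by
      ext t
      exact hi.injective (congrArg (fun g : C(Sp n, Y) => g t) h')
    exact this
  have hlift : ∀ n, ∀ y ∈ CU (i '' A) n, ∃ x ∈ CU A n, mapS f n x = y := by
    intro n y hy
    have := map_supported_mem (LinearMap.id) _ ((CU A n).map (mapS f n)) ?_ hy
    · exact this
    · intro τ hτ
      rw [LinearMap.id_apply]
      have hex : ∀ t, ∃ x ∈ A, i x = unS τ t := fun t => hτ ⟨t, rfl⟩
      choose g hgA hg using hex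
      have hgc : Continuous g := by
        rw [hi.continuous_iff]
        have : i ∘ g = unS τ := funext hg
        rw [this]
        exact (unS τ).continuous
      refine ⟨Finsupp.single (mkS ⟨g, hgc⟩) 1, single_mem_CU ?_ _, ?_⟩
      · rintro _ ⟨t, rfl⟩
        exact hgA t
      · rw [mapS_single]
        have : f.comp (⟨g, hgc⟩ : C(Sp n, X)) = unS τ := by
          ext t
          exact hg t
        rw [this, mkS_unS]
  have hZ : ∀ y ∈ Zc (i '' A) n, ∃ x ∈ Zc A n, mapS f n x = y := by
    intro y hy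
    obtain ⟨x, hx, rfl⟩ := hlift n y (Zc_le_CU _ _ hy)
    refine ⟨x, ?_, rfl⟩
    cases n with
    | zero => exact hx
    | succ n =>
      refine mem_Zc_succ.2 ⟨hx, ?_⟩
      apply hinj n
      rw [mapS_bd, (mem_Zc_succ.1 hy).2, map_zero]
  refine (LinearEquiv.rank_eq (LinearEquiv.ofBijective (mapH hmaps n) ⟨?_, ?_⟩)).symm
  · rw [injective_iff_map_eq_zero]
    intro a ha
    obtain ⟨x, rfl⟩ := Submodule.Quotient.mk_surjective _ a
    rw [mapH_mk, mk_eq_zero_iff] at ha
    rw [mk_eq_zero_iff]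
    obtain ⟨y, hy, hyx⟩ := ha
    obtain ⟨z, hz, rfl⟩ := hlift (n + 1) y hy
    rw [← mapS_bd] at hyx
    exact ⟨z, hz, hinj n hyx⟩
  · intro a
    obtain ⟨y, rfl⟩ := Submodule.Quotient.mk_surjective _ a
    obtain ⟨x, hx, hxy⟩ := hZ y.1 y.2
    refine ⟨Submodule.Quotient.mk ⟨x, hx⟩, ?_⟩
    rw [mapH_mk]
    congr 1
    exact Subtype.ext hxy

theorem acyc_image {i : X → Y} (hi : Topology.IsEmbedding i) {A : Set X} {n : ℕ} :
    Acyc (i '' A) n ↔ Acyc A n := by
  rw [acyc_iff, acyc_iff, hr_image hi]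

end Functorial

section Prism

variable {K E : Type} (β : ∀ n, (tup K).K (n + 1) → K) (e0 e1 : E)

/-- The prism operator on words. -/
noncomputable def Pr : ∀ n, (tup K).Ch n →ₗ[ℚ] (tup (K × E)).Ch (n + 1)
  | 0 => 0
  | (n + 1) => Finsupp.linearCombination ℚ (fun w : (tup K).K (n + 1) =>
      cone (β n w, e1) (n + 1) (mapK (fun x => (x, e1)) (n + 1) (Finsupp.single w 1) -
        mapK (fun x => (x, e0)) (n + 1) (Finsupp.single w 1) -
        Pr n ((tup K).bd n (Finsupp.single w 1))))

theorem Pr_zero (x : (tup K).Ch 0) : Pr β e0 e1 0 x = 0 := rfl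

theorem Pr_succ_single (n : ℕ) (w : (tup K).K (n + 1)) :
    Pr β e0 e1 (n + 1) (Finsupp.single w 1) =
      cone (β n w, e1) (n + 1) (mapK (fun x => (x, e1)) (n + 1) (Finsupp.single w 1) -
        mapK (fun x => (x, e0)) (n + 1) (Finsupp.single w 1) -
        Pr β e0 e1 n ((tup K).bd n (Finsupp.single w 1))) := by
  conv_lhs => rw [Pr]
  rw [Finsupp.linearCombination_single, one_smul]

theorem mapK_zero_eq {L : Type} (f g : K → L) (x : (tup K).Ch 0) : mapK f 0 x = mapK g 0 x := by
  have : mapK f 0 = mapK g 0 := by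
    apply ch_ext
    intro w
    rw [mapK_single, mapK_single]
    congr 1
    apply word_ext
    intro i
    exact i.elim0
  rw [this]

theorem bd_Pr (n : ℕ) (x : (tup K).Ch (n + 1)) :
    (tup (K × E)).bd (n + 1) (Pr β e0 e1 (n + 1) x) + Pr β e0 e1 n ((tup K).bd n x) =
      mapK (fun x => (x, e1)) (n + 1) x - mapK (fun x => (x, e0)) (n + 1) x := by
  have : ∀ n, (tup (K × E)).bd (n + 1) ∘ₗ Pr β e0 e1 (n + 1) + Pr β e0 e1 n ∘ₗ (tup K).bd n =
      mapK (fun x => (x, e1)) (n + 1) - mapK (fun x => (x, e0)) (n + 1) := by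
    intro n
    induction n with
    | zero =>
      apply ch_ext
      intro w
      simp only [LinearMap.add_apply, LinearMap.comp_apply, LinearMap.sub_apply]
      rw [Pr_succ_single, bd_cone_succ, Pr_zero, add_zero, sub_zero, map_sub, ← mapK_bd,
        ← mapK_bd, mapK_zero_eq (fun x => (x, e1)) (fun x => (x, e0)), sub_self, map_zero,
        sub_zero]
    | succ n ih =>
      apply ch_ext
      intro w
      simp only [LinearMap.add_apply, LinearMap.comp_apply, LinearMap.sub_apply]
      rw [Pr_succ_single, bd_cone_succ]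
      have h1 := LinearMap.congr_fun ih ((tup K).bd (n + 1) (Finsupp.single w 1))
      simp only [LinearMap.add_apply, LinearMap.comp_apply, LinearMap.sub_apply,
        FaceSys.bd_bd, map_zero, add_zero] at h1
      simp only [map_sub]
      rw [h1, ← mapK_bd, ← mapK_bd]
      simp only [map_sub]
      abel
  exact LinearMap.congr_fun (this n) x

theorem mapK_mapK {K L M : Type} (g : L → M) (f : K → L) (n : ℕ) (x : (tup K).Ch n) :
    mapK g n (mapK f n x) = mapK (fun a => g (f a)) n x := by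
  have : mapK g n ∘ₗ mapK f n = mapK (fun a => g (f a)) n := by
    apply ch_ext
    intro w
    rw [LinearMap.comp_apply, mapK_single, mapK_single, mapK_single]
    rfl
  exact LinearMap.congr_fun this x

theorem mapK_Pr {L : Type} (γ : ∀ n, (tup L).K (n + 1) → L) (f : K → L)
    (h : ∀ n w, f (β n w) = γ n (mapW f w)) (n : ℕ) (x : (tup K).Ch n) :
    mapK (Prod.map f (id : E → E)) (n + 1) (Pr β e0 e1 n x) = Pr γ e0 e1 n (mapK f n x) := by
  have : ∀ n, mapK (Prod.map f (id : E → E)) (n + 1) ∘ₗ Pr β e0 e1 n =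
      Pr γ e0 e1 n ∘ₗ mapK f n := by
    intro n
    induction n with
    | zero =>
      apply ch_ext
      intro w
      rw [LinearMap.comp_apply, LinearMap.comp_apply, Pr_zero, Pr_zero, map_zero]
    | succ n ih =>
      apply ch_ext
      intro w
      have h1 := LinearMap.congr_fun ih ((tup K).bd n (Finsupp.single w 1))
      rw [LinearMap.comp_apply, LinearMap.comp_apply, mapK_bd, mapK_single] at h1
      have a1 : mapK (Prod.map f (id : E → E)) (n + 1)
          (mapK (fun x => (x, e1)) (n + 1) (Finsupp.single w 1)) =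
          mapK (fun x => (x, e1)) (n + 1) (Finsupp.single (mapW f w) 1) := by
        rw [mapK_mapK, mapK_single, mapK_single]
        rfl
      have a0 : mapK (Prod.map f (id : E → E)) (n + 1)
          (mapK (fun x => (x, e0)) (n + 1) (Finsupp.single w 1)) =
          mapK (fun x => (x, e0)) (n + 1) (Finsupp.single (mapW f w) 1) := by
        rw [mapK_mapK, mapK_single, mapK_single]
        rfl
      rw [LinearMap.comp_apply, LinearMap.comp_apply, Pr_succ_single, mapK_cone,
        mapK_single f, Pr_succ_single, map_sub (mapK (Prod.map f id) (n + 1)),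
        map_sub (mapK (Prod.map f id) (n + 1)), a1, a0, h1, ← h]
      rfl
  exact LinearMap.congr_fun (this n) x

end Prism

section Homotopy

variable {X Y : Type} [TopologicalSpace X] [TopologicalSpace Y]

/-- The map to a product given by a word of pairs. -/
noncomputable def comb2 {n m l : ℕ} (w : (tup (Sp m × Sp l)).K n) : C(Sp n, Sp m × Sp l) :=
  (combC (mapW Prod.fst w)).prodMk (combC (mapW Prod.snd w))

theorem comb2_comp_faceC {n m l : ℕ} (w : (tup (Sp m × Sp l)).K (n + 1)) (i : Fin (n + 1)) :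
    (comb2 w).comp (faceC n i) = comb2 ((tup (Sp m × Sp l)).face n i w) := by
  ext1 t
  refine Prod.ext ?_ ?_
  · have := congrArg (fun f : C(Sp n, Sp m) => f t) (combC_comp_faceC (mapW Prod.fst w) i)
    exact this
  · have := congrArg (fun f : C(Sp n, Sp l) => f t) (combC_comp_faceC (mapW Prod.snd w) i)
    exact this

theorem comb_const {n m : ℕ} (e : Sp m) (w : (tup (Sp m)).K n) (hw : ∀ i, pt w i = e)
    (t : Sp n) : comb w t = e := by
  apply Subtype.ext
  funext j
  rw [comb_apply]
  simp only [hw]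
  rw [← Finset.sum_mul, t.2.2, one_mul]

theorem comb2_pair {n m l : ℕ} (w : (tup (Sp m)).K n) (e : Sp l) (t : Sp n) :
    comb2 (mapW (fun x => (x, e)) w) t = (comb w t, e) := by
  refine Prod.ext rfl ?_
  exact comb_const e _ (fun i => rfl) t

/-- Evaluate a homotopy on a word of pairs. -/
noncomputable def pushF (F : C(X × Sp 2, Y)) {m : ℕ} (σ : C(Sp m, X)) (n : ℕ) :
    (tup (Sp m × Sp 2)).Ch n →ₗ[ℚ] (sing Y).Ch n :=
  Finsupp.lmapDomain ℚ ℚ
    (fun w => mkS (F.comp ((σ.prodMap (ContinuousMap.id (Sp 2))).comp (comb2 w))))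

theorem pushF_single (F : C(X × Sp 2, Y)) {m : ℕ} (σ : C(Sp m, X)) (n : ℕ)
    (w : (tup (Sp m × Sp 2)).K n) (a : ℚ) :
    pushF F σ n (Finsupp.single w a) =
      Finsupp.single (mkS (F.comp ((σ.prodMap (ContinuousMap.id (Sp 2))).comp (comb2 w)))) a := by
  simp only [pushF, Finsupp.lmapDomain_apply]
  exact Finsupp.mapDomain_single

theorem pushF_bd (F : C(X × Sp 2, Y)) {m : ℕ} (σ : C(Sp m, X)) (n : ℕ)
    (x : (tup (Sp m × Sp 2)).Ch (n + 1)) :
    pushF F σ n ((tup (Sp m × Sp 2)).bd n x) = (sing Y).bd n (pushF F σ (n + 1) x) := by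
  have : pushF F σ n ∘ₗ (tup (Sp m × Sp 2)).bd n = (sing Y).bd n ∘ₗ pushF F σ (n + 1) := by
    apply ch_ext
    intro w
    rw [LinearMap.comp_apply, LinearMap.comp_apply, pushF_single, FaceSys.bd_single,
      FaceSys.bd_single, map_sum]
    refine Finset.sum_congr rfl fun i _ => ?_
    rw [map_smul, pushF_single, face_mkS, ContinuousMap.comp_assoc, ContinuousMap.comp_assoc,
      comb2_comp_faceC]
  exact LinearMap.congr_fun this x

theorem pushF_comp (F : C(X × Sp 2, Y)) {m l : ℕ} (σ : C(Sp l, X)) (v : (tup (Sp l)).K m) (n : ℕ)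
    (x : (tup (Sp m × Sp 2)).Ch n) :
    pushF F (σ.comp (combC v)) n x = pushF F σ n (mapK (Prod.map (combC v) id) n x) := by
  have : pushF F (σ.comp (combC v)) n = pushF F σ n ∘ₗ mapK (Prod.map (combC v) id) n := by
    apply ch_ext
    intro w
    rw [LinearMap.comp_apply, mapK_single, pushF_single, pushF_single]
    congr 2
    ext1 t
    show F ((σ.comp (combC v)) (comb (mapW Prod.fst w) t), comb (mapW Prod.snd w) t) =
      F (σ (comb (mapW Prod.fst (mapW (Prod.map (combC v) id) w)) t),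
        comb (mapW Prod.snd (mapW (Prod.map (combC v) id) w)) t)
    have h1 : comb (mapW Prod.fst (mapW (Prod.map (combC v) id) w)) t =
        comb v (comb (mapW Prod.fst w) t) := by
      rw [comb_comb]
      rfl
    rw [h1]
    rfl
  exact LinearMap.congr_fun this x

/-- The slice of a homotopy. -/
def slice (F : C(X × Sp 2, Y)) (e : Sp 2) : C(X, Y) :=
  F.comp ((ContinuousMap.id X).prodMk (ContinuousMap.const X e))

theorem pushF_pair (F : C(X × Sp 2, Y)) {m : ℕ} (σ : C(Sp m, X)) (e : Sp 2) (n : ℕ)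
    (x : (tup (Sp m)).Ch n) :
    pushF F σ n (mapK (fun x => (x, e)) n x) = mapS (slice F e) n (push σ n x) := by
  have : pushF F σ n ∘ₗ mapK (fun x => (x, e)) n = mapS (slice F e) n ∘ₗ push σ n := by
    apply ch_ext
    intro w
    rw [LinearMap.comp_apply, LinearMap.comp_apply, mapK_single, pushF_single, push_single,
      mapS_single]
    congr 2
    ext1 t
    show F ((σ.prodMap (ContinuousMap.id (Sp 2))) (comb2 (mapW (fun x => (x, e)) w) t)) =
      F (σ (comb w t), e)
    rw [comb2_pair]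
    rfl
  exact LinearMap.congr_fun this x

/-- The prism operator on singular chains. -/
noncomputable def HP (F : C(X × Sp 2, Y)) (n : ℕ) : (sing X).Ch n →ₗ[ℚ] (sing Y).Ch (n + 1) :=
  Finsupp.linearCombination ℚ (fun σ => pushF F (unS σ) (n + 1)
    (Pr (fun k => bary k) (stdSimplex.vertex 0) (stdSimplex.vertex 1) n
      (Finsupp.single (vtxW n) 1)))

theorem HP_single (F : C(X × Sp 2, Y)) {n : ℕ} (σ : C(Sp n, X)) :
    HP F n (Finsupp.single (mkS σ) 1) = pushF F σ (n + 1)
      (Pr (fun k => bary k) (stdSimplex.vertex 0) (stdSimplex.vertex 1) n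
        (Finsupp.single (vtxW n) 1)) := by
  rw [HP, Finsupp.linearCombination_single, one_smul, unS_mkS]

theorem HP_push (F : C(X × Sp 2, Y)) {m : ℕ} (σ : C(Sp m, X)) (n : ℕ)
    (x : (tup (Sp m)).Ch n) :
    HP F n (push σ n x) = pushF F σ (n + 1)
      (Pr (fun k => bary k) (stdSimplex.vertex 0) (stdSimplex.vertex 1) n x) := by
  have : HP F n ∘ₗ push σ n = pushF F σ (n + 1) ∘ₗ
      Pr (fun k => bary k) (stdSimplex.vertex 0) (stdSimplex.vertex 1) n := by
    apply ch_ext
    intro w
    rw [LinearMap.comp_apply, LinearMap.comp_apply, push_single, HP_single, pushF_comp,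
      mapK_Pr (fun k => bary k) _ _ (fun k => bary k) (combC w) (fun k v => bary_nat w k v),
      mapK_single, mapW_combC_vtxW]
  exact LinearMap.congr_fun this x

theorem bd_HP (F : C(X × Sp 2, Y)) (n : ℕ) (x : (sing X).Ch (n + 1)) :
    (sing Y).bd (n + 1) (HP F (n + 1) x) + HP F n ((sing X).bd n x) =
      mapS (slice F (stdSimplex.vertex 1)) (n + 1) x -
        mapS (slice F (stdSimplex.vertex 0)) (n + 1) x := by
  have : (sing Y).bd (n + 1) ∘ₗ HP F (n + 1) + HP F n ∘ₗ (sing X).bd n =
      mapS (slice F (stdSimplex.vertex 1)) (n + 1) -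
        mapS (slice F (stdSimplex.vertex 0)) (n + 1) := by
    apply ch_ext
    intro σ
    simp only [LinearMap.add_apply, LinearMap.comp_apply, LinearMap.sub_apply]
    rw [← mkS_unS σ]
    rw [HP_single, ← pushF_bd]
    have h1 : (sing X).bd n (Finsupp.single (mkS (unS σ)) 1) =
        push (unS σ) n ((tup (Sp (n + 1))).bd n (Finsupp.single (vtxW (n + 1)) 1)) := by
      rw [push_bd, push_vtxW]
    rw [h1, HP_push, ← map_add, bd_Pr, map_sub, pushF_pair, pushF_pair, push_vtxW]
  exact LinearMap.congr_fun this x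

theorem mapS_zero_eq (f g : C(X, Y)) (x : (sing X).Ch 0) : mapS f 0 x = mapS g 0 x := by
  have : mapS f 0 = mapS g 0 := by
    apply ch_ext
    intro σ
    rw [← mkS_unS σ, mapS_single, mapS_single]
    congr 2
    ext1 t
    exact absurd t.2.2 (by simp)
  rw [this]

theorem slice_homologous (F : C(X × Sp 2, Y)) (n : ℕ) {x : (sing X).Ch n}
    (hx : x ∈ Zc univ n) :
    mapS (slice F (stdSimplex.vertex 1)) n x - mapS (slice F (stdSimplex.vertex 0)) n x ∈
      Bc (univ : Set Y) n := by
  cases n with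
  | zero =>
    rw [mapS_zero_eq (slice F (stdSimplex.vertex 1)) (slice F (stdSimplex.vertex 0)), sub_self]
    exact Submodule.zero_mem _
  | succ n =>
    rw [← bd_HP, (mem_Zc_succ.1 hx).2, map_zero, add_zero]
    exact ⟨_, by simp [CU], rfl⟩

/-- Homotopic maps agree on homology. -/
theorem homotopic_homologous {f g : C(X, Y)} (h : f.Homotopic g) (n : ℕ) {x : (sing X).Ch n}
    (hx : x ∈ Zc univ n) : mapS g n x - mapS f n x ∈ Bc (univ : Set Y) n := by
  obtain ⟨G⟩ := h
  let F : C(X × Sp 2, Y) :=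
    ⟨fun p => G (stdSimplexHomeomorphUnitInterval p.2, p.1), by fun_prop⟩
  have h0 : slice F (stdSimplex.vertex 0) = f := by
    ext1 a
    show G (stdSimplexHomeomorphUnitInterval (stdSimplex.vertex 0), a) = f a
    rw [stdSimplexHomeomorphUnitInterval_zero]
    exact G.map_zero_left a
  have h1 : slice F (stdSimplex.vertex 1) = g := by
    ext1 a
    show G (stdSimplexHomeomorphUnitInterval (stdSimplex.vertex 1), a) = g a
    rw [stdSimplexHomeomorphUnitInterval_one]
    exact G.map_one_left a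
  have := slice_homologous F n hx
  rwa [h0, h1] at this

/-- Homotopy equivalent spaces have the same homology. -/
theorem hr_eq_of_homotopyEquiv (e : ContinuousMap.HomotopyEquiv X Y) (n : ℕ) :
    hr (univ : Set X) n = hr (univ : Set Y) n := by
  have hm : MapsTo e.toFun (univ : Set X) (univ : Set Y) := mapsTo_univ _ _
  refine (LinearEquiv.rank_eq (LinearEquiv.ofBijective (mapH hm n) ⟨?_, ?_⟩))
  · rw [injective_iff_map_eq_zero]
    intro a ha
    obtain ⟨x, rfl⟩ := Submodule.Quotient.mk_surjective _ a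
    rw [mapH_mk, mk_eq_zero_iff] at ha
    rw [mk_eq_zero_iff]
    have h1 := mapS_mem_Bc (f := e.invFun) (V := (univ : Set X)) (mapsTo_univ _ _) ha
    rw [← mapS_comp] at h1
    have h2 := homotopic_homologous e.left_inv n x.2
    rw [mapS_id] at h2
    have := Submodule.add_mem _ h2 h1
    rwa [sub_add_cancel] at this
  · intro a
    obtain ⟨y, rfl⟩ := Submodule.Quotient.mk_surjective _ a
    have hm' : MapsTo e.invFun (univ : Set Y) (univ : Set X) := mapsTo_univ _ _
    refine ⟨Submodule.Quotient.mk ⟨mapS e.invFun n y.1, mapS_mem_Zc hm' y.2⟩, ?_⟩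
    rw [mapH_mk, mk_eq_mk_iff]
    show mapS e.toFun n (mapS e.invFun n y.1) - y.1 ∈ _
    rw [← mapS_comp]
    have h2 := homotopic_homologous e.right_inv n y.2
    rw [mapS_id] at h2
    have := Submodule.neg_mem _ h2
    rwa [neg_sub] at this

end Homotopy

end Pool.Agent.Helper45
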