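import Pool.Agent.Helper45.LGVariety

/-!
Charts of the variety `VV`.
-/

namespace Pool.Agent.Helper45

open Complex Topology
open scoped ContDiff Manifold

/-- Data for a chart of `VV`. -/
structure CD where
  /-- the coordinate normalised to one -/
  piv : Fin 12
  /-- the coordinates used as chart coordinates -/
  free : Fin 4 → Fin 12
  /-- the image of the chart -/
  O : Set (Fin 4 → ℂ)
  /-- an open condition on normalised vectors -/
  Q : Set (Fin 12 → ℂ)
  /-- the parametrisation -/
  par : (Fin 4 → ℂ) → (Fin 12 → ℂ)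
  isOpen_O : IsOpen O
  isOpen_Q : IsOpen Q
  par_contDiffOn : ContDiffOn ℂ ω par O
  par_piv : ∀ u ∈ O, par u piv = 1
  par_free : ∀ u ∈ O, ∀ j, par u (free j) = u j
  par_K : ∀ u ∈ O, InK (par u)
  par_Q : ∀ u ∈ O, par u ∈ Q
  complete : ∀ z, InK z → z piv = 1 → z ∈ Q →
    (fun j => z (free j)) ∈ O ∧ par (fun j => z (free j)) = z

/-- A base point. -/
noncomputable def p0 : VV := mkV (Pi.single 0 1) (by
  intro h
  have := congrFun h 0
  simp at this) (by constructor <;> simp)

theorem inducing_VV : Topology.IsInducing (fun p : VV => p.1) := ⟨rfl⟩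

open Classical in
/-- The point of `VV` given by a vector, with a junk value. -/
noncomputable def toV (z : Fin 12 → ℂ) : VV := if h : z ≠ 0 ∧ InK z then mkV z h.1 h.2 else p0

theorem toV_eq {z : Fin 12 → ℂ} (hz : z ≠ 0) (hK : InK z) : toV z = mkV z hz hK := by
  unfold toV
  rw [dif_pos ⟨hz, hK⟩]

namespace CD

variable (c : CD)

theorem par_ne_zero {u : Fin 4 → ℂ} (hu : u ∈ c.O) : c.par u ≠ 0 := by
  intro h
  have := c.par_piv u hu
  rw [h] at this
  exact zero_ne_one this

theorem toV_par {u : Fin 4 → ℂ} (hu : u ∈ c.O) :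
    toV (c.par u) = mkV (c.par u) (c.par_ne_zero hu) (c.par_K u hu) :=
  toV_eq _ _

theorem diag_toV_par {u : Fin 4 → ℂ} (hu : u ∈ c.O) (i : Fin 12) :
    (toV (c.par u)).1 i i ≠ 0 ↔ c.par u i ≠ 0 := by
  rw [toV_par c hu]
  exact diag_mkV_ne_zero

theorem crd_toV_par {u : Fin 4 → ℂ} (hu : u ∈ c.O) {i : Fin 12} (hi : c.par u i ≠ 0)
    (j : Fin 12) : crd i (toV (c.par u)) j = c.par u j / c.par u i := by
  rw [toV_par c hu]
  exact crd_mkV hi j

theorem crd_piv_toV_par {u : Fin 4 → ℂ} (hu : u ∈ c.O) :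
    crd c.piv (toV (c.par u)) = c.par u := by
  funext j
  have h1 := c.par_piv u hu
  rw [crd_toV_par c hu (by rw [h1]; exact one_ne_zero), h1, div_one]

/-- The source of the chart. -/
def src : Set VV := {p | p.1 c.piv c.piv ≠ 0} ∩ crd c.piv ⁻¹' c.Q

theorem isOpen_src : IsOpen c.src :=
  (continuousOn_crd c.piv).isOpen_inter_preimage (isOpen_diag c.piv) c.isOpen_Q

theorem toV_par_mem_src {u : Fin 4 → ℂ} (hu : u ∈ c.O) : toV (c.par u) ∈ c.src := by
  refine ⟨?_, ?_⟩
  · rw [Set.mem_ofPred_eq, diag_toV_par c hu, c.par_piv u hu]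
    exact one_ne_zero
  · rw [Set.mem_preimage, crd_piv_toV_par c hu]
    exact c.par_Q u hu

theorem par_crd {p : VV} (hp : p ∈ c.src) :
    (fun j => crd c.piv p (c.free j)) ∈ c.O ∧
      c.par (fun j => crd c.piv p (c.free j)) = crd c.piv p := by
  obtain ⟨h1, h2, -⟩ := exists_normalised hp.1
  exact c.complete _ h1 h2 hp.2

theorem toV_par_crd {p : VV} (hp : p ∈ c.src) :
    toV (c.par (fun j => crd c.piv p (c.free j))) = p := by
  obtain ⟨-, -, hz, hK, h3⟩ := exists_normalised hp.1
  rw [(c.par_crd hp).2, toV_eq hz hK]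
  exact h3.symm

/-- The chart, with values in `Fin 4 → ℂ`. -/
noncomputable def chart : OpenPartialHomeomorph VV (Fin 4 → ℂ) where
  toFun p := fun j => crd c.piv p (c.free j)
  invFun u := toV (c.par u)
  source := c.src
  target := c.O
  map_source' p hp := (c.par_crd hp).1
  map_target' u hu := c.toV_par_mem_src hu
  left_inv' p hp := c.toV_par_crd hp
  right_inv' u hu := by
    funext j
    rw [crd_piv_toV_par c hu]
    exact c.par_free u hu j
  open_source := c.isOpen_src
  open_target := c.isOpen_O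
  continuousOn_toFun := by
    refine continuousOn_pi.2 fun j => ?_
    have h1 : ContinuousOn (crd c.piv) c.src :=
      (continuousOn_crd c.piv).mono Set.inter_subset_left
    exact (continuousOn_pi.1 h1) (c.free j)
  continuousOn_invFun := by
    rw [inducing_VV.continuousOn_iff]
    have h1 : ContinuousOn (fun u => PP (c.par u)) c.O :=
      continuousOn_PP.comp c.par_contDiffOn.continuousOn fun u hu => c.par_ne_zero hu
    refine h1.congr fun u hu => ?_
    rw [Function.comp_apply, toV_par c hu]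
    rfl

theorem chart_apply (p : VV) (j : Fin 4) : c.chart p j = crd c.piv p (c.free j) := rfl

theorem chart_symm_apply (u : Fin 4 → ℂ) : c.chart.symm u = toV (c.par u) := rfl

/-- The transition between two charts is analytic. -/
theorem transition_contDiffOn (c c' : CD) :
    ContDiffOn ℂ ω (c.chart.symm ≫ₕ c'.chart) (c.chart.symm ≫ₕ c'.chart).source := by
  have hsub : ∀ u ∈ (c.chart.symm ≫ₕ c'.chart).source, u ∈ c.O ∧ c.par u c'.piv ≠ 0 := by
    intro u hu
    rw [OpenPartialHomeomorph.trans_source] at hu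
    have hu1 : u ∈ c.O := hu.1
    refine ⟨hu1, ?_⟩
    have hu2 : toV (c.par u) ∈ c'.src := hu.2
    rw [← c.diag_toV_par hu1]
    exact hu2.1
  have h1 : ContDiffOn ℂ ω (fun u j => c.par u (c'.free j) / c.par u c'.piv)
      (c.chart.symm ≫ₕ c'.chart).source := by
    rw [contDiffOn_pi]
    intro j
    have h2 : ContDiffOn ℂ ω c.par (c.chart.symm ≫ₕ c'.chart).source :=
      c.par_contDiffOn.mono fun u hu => (hsub u hu).1
    rw [contDiffOn_pi] at h2
    exact (h2 (c'.free j)).div (h2 c'.piv) fun u hu => (hsub u hu).2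
  refine h1.congr fun u hu => ?_
  funext j
  show crd c'.piv (toV (c.par u)) (c'.free j) = _
  exact c.crd_toV_par (hsub u hu).1 (hsub u hu).2 _

/-- The identification of the model spaces. -/
noncomputable def mdl : (Fin 4 → ℂ) ≃L[ℂ] EuclideanSpace ℂ (Fin 4) :=
  (EuclideanSpace.equiv (Fin 4) ℂ).symm

/-- The chart with values in Euclidean space. -/
noncomputable def chartE : OpenPartialHomeomorph VV (EuclideanSpace ℂ (Fin 4)) :=
  c.chart.transHomeomorph mdl.toHomeomorph

theorem transitionE_contDiffOn (c c' : CD) :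
    ContDiffOn ℂ ω (c.chartE.symm ≫ₕ c'.chartE) (c.chartE.symm ≫ₕ c'.chartE).source := by
  have h1 := transition_contDiffOn c c'
  have h2 : ContDiffOn ℂ ω (fun x => mdl ((c.chart.symm ≫ₕ c'.chart) (mdl.symm x)))
      (mdl.symm ⁻¹' (c.chart.symm ≫ₕ c'.chart).source) := by
    have h3 := h1.comp (mdl.symm.contDiff.contDiffOn (s := mdl.symm ⁻¹'
      (c.chart.symm ≫ₕ c'.chart).source)) (fun x hx => hx)
    exact mdl.contDiff.comp_contDiffOn h3
  refine (h2.mono ?_).congr ?_
  · intro x hx
    exact hx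
  · intro x hx
    rfl

end CD

end Pool.Agent.Helper45
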