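import Pool.Agent.Helper45.LGHomology
import Pool.Agent.Helper45.Compactification

/-!
The variety `VV` is a compactification of `ℂ^4`.
-/

namespace Pool.Agent.Helper45

open Complex Topology Set
open scoped ContDiff Manifold

/-- All the charts. -/
noncomputable def allCD : Fin 4 ⊕ Fin 4 → CD := Sum.elim ![cdA, cdB, cdC, cdD] cdT

theorem cover (p : VV) : ∃ i, p ∈ (allCD i).src := by
  have h : p ∈ UC ∪ cdD.src := by
    rw [UD_eq_univ]
    trivial
  rcases h with (((hA | hB) | hT) | hC) | hD
  · exact ⟨Sum.inl 0, hA⟩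
  · exact ⟨Sum.inl 1, hB⟩
  · simp only [mem_iUnion] at hT
    obtain ⟨j, -, hT⟩ := hT
    exact ⟨Sum.inr j, hT⟩
  · exact ⟨Sum.inl 2, hC⟩
  · exact ⟨Sum.inl 3, hD⟩

noncomputable instance : ChartedSpace (EuclideanSpace ℂ (Fin 4)) VV where
  atlas := range fun i => (allCD i).chartE
  chartAt p := (allCD (cover p).choose).chartE
  mem_chart_source p := (cover p).choose_spec
  chart_mem_atlas _ := mem_range_self _

instance : IsManifold 𝓘(ℂ, EuclideanSpace ℂ (Fin 4)) ω VV := by
  refine isManifold_of_contDiffOn _ _ _ ?_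
  rintro e e' ⟨i, rfl⟩ ⟨j, rfl⟩
  have h := CD.transitionE_contDiffOn (allCD i) (allCD j)
  simpa using h

theorem chartE_mem (i : Fin 4 ⊕ Fin 4) : (allCD i).chartE ∈
    IsManifold.maximalAtlas 𝓘(ℂ, EuclideanSpace ℂ (Fin 4)) ω VV :=
  IsManifold.subset_maximalAtlas (mem_range_self i)

/-- The boundary divisor. -/
def AA : Set VV := {p | p.1 0 0 = 0}

theorem compl_AA : AAᶜ = cdA.src := by
  ext p
  exact mem_srcA.symm

theorem isAnalytic_AA : IsAnalyticSubset 4 VV AA := by
  intro p
  obtain ⟨i, hi⟩ := cover p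
  refine ⟨(allCD i).src, (allCD i).isOpen_src, hi, 1, fun _ q => crd (allCD i).piv q 0, ?_, ?_⟩
  · intro _
    have h1 := contMDiffOn_of_mem_maximalAtlas (chartE_mem i)
    have h2 : ContDiffOn ℂ ω (fun x => (allCD i).par (CD.mdl.symm x) 0)
        (CD.mdl.symm ⁻¹' (allCD i).O) := by
      have h3 := (allCD i).par_contDiffOn
      rw [contDiffOn_pi] at h3
      exact (h3 0).comp (CD.mdl.symm.contDiff.contDiffOn) (fun x hx => hx)
    have h4 := h2.contMDiffOn.comp h1 (fun q hq => ?_)
    · refine h4.congr fun q hq => ?_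
      show crd (allCD i).piv q 0 = (allCD i).par (CD.mdl.symm (CD.mdl ((allCD i).chart q))) 0
      rw [ContinuousLinearEquiv.symm_apply_apply]
      have h5 : (allCD i).chart q = fun j => crd (allCD i).piv q ((allCD i).free j) := rfl
      rw [h5, ((allCD i).par_crd hq).2]
    · show CD.mdl.symm (CD.mdl ((allCD i).chart q)) ∈ (allCD i).O
      rw [ContinuousLinearEquiv.symm_apply_apply]
      exact ((allCD i).par_crd hq).1
  · intro q hq
    have hne : q.1 (allCD i).piv (allCD i).piv ≠ 0 := hq.1
    obtain ⟨hK, h1, hz, hK', hp⟩ := exists_normalised hne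
    constructor
    · intro hA _
      by_contra hcon
      have : q.1 0 0 ≠ 0 := by
        rw [hp]
        exact diag_mkV_ne_zero.2 hcon
      exact this hA
    · intro h
      have h0 := h 0
      show q.1 0 0 = 0
      by_contra hcon
      rw [hp] at hcon
      exact diag_mkV_ne_zero.1 hcon h0

theorem star_O (i : Fin 4 ⊕ Fin 4) : StarConvex ℝ 0 (allCD i).O := by
  rcases i with i | i
  · fin_cases i
    · exact starConvex_univ _
    · exact starConvex_univ _
    · exact starConvex_univ _
    · exact starConvex_univ _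
  · exact starT i

theorem zero_mem_O (i : Fin 4 ⊕ Fin 4) : (0 : Fin 4 → ℂ) ∈ (allCD i).O := by
  rcases i with i | i
  · fin_cases i
    · trivial
    · trivial
    · trivial
    · trivial
  · show ‖mono 0‖ < eps i
    have h : mono 0 = 0 := mono_zero rfl rfl
    rw [h, norm_zero]
    exact (tube_spec i).1

theorem isPreconnected_src (i : Fin 4 ⊕ Fin 4) : IsPreconnected (allCD i).src := by
  have h1 : IsPreconnected (allCD i).O :=
    ((star_O i).isPathConnected (zero_mem_O i)).isConnected.isPreconnected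
  have h2 : (allCD i).chart.symm '' (allCD i).chart.target = (allCD i).chart.source :=
    (allCD i).chart.symm_image_target_eq_source
  have h3 : IsPreconnected ((allCD i).chart.symm '' (allCD i).chart.target) :=
    h1.image _ (allCD i).chart.continuousOn_symm
  rw [h2] at h3
  exact h3

theorem exists_common (i : Fin 4 ⊕ Fin 4) : ∃ p, p ∈ cdA.src ∧ p ∈ (allCD i).src := by
  have key : ∀ c : CD, ∀ u ∈ c.O, c.par u 0 ≠ 0 → ∃ p, p ∈ cdA.src ∧ p ∈ c.src :=
    fun c u hu h => ⟨toV (c.par u), (toV_mem_srcA c hu).2 h, c.toV_par_mem_src hu⟩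
  rcases i with i | i
  · fin_cases i
    · refine key cdA 0 trivial ?_
      show parA 0 0 ≠ 0
      simp [parA]
    · refine key cdB (Pi.single 0 1) trivial ?_
      show parB (Pi.single 0 1) 0 ≠ 0
      simp [parB]
    · refine key cdC (Pi.single 3 1) trivial ?_
      show parC (Pi.single 3 1) 0 ≠ 0
      simp [parC]
    · refine key cdD (Pi.single 1 1) trivial ?_
      show parD (Pi.single 1 1) 0 ≠ 0
      simp [parD]
  · have hm : mono (Pi.single 3 1) = 0 := by
      funext j
      fin_cases j <;> simp [mono]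
    refine key (cdT i) (Pi.single 3 1) ?_ ?_
    · show ‖mono (Pi.single 3 1)‖ < eps i
      rw [hm, norm_zero]
      exact (tube_spec i).1
    · show parT (kap i (mono (Pi.single 3 1))) (Pi.single 3 1) 0 ≠ 0
      simp [parT]

instance : ConnectedSpace VV := by
  rw [connectedSpace_iff_univ]
  refine ⟨⟨p0, trivial⟩, ?_⟩
  obtain ⟨x, hx, -⟩ := exists_common (Sum.inl 0)
  refine isPreconnected_of_forall x fun p _ => ?_
  obtain ⟨i, hi⟩ := cover p
  obtain ⟨q, hq1, hq2⟩ := exists_common i
  exact ⟨cdA.src ∪ (allCD i).src, subset_univ _, Or.inl hx, Or.inr hi,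
    IsPreconnected.union q hq1 hq2 (isPreconnected_src (Sum.inl 0)) (isPreconnected_src i)⟩

theorem isCompactification_VV : IsCompactification 4 VV AA where
  t2Space := inferInstance
  secondCountable := inferInstance
  compactSpace := inferInstance
  connectedSpace := inferInstance
  isManifold := inferInstance
  isClosed := by
    rw [← isOpen_compl_iff, compl_AA]
    exact cdA.isOpen_src
  isAnalytic := isAnalytic_AA
  biholomorphic := by
    have h1 : ContMDiffOn 𝓘(ℂ, EuclideanSpace ℂ (Fin 4)) 𝓘(ℂ, EuclideanSpace ℂ (Fin 4)) ω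
        cdA.chartE cdA.chartE.source := contMDiffOn_of_mem_maximalAtlas (chartE_mem (Sum.inl 0))
    have h2 : ContMDiffOn 𝓘(ℂ, EuclideanSpace ℂ (Fin 4)) 𝓘(ℂ, EuclideanSpace ℂ (Fin 4)) ω
        cdA.chartE.symm cdA.chartE.target :=
      contMDiffOn_symm_of_mem_maximalAtlas (chartE_mem (Sum.inl 0))
    have hsrc : cdA.chartE.source = AAᶜ := compl_AA.symm
    have htgt : cdA.chartE.target = univ := by
      rw [eq_univ_iff_forall]
      intro u
      trivial
    refine ⟨cdA.chartE, cdA.chartE.symm, ?_, ?_, ?_, ?_, ?_⟩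
    · rw [← hsrc]
      exact h1
    · rw [← htgt]
      exact h2
    · intro u
      rw [← hsrc]
      exact cdA.chartE.map_target (by rw [htgt]; trivial)
    · intro u
      exact cdA.chartE.right_inv (by rw [htgt]; trivial)
    · intro p hp
      exact cdA.chartE.left_inv (by rw [hsrc]; exact hp)

end Pool.Agent.Helper45
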