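import Pool.Agent.Helper45.LGTube
import Pool.Agent.Helper45.Attach
import Pool.Agent.Helper45.BettiEq

/-!
The cell filtration of `VV` and its Betti numbers.
-/

namespace Pool.Agent.Helper45

open Complex Topology Set
open scoped ContDiff Manifold

theorem InK.vanish {z : Fin 12 → ℂ} (h : InK z) (h0 : z 0 = 0) (h6 : z 6 = 0) (h8 : z 8 = 0) :
    z 1 = 0 ∧ z 2 = 0 ∧ z 3 = 0 ∧ z 4 = 0 ∧ z 5 = 0 ∧ z 7 = 0 ∧ z 9 = 0 := by
  have h5 : z 5 = 0 := by
    have := h.s11
    rw [h0, h6] at this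
    have h' : z 5 ^ 2 = 0 := by linear_combination -this
    exact pow_eq_zero_iff (two_ne_zero) |>.1 h'
  have h3 : z 3 = 0 := by
    have := h.s22
    rw [h0, h6] at this
    have h' : z 3 ^ 2 = 0 := by linear_combination -this
    exact pow_eq_zero_iff (two_ne_zero) |>.1 h'
  have h4 : z 4 = 0 := by
    have := h.t33
    rw [h6, h8] at this
    have h' : z 4 ^ 2 = 0 := by linear_combination -this
    exact pow_eq_zero_iff (two_ne_zero) |>.1 h'
  have h1 : z 1 = 0 := by
    have := h.u11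
    rw [h0, h4, h3] at this
    have h' : z 1 ^ 2 = 0 := by linear_combination this
    exact pow_eq_zero_iff (two_ne_zero) |>.1 h'
  have h2 : z 2 = 0 := by
    have := h.s33
    rw [h0, h1] at this
    have h' : z 2 ^ 2 = 0 := by linear_combination -this
    exact pow_eq_zero_iff (two_ne_zero) |>.1 h'
  have h7 : z 7 = 0 := by
    have := h.t22
    rw [h1, h4] at this
    have h' : z 7 ^ 2 = 0 := by linear_combination -this
    exact pow_eq_zero_iff (two_ne_zero) |>.1 h'
  have h9 : z 9 = 0 := by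
    have := h.t11
    rw [h1, h8] at this
    have h' : z 9 ^ 2 = 0 := by linear_combination -this
    exact pow_eq_zero_iff (two_ne_zero) |>.1 h'
  exact ⟨h1, h2, h3, h4, h5, h7, h9⟩

theorem mono_zero {u : Fin 4 → ℂ} (h2 : u 2 = 0) (h3 : u 3 = 0) : mono u = 0 := by
  funext i
  fin_cases i <;> simp [mono, h2, h3]

theorem kap_zero (i : Fin 4) : kap i 0 = root i := by
  obtain ⟨he, hd, -, -, h5⟩ := tube_spec i
  refine (h5 0 (root i) (by rw [norm_zero]; exact he) (by rw [sub_self, norm_zero]; exact hd)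
    ?_).symm
  simp [GG, root_pow]

/-- Points with `x0 = S33 = 0` and `Y22 ≠ 0` lie in a tube. -/
theorem mem_tube {p : VV} (h0 : ¬ p.1 0 0 ≠ 0) (h6 : ¬ p.1 6 6 ≠ 0) (h8 : p.1 8 8 ≠ 0) :
    ∃ i, p ∈ (cdT i).src := by
  obtain ⟨hK, h1, hz, hK', hp⟩ := exists_normalised h8
  set z := crd 8 p with hzdef
  have hz0 : z 0 = 0 := by
    by_contra hne
    exact h0 (by rw [hp]; exact diag_mkV_ne_zero.2 hne)
  have hz6 : z 6 = 0 := by
    by_contra hne
    exact h6 (by rw [hp]; exact diag_mkV_ne_zero.2 hne)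
  have hz3 : z 3 = 0 := by
    have := hK.s22
    rw [hz0, hz6] at this
    have h' : z 3 ^ 2 = 0 := by linear_combination -this
    exact pow_eq_zero_iff (two_ne_zero) |>.1 h'
  have hm : mono (fun j => z ((![11, 9, 6, 3] : Fin 4 → Fin 12) j)) = 0 :=
    mono_zero hz6 hz3
  have hG := (parT_of_InK z hK h1).1
  rw [hm] at hG
  have hc : z 4 ^ 4 = z 4 := by
    simp [GG] at hG
    linear_combination hG
  obtain ⟨i, hi⟩ := root_complete hc
  refine ⟨i, h8, ?_⟩
  show z ∈ (cdT i).Q
  obtain ⟨he, hd, -⟩ := tube_spec i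
  constructor
  · rw [hm, norm_zero]
    exact he
  · rw [hi, sub_self, norm_zero]
    exact hd

theorem mem_srcA {p : VV} : p ∈ cdA.src ↔ p.1 0 0 ≠ 0 := ⟨fun h => h.1, fun h => ⟨h, trivial⟩⟩

theorem mem_srcB {p : VV} : p ∈ cdB.src ↔ p.1 6 6 ≠ 0 := ⟨fun h => h.1, fun h => ⟨h, trivial⟩⟩

theorem mem_srcC {p : VV} : p ∈ cdC.src ↔ p.1 10 10 ≠ 0 := ⟨fun h => h.1, fun h => ⟨h, trivial⟩⟩

theorem mem_srcD {p : VV} : p ∈ cdD.src ↔ p.1 11 11 ≠ 0 := ⟨fun h => h.1, fun h => ⟨h, trivial⟩⟩

theorem toV_mem_srcA (c : CD) {u : Fin 4 → ℂ} (hu : u ∈ c.O) :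
    toV (c.par u) ∈ cdA.src ↔ c.par u 0 ≠ 0 := mem_srcA.trans (c.diag_toV_par hu 0)

theorem toV_mem_srcB (c : CD) {u : Fin 4 → ℂ} (hu : u ∈ c.O) :
    toV (c.par u) ∈ cdB.src ↔ c.par u 6 ≠ 0 := mem_srcB.trans (c.diag_toV_par hu 6)

theorem toV_mem_srcC (c : CD) {u : Fin 4 → ℂ} (hu : u ∈ c.O) :
    toV (c.par u) ∈ cdC.src ↔ c.par u 10 ≠ 0 := mem_srcC.trans (c.diag_toV_par hu 10)

/-- The first two strata. -/
def UB : Set VV := cdA.src ∪ cdB.src

/-- The union with some of the tubes. -/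
def UT (s : Finset (Fin 4)) : Set VV := UB ∪ ⋃ j ∈ s, (cdT j).src

theorem isOpen_UT (s : Finset (Fin 4)) : IsOpen (UT s) :=
  (cdA.isOpen_src.union cdB.isOpen_src).union
    (isOpen_biUnion fun j _ => (cdT j).isOpen_src)

theorem acyc_chart {X : Type} [TopologicalSpace X] (φ : OpenPartialHomeomorph X (Fin 4 → ℂ))
    (hstar : StarConvex ℝ 0 φ.target) (h0 : 0 ∈ φ.target) (n : ℕ) : Acyc φ.source n := by
  have h1 : ContractibleSpace φ.target := hstar.contractibleSpace ⟨0, h0⟩
  exact acyc_coe (φ.toHomeomorphSourceTarget.contractibleSpace) n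

theorem acycA (n : ℕ) : Acyc cdA.src n :=
  acyc_chart cdA.chart (starConvex_univ _) trivial n

theorem stepB : (∀ n, Acyc UB (2 * n)) ∧
    ∀ n, hr UB (2 * n + 1) = 0 + if n = 1 then 1 else 0 := by
  have h := attach_cell cdB.chart cdA.isOpen_src {0} (Finset.singleton_nonempty _)
    (starConvex_univ _) (fun _ _ => trivial) (fun _ _ _ _ _ => trivial) ?_
    (fun n => acycA (2 * n))
  · refine ⟨h.1, fun n => ?_⟩
    have h2 := h.2 n
    rw [(acyc_iff _ _).1 (acycA (2 * n + 1)), Finset.card_singleton] at h2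
    exact h2
  · intro u hu
    show toV (cdB.par u) ∈ cdA.src ↔ _
    rw [toV_mem_srcA cdB hu]
    show parB u 0 ≠ 0 ↔ _
    simp [parB]

theorem mono_smul_bound (J : Finset (Fin 4)) {u : Fin 4 → ℂ} {t : ℝ} (h0 : 0 ≤ t) (h1 : t ≤ 1)
    (v : Fin 4 → ℂ) (hv : ∀ i, ‖v i‖ ≤ ‖u i‖) : ‖mono v‖ ≤ ‖mono u‖ := by
  rw [pi_norm_le_iff_of_nonneg (norm_nonneg _)]
  intro i
  have key : ‖mono v i‖ ≤ ‖mono u i‖ := by
    fin_cases i
    · show ‖v 0 * v 2‖ ≤ ‖u 0 * u 2‖
      rw [norm_mul, norm_mul]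
      exact mul_le_mul (hv 0) (hv 2) (norm_nonneg _) (norm_nonneg _)
    · show ‖v 1 * v 3‖ ≤ ‖u 1 * u 3‖
      rw [norm_mul, norm_mul]
      exact mul_le_mul (hv 1) (hv 3) (norm_nonneg _) (norm_nonneg _)
    · show ‖v 0 * v 3 ^ 2‖ ≤ ‖u 0 * u 3 ^ 2‖
      rw [norm_mul, norm_mul, norm_pow, norm_pow]
      exact mul_le_mul (hv 0) (pow_le_pow_left₀ (norm_nonneg _) (hv 3) 2) (by positivity)
        (norm_nonneg _)
    · show ‖v 2 * v 1 ^ 2‖ ≤ ‖u 2 * u 1 ^ 2‖
      rw [norm_mul, norm_mul, norm_pow, norm_pow]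
      exact mul_le_mul (hv 2) (pow_le_pow_left₀ (norm_nonneg _) (hv 1) 2) (by positivity)
        (norm_nonneg _)
  exact key.trans (norm_le_pi_norm (mono u) i)

theorem starT (i : Fin 4) : StarConvex ℝ 0 (cdT i).O := by
  intro u hu a b ha hb hab
  rw [smul_zero, zero_add]
  have hb1 : b ≤ 1 := by linarith
  refine lt_of_le_of_lt (mono_smul_bound ∅ hb hb1 (b • u) ?_) hu
  intro j
  rw [Pi.smul_apply, norm_smul, Real.norm_of_nonneg hb]
  exact mul_le_of_le_one_left (norm_nonneg _) hb1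

theorem defT (i : Fin 4) (J : Finset (Fin 4)) {u : Fin 4 → ℂ} (hu : u ∈ (cdT i).O) {t : ℝ}
    (h0 : 0 ≤ t) (h1 : t ≤ 1) : scl J t u ∈ (cdT i).O := by
  refine lt_of_le_of_lt (mono_smul_bound J h0 h1 (scl J t u) ?_) hu
  intro j
  unfold scl
  by_cases hj : j ∈ J
  · rw [if_pos hj]
  · rw [if_neg hj, norm_mul, norm_real, Real.norm_of_nonneg h0]
    exact mul_le_of_le_one_left (norm_nonneg _) h1

theorem stepT (s : Finset (Fin 4)) : (∀ n, Acyc (UT s) (2 * n)) ∧
    ∀ n, hr (UT s) (2 * n + 1) = hr UB (2 * n + 1) + if n = 2 then (s.card : Cardinal) else 0 := by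
  classical
  induction s using Finset.induction_on with
  | empty =>
    have h : UT ∅ = UB := by simp [UT]
    rw [h]
    refine ⟨stepB.1, fun n => ?_⟩
    by_cases hn : n = 2 <;> simp [hn]
  | insert i s his ih =>
    have hunion : UT (insert i s) = UT s ∪ (cdT i).src := by
      unfold UT
      rw [Finset.set_biUnion_insert, union_assoc, union_comm (cdT i).src]
    have h := attach_cell (cdT i).chart (isOpen_UT s) {2, 3} ⟨2, by simp⟩
      (starT i) ?_ (fun u hu t h0 h1 => defT i _ hu h0 h1) ?_ ih.1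
    · rw [hunion]
      refine ⟨h.1, fun n => ?_⟩
      have h2 := h.2 n
      rw [ih.2 n] at h2
      refine h2.trans ?_
      have hcard : ({2, 3} : Finset (Fin 4)).card = 2 := rfl
      rw [hcard, add_assoc]
      congr 1
      by_cases hn : n = 2
      · rw [if_pos hn, if_pos hn, if_pos hn, Finset.card_insert_of_notMem his]
        push_cast
        rfl
      · rw [if_neg hn, if_neg hn, if_neg hn, add_zero]
    · intro v hv
      show ‖mono v‖ < eps i
      have : mono v = 0 := by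
        have h0 := hv 0 (by simp)
        have h1 := hv 1 (by simp)
        funext j
        fin_cases j <;> simp [mono, h0, h1]
      rw [this, norm_zero]
      exact (tube_spec i).1
    · intro u hu
      have hu' : u ∈ (cdT i).O := hu
      show toV ((cdT i).par u) ∈ UT s ↔ _
      have h8 : (cdT i).par u 8 = 1 := by
        show parT (kap i (mono u)) u 8 = 1
        simp [parT]
      have hx0 : (cdT i).par u 0 = (u 0 * u 2 + (kap i (mono u)) ^ 2) * u 2 - u 3 ^ 2 := by
        show parT (kap i (mono u)) u 0 = _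
        simp [parT]
      have hx6 : (cdT i).par u 6 = u 2 := by
        show parT (kap i (mono u)) u 6 = _
        simp [parT]
      constructor
      · intro hmem
        by_contra hcon
        have h2 : u 2 = 0 := by
          by_contra hne
          exact hcon ⟨2, by simp, hne⟩
        have h3 : u 3 = 0 := by
          by_contra hne
          exact hcon ⟨3, by simp, hne⟩
        rcases hmem with (hA | hB) | hT
        · rw [toV_mem_srcA _ hu', hx0, h2, h3] at hA
          exact hA (by ring)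
        · rw [toV_mem_srcB _ hu', hx6] at hB
          exact hB h2
        · simp only [mem_iUnion] at hT
          obtain ⟨j, hj, hT⟩ := hT
          have hQ := hT.2
          rw [mem_preimage] at hQ
          have hcrd : crd 8 (toV ((cdT i).par u)) = (cdT i).par u := (cdT i).crd_piv_toV_par hu'
          have hQ' : crd 8 (toV ((cdT i).par u)) ∈ (cdT j).Q := hQ
          rw [hcrd] at hQ'
          have h4 : (cdT i).par u 4 = root i := by
            show parT (kap i (mono u)) u 4 = _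
            rw [mono_zero h2 h3, kap_zero]
            simp [parT]
          have hlt := hQ'.2
          rw [h4] at hlt
          obtain ⟨he, hd, -, -, h5⟩ := tube_spec j
          have := h5 0 (root i) (by rw [norm_zero]; exact he) hlt (by simp [GG, root_pow])
          rw [kap_zero] at this
          have hij := root_injective this
          rw [hij] at his
          exact his hj
      · rintro ⟨j, hj, hne⟩
        by_cases h2 : u 2 = 0
        · have h3 : u 3 ≠ 0 := by
            intro h3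
            simp only [Finset.mem_insert, Finset.mem_singleton] at hj
            rcases hj with rfl | rfl
            · exact hne h2
            · exact hne h3
          left; left
          rw [toV_mem_srcA _ hu', hx0, h2]
          intro h
          have : u 3 ^ 2 = 0 := by linear_combination -h
          exact h3 (pow_eq_zero_iff two_ne_zero |>.1 this)
        · left; right
          rw [toV_mem_srcB _ hu', hx6]
          exact h2

/-- The union of all strata but the last two. -/
def UC : Set VV := UT Finset.univ ∪ cdC.src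

theorem not_mem_UT {z : Fin 12 → ℂ} {hz : z ≠ 0} {hK : InK z} (h0 : z 0 = 0) (h6 : z 6 = 0)
    (h8 : z 8 = 0) : mkV z hz hK ∉ UT Finset.univ := by
  rintro ((hA | hB) | hT)
  · exact diag_mkV_ne_zero.1 hA.1 h0
  · exact diag_mkV_ne_zero.1 hB.1 h6
  · simp only [mem_iUnion] at hT
    obtain ⟨j, -, hT⟩ := hT
    exact diag_mkV_ne_zero.1 hT.1 h8

theorem mem_UT_of {z : Fin 12 → ℂ} {hz : z ≠ 0} {hK : InK z}
    (h : z 0 ≠ 0 ∨ z 6 ≠ 0 ∨ z 8 ≠ 0) : mkV z hz hK ∈ UT Finset.univ := by
  by_cases h0 : z 0 = 0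
  · by_cases h6 : z 6 = 0
    · have h8 : z 8 ≠ 0 := by
        rcases h with h | h | h
        · exact absurd h0 h
        · exact absurd h6 h
        · exact h
      obtain ⟨i, hi⟩ := mem_tube (p := mkV z hz hK)
        (fun h => diag_mkV_ne_zero.1 h h0) (fun h => diag_mkV_ne_zero.1 h h6)
        (diag_mkV_ne_zero.2 h8)
      right
      simp only [mem_iUnion]
      exact ⟨i, Finset.mem_univ _, hi⟩
    · left; right
      exact mem_srcB.2 (diag_mkV_ne_zero.2 h6)
  · left; left
    exact mem_srcA.2 (diag_mkV_ne_zero.2 h0)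

theorem stepC : (∀ n, Acyc UC (2 * n)) ∧
    ∀ n, hr UC (2 * n + 1) = hr (UT Finset.univ) (2 * n + 1) + if n = 3 then 1 else 0 := by
  refine attach_cell cdC.chart (isOpen_UT _) {1, 2, 3} ⟨1, by simp⟩
    (starConvex_univ _) (fun _ _ => trivial) (fun _ _ _ _ _ => trivial) ?_ (stepT _).1
  intro u hu
  show toV (cdC.par u) ∈ UT Finset.univ ↔ _
  have hu' : u ∈ cdC.O := hu
  rw [cdC.toV_par hu']
  constructor
  · intro hmem
    by_contra hcon
    have h1 : u 1 = 0 := by
      by_contra hne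
      exact hcon ⟨1, by simp, hne⟩
    have h2 : u 2 = 0 := by
      by_contra hne
      exact hcon ⟨2, by simp, hne⟩
    have h3 : u 3 = 0 := by
      by_contra hne
      exact hcon ⟨3, by simp, hne⟩
    refine not_mem_UT ?_ ?_ ?_ hmem
    · show parC u 0 = 0
      simp [parC, h1, h2, h3]
    · show parC u 6 = 0
      simp [parC, h1, h2, h3]
    · show parC u 8 = 0
      simp [parC, h1, h2, h3]
  · rintro ⟨j, hj, hne⟩
    apply mem_UT_of
    by_contra hcon
    push Not at hcon
    obtain ⟨h0, h6, h8⟩ := hcon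
    obtain ⟨h1, h2, h3, h4, h5, h7, h9⟩ := (cdC.par_K u hu').vanish h0 h6 h8
    apply hne
    simp only [Finset.mem_insert, Finset.mem_singleton] at hj
    rcases hj with rfl | rfl | rfl
    · have : cdC.par u 7 = u 1 := cdC.par_free u hu' 1
      rw [← this]; exact h7
    · have : cdC.par u 9 = u 2 := cdC.par_free u hu' 2
      rw [← this]; exact h9
    · have : cdC.par u 2 = u 3 := cdC.par_free u hu' 3
      rw [← this]; exact h2

theorem isOpen_UC : IsOpen UC := (isOpen_UT _).union cdC.isOpen_src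

theorem stepD : (∀ n, Acyc (UC ∪ cdD.src) (2 * n)) ∧
    ∀ n, hr (UC ∪ cdD.src) (2 * n + 1) = hr UC (2 * n + 1) + if n = 4 then 1 else 0 := by
  refine attach_cell cdD.chart isOpen_UC Finset.univ ⟨0, by simp⟩
    (starConvex_univ _) (fun _ _ => trivial) (fun _ _ _ _ _ => trivial) ?_ stepC.1
  intro u hu
  show toV (cdD.par u) ∈ UC ↔ _
  have hu' : u ∈ cdD.O := hu
  rw [cdD.toV_par hu']
  constructor
  · intro hmem
    by_contra hcon
    push Not at hcon
    have h0 : u 0 = 0 := hcon 0 (Finset.mem_univ _)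
    have h1 : u 1 = 0 := hcon 1 (Finset.mem_univ _)
    have h2 : u 2 = 0 := hcon 2 (Finset.mem_univ _)
    have h3 : u 3 = 0 := hcon 3 (Finset.mem_univ _)
    rcases hmem with hmem | hmem
    · refine not_mem_UT ?_ ?_ ?_ hmem
      · show parD u 0 = 0
        simp [parD, h0, h1, h2, h3]
      · show parD u 6 = 0
        simp [parD, h0, h1, h2, h3]
      · show parD u 8 = 0
        simp [parD, h3]
    · refine diag_mkV_ne_zero.1 hmem.1 ?_
      show parD u 10 = 0
      simp [parD, h0]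
  · rintro ⟨j, hj, hne⟩
    by_contra hcon
    have hk : cdD.par u 10 = 0 := by
      by_contra hne
      exact hcon (Or.inr (mem_srcC.2 (diag_mkV_ne_zero.2 hne)))
    have hT : ¬ (cdD.par u 0 ≠ 0 ∨ cdD.par u 6 ≠ 0 ∨ cdD.par u 8 ≠ 0) := fun h =>
      hcon (Or.inl (mem_UT_of h))
    push Not at hT
    obtain ⟨h0, h6, h8⟩ := hT
    obtain ⟨h1, h2, h3, h4, h5, h7, h9⟩ := (cdD.par_K u hu').vanish h0 h6 h8
    apply hne
    fin_cases j
    · have : cdD.par u 10 = u 0 := cdD.par_free u hu' 0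
      exact this.symm.trans hk
    · have : cdD.par u 9 = u 1 := cdD.par_free u hu' 1
      exact this.symm.trans h9
    · have : cdD.par u 7 = u 2 := cdD.par_free u hu' 2
      exact this.symm.trans h7
    · have : cdD.par u 8 = u 3 := cdD.par_free u hu' 3
      exact this.symm.trans h8

theorem UD_eq_univ : UC ∪ cdD.src = univ := by
  rw [eq_univ_iff_forall]
  intro p
  obtain ⟨z, hz, hK, rfl⟩ := VV_exists p
  by_contra hcon
  have h11 : z 11 = 0 := by
    by_contra hne
    exact hcon (Or.inr (mem_srcD.2 (diag_mkV_ne_zero.2 hne)))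
  have h10 : z 10 = 0 := by
    by_contra hne
    exact hcon (Or.inl (Or.inr (mem_srcC.2 (diag_mkV_ne_zero.2 hne))))
  have hT : ¬ (z 0 ≠ 0 ∨ z 6 ≠ 0 ∨ z 8 ≠ 0) := fun h =>
    hcon (Or.inl (Or.inl (mem_UT_of h)))
  push Not at hT
  obtain ⟨h0, h6, h8⟩ := hT
  obtain ⟨h1, h2, h3, h4, h5, h7, h9⟩ := hK.vanish h0 h6 h8
  apply hz
  funext i
  fin_cases i
  · exact h0
  · exact h1
  · exact h2
  · exact h3
  · exact h4
  · exact h5
  · exact h6
  · exact h7
  · exact h8
  · exact h9
  · exact h10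
  · exact h11

theorem betti_two : bettiNumber VV 2 = 1 := by
  have h := stepD.2 1
  rw [UD_eq_univ, stepC.2 1, (stepT _).2 1, stepB.2 1] at h
  rw [betti_eq_hr VV 1]
  have h2 : hr (univ : Set VV) (1 + 2) = 1 := by
    rw [show (1 + 2 : ℕ) = 2 * 1 + 1 from rfl, h]
    norm_num
  rw [h2]
  simp

theorem betti_four : bettiNumber VV 4 = 4 := by
  have h := stepD.2 2
  rw [UD_eq_univ, stepC.2 2, (stepT _).2 2, stepB.2 2] at h
  rw [betti_eq_hr VV 3]
  have h2 : hr (univ : Set VV) (3 + 2) = 4 := by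
    rw [show (3 + 2 : ℕ) = 2 * 2 + 1 from rfl, h]
    norm_num
  rw [h2]
  simp

end Pool.Agent.Helper45
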