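import Pool.Agent.Helper45.LGCharts

/-!
The four polynomial charts of `VV`.
-/

namespace Pool.Agent.Helper45

open Complex Topology
open scoped ContDiff Manifold

/-- Parametrisation of `x0 = 1`. -/
noncomputable def parA (u : Fin 4 → ℂ) : Fin 12 → ℂ :=
  let s := u 0
  let e := u 1
  let f := u 2
  let b := u 3
  let c := e * f - b * s
  let a := c * s - f ^ 2
  let h := a * s - e ^ 2
  let k := a * c - b ^ 2
  let g := b * f - e * c
  let d := b * e - a * f
  ![1, a, b, e, c, f, s, g, h, d, k, a * a + b * c + e * g]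

theorem parA_K (u : Fin 4 → ℂ) : InK (parA u) := by
  constructor <;> simp [parA] <;> ring

theorem parA_contDiff : ContDiff ℂ ω parA := by
  refine contDiff_pi.2 fun i => ?_
  fin_cases i <;> simp [parA] <;> fun_prop

theorem parA_complete (z : Fin 12 → ℂ) (h : InK z) (h0 : z 0 = 1) :
    parA (fun j => z ((![6, 3, 5, 2] : Fin 4 → Fin 12) j)) = z := by
  have hc : z 3 * z 5 - z 2 * z 6 = z 4 := by rw [h.s12, h0, one_mul]
  have ha : z 4 * z 6 - z 5 ^ 2 = z 1 := by rw [h.s11, h0, one_mul]
  have hh : z 1 * z 6 - z 3 ^ 2 = z 8 := by rw [h.s22, h0, one_mul]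
  have hk : z 1 * z 4 - z 2 ^ 2 = z 10 := by rw [h.s33, h0, one_mul]
  have hg : z 2 * z 5 - z 3 * z 4 = z 7 := by rw [h.s13, h0, one_mul]
  have hd : z 2 * z 3 - z 1 * z 5 = z 9 := by rw [h.s23, h0, one_mul]
  have hy : z 1 * z 1 + z 2 * z 4 + z 3 * z 7 = z 11 := by rw [h.u11, h0, one_mul]
  funext i
  fin_cases i <;> simp [parA, hc, ha, hh, hk, hg, hd, hy, h0]

/-- The chart `x0 ≠ 0`. -/
noncomputable def cdA : CD where
  piv := 0
  free := ![6, 3, 5, 2]
  O := Set.univ
  Q := Set.univ
  par := parA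
  isOpen_O := isOpen_univ
  isOpen_Q := isOpen_univ
  par_contDiffOn := parA_contDiff.contDiffOn
  par_piv u _ := by simp [parA]
  par_free u _ j := by fin_cases j <;> simp [parA]
  par_K u _ := parA_K u
  par_Q u _ := trivial
  complete z hz h1 _ := ⟨trivial, parA_complete z hz h1⟩

/-- Parametrisation of `S33 = 1`. -/
noncomputable def parB (u : Fin 4 → ℂ) : Fin 12 → ℂ :=
  let x := u 0
  let e := u 1
  let f := u 2
  let h := u 3
  let a := x * h + e ^ 2
  let c := x * a + f ^ 2
  let b := e * f - x * c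
  let g := -(e * a + f * c)
  let d := -(e * c + f * h)
  let y := a * h - c ^ 2
  ![x, a, b, e, c, f, 1, g, h, d, x * y - e * g - f * d, y]

theorem parB_K (u : Fin 4 → ℂ) : InK (parB u) := by
  constructor <;> simp [parB] <;> ring

theorem parB_contDiff : ContDiff ℂ ω parB := by
  refine contDiff_pi.2 fun i => ?_
  fin_cases i <;> simp [parB] <;> fun_prop

theorem parB_complete (z : Fin 12 → ℂ) (h : InK z) (h0 : z 6 = 1) :
    parB (fun j => z ((![0, 3, 5, 8] : Fin 4 → Fin 12) j)) = z := by
  have ha : z 0 * z 8 + z 3 ^ 2 = z 1 := by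
    have := h.s22; rw [h0] at this; linear_combination -this
  have hc : z 0 * z 1 + z 5 ^ 2 = z 4 := by
    have := h.s11; rw [h0] at this; linear_combination -this
  have hb : z 3 * z 5 - z 0 * z 4 = z 2 := by
    have := h.s12; rw [h0] at this; linear_combination this
  have hg : -(z 3 * z 1 + z 5 * z 4) = z 7 := by
    have := h.u31; rw [h0] at this; linear_combination -this
  have hd : -(z 3 * z 4 + z 5 * z 8) = z 9 := by
    have := h.u32; rw [h0] at this; linear_combination -this
  have hy : z 1 * z 8 - z 4 ^ 2 = z 11 := by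
    have := h.t33; rw [h0] at this; linear_combination this
  have hk : z 0 * z 11 - z 3 * z 7 - z 5 * z 9 = z 10 := by
    have := h.u33; rw [h0] at this; linear_combination -this
  funext i
  fin_cases i <;> simp only [parB, Matrix.cons_val, Fin.zero_eta, Fin.mk_one, Fin.reduceFinMk,
    ha, hc, hb, hg, hd, hy, hk, h0]

/-- The chart `S33 ≠ 0`. -/
noncomputable def cdB : CD where
  piv := 6
  free := ![0, 3, 5, 8]
  O := Set.univ
  Q := Set.univ
  par := parB
  isOpen_O := isOpen_univ
  isOpen_Q := isOpen_univ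
  par_contDiffOn := parB_contDiff.contDiffOn
  par_piv u _ := by simp [parB]
  par_free u _ j := by fin_cases j <;> simp [parB]
  par_K u _ := parB_K u
  par_Q u _ := trivial
  complete z hz h1 _ := ⟨trivial, parB_complete z hz h1⟩

/-- Parametrisation of `Y33 = 1`. -/
noncomputable def parC (u : Fin 4 → ℂ) : Fin 12 → ℂ :=
  let y := u 0
  let g := u 1
  let d := u 2
  let b := u 3
  let c := g * d - y * b
  let a := y * c + g ^ 2
  let h := y * a + d ^ 2
  let e := -(a * g + b * d)
  let f := -(b * g + c * d)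
  let x := a * c - b ^ 2
  ![x, a, b, e, c, f, x * y - e * g - f * d, g, h, d, 1, y]

theorem parC_K (u : Fin 4 → ℂ) : InK (parC u) := by
  constructor <;> simp [parC] <;> ring

theorem parC_contDiff : ContDiff ℂ ω parC := by
  refine contDiff_pi.2 fun i => ?_
  fin_cases i <;> simp [parC] <;> fun_prop

theorem parC_complete (z : Fin 12 → ℂ) (h : InK z) (h0 : z 10 = 1) :
    parC (fun j => z ((![11, 7, 9, 2] : Fin 4 → Fin 12) j)) = z := by
  have hc : z 7 * z 9 - z 11 * z 2 = z 4 := by
    have := h.t12; rw [h0] at this; linear_combination this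
  have ha : z 11 * z 4 + z 7 ^ 2 = z 1 := by
    have := h.t22; rw [h0] at this; linear_combination -this
  have hh : z 11 * z 1 + z 9 ^ 2 = z 8 := by
    have := h.t11; rw [h0] at this; linear_combination -this
  have he : -(z 1 * z 7 + z 2 * z 9) = z 3 := by
    have := h.u13; rw [h0] at this; linear_combination -this
  have hf : -(z 2 * z 7 + z 4 * z 9) = z 5 := by
    have := h.u23; rw [h0] at this; linear_combination -this
  have hx : z 1 * z 4 - z 2 ^ 2 = z 0 := by
    have := h.s33; rw [h0] at this; linear_combination this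
  have hs : z 0 * z 11 - z 3 * z 7 - z 5 * z 9 = z 6 := by
    have := h.u33; rw [h0] at this; linear_combination -this
  funext i
  fin_cases i <;> simp only [parC, Matrix.cons_val, Fin.zero_eta, Fin.mk_one, Fin.reduceFinMk,
    ha, hc, hh, he, hf, hx, hs, h0]

/-- The chart `Y33 ≠ 0`. -/
noncomputable def cdC : CD where
  piv := 10
  free := ![11, 7, 9, 2]
  O := Set.univ
  Q := Set.univ
  par := parC
  isOpen_O := isOpen_univ
  isOpen_Q := isOpen_univ
  par_contDiffOn := parC_contDiff.contDiffOn
  par_piv u _ := by simp [parC]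
  par_free u _ j := by fin_cases j <;> simp [parC]
  par_K u _ := parC_K u
  par_Q u _ := trivial
  complete z hz h1 _ := ⟨trivial, parC_complete z hz h1⟩

/-- Parametrisation of `y0 = 1`. -/
noncomputable def parD (u : Fin 4 → ℂ) : Fin 12 → ℂ :=
  let k := u 0
  let d := u 1
  let g := u 2
  let h := u 3
  let a := h * k - d ^ 2
  let c := a * k - g ^ 2
  let s := a * h - c ^ 2
  let b := g * d - c * k
  let e := c * d - g * h
  let f := c * g - a * d
  ![a * a + b * c + e * g, a, b, e, c, f, s, g, h, d, k, 1]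

theorem parD_K (u : Fin 4 → ℂ) : InK (parD u) := by
  constructor <;> simp [parD] <;> ring

theorem parD_contDiff : ContDiff ℂ ω parD := by
  refine contDiff_pi.2 fun i => ?_
  fin_cases i <;> simp [parD] <;> fun_prop

theorem parD_complete (z : Fin 12 → ℂ) (h : InK z) (h0 : z 11 = 1) :
    parD (fun j => z ((![10, 9, 7, 8] : Fin 4 → Fin 12) j)) = z := by
  have ha : z 8 * z 10 - z 9 ^ 2 = z 1 := by rw [h.t11, h0, one_mul]
  have hc : z 1 * z 10 - z 7 ^ 2 = z 4 := by rw [h.t22, h0, one_mul]
  have hs : z 1 * z 8 - z 4 ^ 2 = z 6 := by rw [h.t33, h0, one_mul]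
  have hb : z 7 * z 9 - z 4 * z 10 = z 2 := by rw [h.t12, h0, one_mul]
  have he : z 4 * z 9 - z 7 * z 8 = z 3 := by rw [h.t13, h0, one_mul]
  have hf : z 4 * z 7 - z 1 * z 9 = z 5 := by rw [h.t23, h0, one_mul]
  have hx : z 1 * z 1 + z 2 * z 4 + z 3 * z 7 = z 0 := by rw [h.u11, h0, mul_one]
  funext i
  fin_cases i <;> simp only [parD, Matrix.cons_val, Fin.zero_eta, Fin.mk_one, Fin.reduceFinMk,
    ha, hc, hs, hb, he, hf, hx, h0]

/-- The chart `y0 ≠ 0`. -/
noncomputable def cdD : CD where
  piv := 11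
  free := ![10, 9, 7, 8]
  O := Set.univ
  Q := Set.univ
  par := parD
  isOpen_O := isOpen_univ
  isOpen_Q := isOpen_univ
  par_contDiffOn := parD_contDiff.contDiffOn
  par_piv u _ := by simp [parD]
  par_free u _ j := by fin_cases j <;> simp [parD]
  par_K u _ := parD_K u
  par_Q u _ := trivial
  complete z hz h1 _ := ⟨trivial, parD_complete z hz h1⟩

end Pool.Agent.Helper45
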