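import Pool.Agent.Helper45.LGPoly

/-!
The four tubes: charts around the remaining points.
-/

namespace Pool.Agent.Helper45

open Complex Topology Filter
open scoped ContDiff Manifold

/-- The quartic whose roots are the four middle points. -/
noncomputable def GG (v : (Fin 4 → ℂ) × ℂ) : ℂ :=
  v.2 ^ 4 + 2 * v.1 0 * v.2 ^ 2 + (2 * v.1 1 - 1) * v.2 + (v.1 0 ^ 2 - v.1 2 + v.1 3)

theorem GG_contDiff : ContDiff ℂ ω GG := by
  unfold GG
  fun_prop

theorem GG_fderiv_inr (r : ℂ) (t : ℂ) :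
    (fderiv ℂ GG ((0 : Fin 4 → ℂ), r) ∘L .inr ℂ (Fin 4 → ℂ) ℂ) t = (4 * r ^ 3 - 1) * t := by
  have h1 : HasFDerivAt GG (fderiv ℂ GG ((0 : Fin 4 → ℂ), r)) ((0 : Fin 4 → ℂ), r) :=
    (GG_contDiff.differentiable (by simp)).differentiableAt.hasFDerivAt
  have h2 : HasDerivAt (fun c : ℂ => ((0 : Fin 4 → ℂ), c)) ((0 : Fin 4 → ℂ), (1 : ℂ)) r :=
    (hasDerivAt_const r (0 : Fin 4 → ℂ)).prodMk (hasDerivAt_id r)
  have h3 := h1.comp_hasDerivAt r h2
  have h4 : HasDerivAt (fun c : ℂ => c ^ 4 - c) (4 * r ^ 3 - 1) r := by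
    have := (hasDerivAt_pow 4 r).fun_sub (hasDerivAt_id' r)
    simpa using this
  have h5 : (GG ∘ fun c : ℂ => ((0 : Fin 4 → ℂ), c)) = fun c : ℂ => c ^ 4 - c := by
    funext c
    simp [GG]
    ring
  rw [h5] at h3
  have h6 := h3.unique h4
  have h7 : (fderiv ℂ GG ((0 : Fin 4 → ℂ), r) ∘L .inr ℂ (Fin 4 → ℂ) ℂ) t =
      t • (fderiv ℂ GG ((0 : Fin 4 → ℂ), r)) ((0 : Fin 4 → ℂ), (1 : ℂ)) := by
    rw [← map_smul]
    simp
  rw [h7, h6, smul_eq_mul, mul_comm]

theorem GG_invertible {r : ℂ} (hr : r ^ 4 = r) :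
    (fderiv ℂ GG ((0 : Fin 4 → ℂ), r) ∘L .inr ℂ (Fin 4 → ℂ) ℂ).IsInvertible := by
  have hne : (4 * r ^ 3 - 1 : ℂ) ≠ 0 := by
    intro h
    have h0 : r ≠ 0 := by
      rintro rfl
      norm_num at h
    have h1 : r ^ 3 = 1 := by
      have : r * (r ^ 3 - 1) = 0 := by ring_nf; rw [hr]; ring
      rcases mul_eq_zero.1 this with h' | h'
      · exact absurd h' h0
      · exact sub_eq_zero.1 h'
    rw [h1] at h
    norm_num at h
  refine ⟨ContinuousLinearEquiv.unitsEquivAut ℂ (Units.mk0 _ hne), ?_⟩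
  ext
  rw [GG_fderiv_inr]
  simp

/-- The implicit function near a root. -/
theorem exists_tube {r : ℂ} (hr : r ^ 4 = r) :
    ∃ (κ : (Fin 4 → ℂ) → ℂ) (ε δ : ℝ), 0 < ε ∧ 0 < δ ∧
      (∀ n : Fin 4 → ℂ, ‖n‖ < ε → ContDiffAt ℂ ω κ n) ∧
      (∀ n : Fin 4 → ℂ, ‖n‖ < ε → ‖κ n - r‖ < δ ∧ GG (n, κ n) = 0) ∧
      (∀ (n : Fin 4 → ℂ) (c : ℂ), ‖n‖ < ε → ‖c - r‖ < δ → GG (n, c) = 0 → c = κ n) := by
  have hcd : ContDiffAt ℂ ω GG ((0 : Fin 4 → ℂ), r) := GG_contDiff.contDiffAt
  have hpn : (ω : WithTop ℕ∞) ≠ 0 := by simp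
  have hinv := GG_invertible hr
  have hG0 : GG ((0 : Fin 4 → ℂ), r) = 0 := by
    simp [GG, hr]
  have e1 := hcd.eventually_apply_eq_iff_implicitFunction hpn hinv
  have e2 := hcd.eventually_apply_implicitFunction hpn hinv
  have e3 := hcd.contDiffAt_implicitFunction hpn hinv
  have e4 := hcd.implicitFunction_apply_self hpn hinv
  set ψ := hcd.implicitFunction hpn hinv with hψ
  simp only [hG0] at e1 e2 e3 e4
  -- neighbourhoods
  rw [Metric.eventually_nhds_iff] at e1
  obtain ⟨δ, hδ, h1⟩ := e1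
  have e5 : ∀ᶠ n in 𝓝 (0 : Fin 4 → ℂ), AnalyticAt ℂ ψ n := e3.analyticAt.eventually_analyticAt
  have e6 : ∀ᶠ n in 𝓝 (0 : Fin 4 → ℂ), dist (ψ n) r < δ := by
    have hc : ContinuousAt ψ (0 : Fin 4 → ℂ) := e3.continuousAt
    have := hc.eventually (Metric.ball_mem_nhds (ψ 0) hδ)
    rw [e4] at this
    exact this
  have e7 := e2.and (e5.and e6)
  rw [Metric.eventually_nhds_iff] at e7
  obtain ⟨ε, hε, h2⟩ := e7
  refine ⟨ψ, min ε δ, δ, lt_min hε hδ, hδ, ?_, ?_, ?_⟩
  · intro n hn
    have := h2 (y := n) (by rw [dist_zero_right]; exact hn.trans_le (min_le_left _ _))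
    exact this.2.1.contDiffAt
  · intro n hn
    have := h2 (y := n) (by rw [dist_zero_right]; exact hn.trans_le (min_le_left _ _))
    refine ⟨?_, this.1⟩
    rw [← dist_eq_norm]
    exact this.2.2
  · intro n c hn hc hG
    have := (h1 (y := (n, c)) (by
      rw [Prod.dist_eq, max_lt_iff, dist_zero_right, dist_eq_norm]
      exact ⟨hn.trans_le (min_le_right _ _), hc⟩)).1 hG
    exact this.symm

/-- The monomials. -/
noncomputable def mono (u : Fin 4 → ℂ) : Fin 4 → ℂ :=
  ![u 0 * u 2, u 1 * u 3, u 0 * u 3 ^ 2, u 2 * u 1 ^ 2]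

theorem mono_contDiff : ContDiff ℂ ω mono := by
  refine contDiff_pi.2 fun i => ?_
  fin_cases i <;> simp [mono] <;> fun_prop

/-- Parametrisation of `Y22 = 1` with the value of `Y12` as an extra variable. -/
noncomputable def parT (c : ℂ) (u : Fin 4 → ℂ) : Fin 12 → ℂ :=
  let y := u 0
  let d := u 1
  let s := u 2
  let e := u 3
  let a := y * s + c ^ 2
  let k := y * a + d ^ 2
  let g := c * d - y * e
  let x := a * s - e ^ 2
  let b := -(a * c + e * d)
  let f := -(e * c + s * d)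
  ![x, a, b, e, c, f, s, g, 1, d, k, y]

theorem parT_K {c : ℂ} {u : Fin 4 → ℂ} (h : GG (mono u, c) = 0) : InK (parT c u) := by
  have hG : c ^ 4 + 2 * (u 0 * u 2) * c ^ 2 + (2 * (u 1 * u 3) - 1) * c +
      ((u 0 * u 2) ^ 2 - u 0 * u 3 ^ 2 + u 2 * u 1 ^ 2) = 0 := by
    simpa [GG, mono] using h
  constructor
  · simp [parT]; linear_combination (-(u 2)) * hG
  · simp [parT]
  · simp [parT]; linear_combination (-(u 0) * u 2 - c ^ 2) * hG
  · simp [parT] <;> ring
  · simp [parT]; linear_combination (u 3) * hG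
  · simp [parT] <;> ring
  · simp [parT]
  · simp [parT]; linear_combination (u 0) * hG
  · simp [parT]
  · simp [parT] <;> ring
  · simp [parT]
  · simp [parT] <;> ring
  · simp [parT] <;> ring
  · simp [parT] <;> ring
  · simp [parT] <;> ring
  · simp [parT]; linear_combination (-c) * hG
  · simp [parT]; linear_combination (-1 : ℂ) * hG
  · simp [parT]; linear_combination (-(u 1)) * hG
  · simp [parT] <;> ring
  · simp [parT] <;> ring
  · simp [parT] <;> ring

theorem parT_of_InK (z : Fin 12 → ℂ) (h : InK z) (h0 : z 8 = 1) :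
    GG (mono (fun j => z ((![11, 9, 6, 3] : Fin 4 → Fin 12) j)), z 4) = 0 ∧
      parT (z 4) (fun j => z ((![11, 9, 6, 3] : Fin 4 → Fin 12) j)) = z := by
  have ha : z 11 * z 6 + z 4 ^ 2 = z 1 := by
    have := h.t33; rw [h0] at this; linear_combination -this
  have hk : z 11 * z 1 + z 9 ^ 2 = z 10 := by
    have := h.t11; rw [h0] at this; linear_combination -this
  have hg : z 4 * z 9 - z 11 * z 3 = z 7 := by
    have := h.t13; rw [h0] at this; linear_combination this
  have hx : z 1 * z 6 - z 3 ^ 2 = z 0 := by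
    have := h.s22; rw [h0] at this; linear_combination this
  have hb : -(z 1 * z 4 + z 3 * z 9) = z 2 := by
    have := h.u12; rw [h0] at this; linear_combination -this
  have hf : -(z 3 * z 4 + z 6 * z 9) = z 5 := by
    have := h.u32; rw [h0] at this; linear_combination -this
  constructor
  · have h1 := h.u22
    rw [h0] at h1
    have h2 : GG (mono (fun j => z ((![11, 9, 6, 3] : Fin 4 → Fin 12) j)), z 4) =
        z 4 ^ 4 + 2 * (z 11 * z 6) * z 4 ^ 2 + (2 * (z 9 * z 3) - 1) * z 4 +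
          ((z 11 * z 6) ^ 2 - z 11 * z 3 ^ 2 + z 6 * z 9 ^ 2) := by
      simp [GG, mono]
    rw [h2]
    rw [← hb, ← hf, ← hx, ← ha] at h1
    linear_combination -h1
  · funext i
    fin_cases i <;> simp only [parT, Matrix.cons_val, Fin.zero_eta, Fin.mk_one, Fin.reduceFinMk,
      ha, hk, hg, hx, hb, hf, h0]

/-- A primitive cube root of unity. -/
noncomputable def rho : ℂ := ⟨-1 / 2, Real.sqrt 3 / 2⟩

theorem rho_eq : rho ^ 2 + rho + 1 = 0 := by
  have h3 : Real.sqrt 3 * Real.sqrt 3 = 3 := Real.mul_self_sqrt (by norm_num)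
  apply Complex.ext
  · simp [rho, pow_two]
    nlinarith
  · simp [rho, pow_two]
    ring

theorem rho_im : rho.im ≠ 0 := by
  simp [rho]

/-- The four roots of `c ^ 4 = c`. -/
noncomputable def root : Fin 4 → ℂ := ![0, 1, rho, -1 - rho]

theorem root_pow (i : Fin 4) : root i ^ 4 = root i := by
  fin_cases i
  · simp [root]
  · simp [root]
  · show rho ^ 4 = rho
    linear_combination (rho ^ 2 - rho) * rho_eq
  · show (-1 - rho) ^ 4 = -1 - rho
    linear_combination (rho ^ 2 + 3 * rho + 2) * rho_eq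

theorem root_complete {c : ℂ} (hc : c ^ 4 = c) : ∃ i, root i = c := by
  have h : c * ((c - 1) * ((c - rho) * (c - (-1 - rho)))) = 0 := by
    linear_combination hc + (c - c ^ 2) * rho_eq
  rcases mul_eq_zero.1 h with h | h
  · exact ⟨0, h.symm⟩
  rcases mul_eq_zero.1 h with h | h
  · exact ⟨1, (sub_eq_zero.1 h).symm⟩
  rcases mul_eq_zero.1 h with h | h
  · exact ⟨2, (sub_eq_zero.1 h).symm⟩
  · exact ⟨3, (sub_eq_zero.1 h).symm⟩

theorem root_injective : Function.Injective root := by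
  have him := rho_im
  have h1 : rho ≠ 0 := fun h => him (by rw [h]; rfl)
  have h2 : rho ≠ 1 := fun h => him (by rw [h]; rfl)
  have h3 : -1 - rho ≠ 0 := fun h => him (by
    have := congrArg Complex.im h
    simpa using this)
  have h4 : -1 - rho ≠ 1 := fun h => him (by
    have := congrArg Complex.im h
    simpa using this)
  have h5 : -1 - rho ≠ rho := fun h => him (by
    have := congrArg Complex.im h
    simp at this
    linarith)
  intro i j hij
  fin_cases i <;> fin_cases j <;> simp [root] at hij ⊢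
  all_goals first
    | exact h1 hij
    | exact h1 hij.symm
    | exact h2 hij
    | exact h2 hij.symm
    | exact h3 hij
    | exact h3 hij.symm
    | exact h4 hij
    | exact h4 hij.symm
    | exact h5 hij
    | exact h5 hij.symm

/-- The implicit function for a root. -/
noncomputable def kap (i : Fin 4) : (Fin 4 → ℂ) → ℂ := (exists_tube (root_pow i)).choose

/-- The size of the tube. -/
noncomputable def eps (i : Fin 4) : ℝ := (exists_tube (root_pow i)).choose_spec.choose

/-- The size of the range of the implicit function. -/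
noncomputable def del (i : Fin 4) : ℝ := (exists_tube (root_pow i)).choose_spec.choose_spec.choose

theorem tube_spec (i : Fin 4) : 0 < eps i ∧ 0 < del i ∧
      (∀ n : Fin 4 → ℂ, ‖n‖ < eps i → ContDiffAt ℂ ω (kap i) n) ∧
      (∀ n : Fin 4 → ℂ, ‖n‖ < eps i → ‖kap i n - root i‖ < del i ∧ GG (n, kap i n) = 0) ∧
      (∀ (n : Fin 4 → ℂ) (c : ℂ), ‖n‖ < eps i → ‖c - root i‖ < del i → GG (n, c) = 0 →
        c = kap i n) :=
  (exists_tube (root_pow i)).choose_spec.choose_spec.choose_spec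

theorem parT_contDiff : ContDiff ℂ ω (fun p : ℂ × (Fin 4 → ℂ) => parT p.1 p.2) := by
  refine contDiff_pi.2 fun i => ?_
  fin_cases i <;> simp [parT] <;> fun_prop

/-- The tube charts. -/
noncomputable def cdT (i : Fin 4) : CD where
  piv := 8
  free := ![11, 9, 6, 3]
  O := {u | ‖mono u‖ < eps i}
  Q := {z | ‖mono (fun j => z ((![11, 9, 6, 3] : Fin 4 → Fin 12) j))‖ < eps i ∧
    ‖z 4 - root i‖ < del i}
  par u := parT (kap i (mono u)) u
  isOpen_O := isOpen_lt (mono_contDiff.continuous.norm) continuous_const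
  isOpen_Q := by
    refine IsOpen.inter ?_ ?_
    · refine isOpen_lt ((mono_contDiff.continuous.comp ?_).norm) continuous_const
      exact continuous_pi fun j => continuous_apply _
    · exact isOpen_lt ((continuous_apply 4).sub continuous_const).norm continuous_const
  par_contDiffOn := by
    have h1 : ContDiffOn ℂ ω (fun u => kap i (mono u)) {u | ‖mono u‖ < eps i} := by
      intro u hu
      exact (((tube_spec i).2.2.1 (mono u) hu).comp u mono_contDiff.contDiffAt).contDiffWithinAt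
    exact parT_contDiff.comp_contDiffOn (h1.prodMk contDiffOn_id)
  par_piv u _ := by simp [parT]
  par_free u _ j := by fin_cases j <;> simp [parT]
  par_K u hu := parT_K ((tube_spec i).2.2.2.1 (mono u) hu).2
  par_Q u hu := by
    have h1 : (fun j => parT (kap i (mono u)) u ((![11, 9, 6, 3] : Fin 4 → Fin 12) j)) = u := by
      funext j
      fin_cases j <;> simp [parT]
    constructor
    · rw [h1]
      exact hu
    · have : parT (kap i (mono u)) u 4 = kap i (mono u) := by simp [parT]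
      rw [this]
      exact ((tube_spec i).2.2.2.1 (mono u) hu).1
  complete z hz h1 hQ := by
    obtain ⟨h2, h3⟩ := parT_of_InK z hz h1
    refine ⟨hQ.1, ?_⟩
    rw [← (tube_spec i).2.2.2.2 _ _ hQ.1 hQ.2 h2]
    exact h3

end Pool.Agent.Helper45
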