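import Mathlib

/-!
A smooth linear section `V` of the Lagrangian Grassmannian `LG(3,6)`, as a topological space:
the points are the rank one projections `z z^* / |z|^2` for `z` in the cone.
-/

namespace Pool.Agent.Helper45

open Complex Topology

/-- The affine cone over the section. Coordinates:
`z 0 = x0`, `z 11 = y0`, `S = [[z1,z2,z3],[z2,z4,z5],[z3,z5,z6]]`,
`Y = [[z1,z4,z7],[z4,z8,z9],[z7,z9,z10]]`; the equations are
`adj S = x0 Y`, `adj Y = y0 S`, `S Y = x0 y0 I`. -/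
structure InK (z : Fin 12 → ℂ) : Prop where
  s11 : z 4 * z 6 - z 5 ^ 2 = z 0 * z 1
  s22 : z 1 * z 6 - z 3 ^ 2 = z 0 * z 8
  s33 : z 1 * z 4 - z 2 ^ 2 = z 0 * z 10
  s12 : z 3 * z 5 - z 2 * z 6 = z 0 * z 4
  s13 : z 2 * z 5 - z 3 * z 4 = z 0 * z 7
  s23 : z 2 * z 3 - z 1 * z 5 = z 0 * z 9
  t11 : z 8 * z 10 - z 9 ^ 2 = z 11 * z 1
  t22 : z 1 * z 10 - z 7 ^ 2 = z 11 * z 4
  t33 : z 1 * z 8 - z 4 ^ 2 = z 11 * z 6
  t12 : z 7 * z 9 - z 4 * z 10 = z 11 * z 2
  t13 : z 4 * z 9 - z 7 * z 8 = z 11 * z 3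
  t23 : z 4 * z 7 - z 1 * z 9 = z 11 * z 5
  u11 : z 1 * z 1 + z 2 * z 4 + z 3 * z 7 = z 0 * z 11
  u12 : z 1 * z 4 + z 2 * z 8 + z 3 * z 9 = 0
  u13 : z 1 * z 7 + z 2 * z 9 + z 3 * z 10 = 0
  u21 : z 2 * z 1 + z 4 * z 4 + z 5 * z 7 = 0
  u22 : z 2 * z 4 + z 4 * z 8 + z 5 * z 9 = z 0 * z 11
  u23 : z 2 * z 7 + z 4 * z 9 + z 5 * z 10 = 0
  u31 : z 3 * z 1 + z 5 * z 4 + z 6 * z 7 = 0
  u32 : z 3 * z 4 + z 5 * z 8 + z 6 * z 9 = 0
  u33 : z 3 * z 7 + z 5 * z 9 + z 6 * z 10 = z 0 * z 11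

theorem InK.smul {z : Fin 12 → ℂ} (h : InK z) (c : ℂ) : InK (fun i => c * z i) where
  s11 := by linear_combination c ^ 2 * h.s11
  s22 := by linear_combination c ^ 2 * h.s22
  s33 := by linear_combination c ^ 2 * h.s33
  s12 := by linear_combination c ^ 2 * h.s12
  s13 := by linear_combination c ^ 2 * h.s13
  s23 := by linear_combination c ^ 2 * h.s23
  t11 := by linear_combination c ^ 2 * h.t11
  t22 := by linear_combination c ^ 2 * h.t22
  t33 := by linear_combination c ^ 2 * h.t33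
  t12 := by linear_combination c ^ 2 * h.t12
  t13 := by linear_combination c ^ 2 * h.t13
  t23 := by linear_combination c ^ 2 * h.t23
  u11 := by linear_combination c ^ 2 * h.u11
  u12 := by linear_combination c ^ 2 * h.u12
  u13 := by linear_combination c ^ 2 * h.u13
  u21 := by linear_combination c ^ 2 * h.u21
  u22 := by linear_combination c ^ 2 * h.u22
  u23 := by linear_combination c ^ 2 * h.u23
  u31 := by linear_combination c ^ 2 * h.u31
  u32 := by linear_combination c ^ 2 * h.u32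
  u33 := by linear_combination c ^ 2 * h.u33

theorem isClosed_InK : IsClosed {z : Fin 12 → ℂ | InK z} := by
  have h : {z : Fin 12 → ℂ | InK z} =
      {z | z 4 * z 6 - z 5 ^ 2 = z 0 * z 1} ∩ ({z | z 1 * z 6 - z 3 ^ 2 = z 0 * z 8} ∩
      ({z | z 1 * z 4 - z 2 ^ 2 = z 0 * z 10} ∩ ({z | z 3 * z 5 - z 2 * z 6 = z 0 * z 4} ∩
      ({z | z 2 * z 5 - z 3 * z 4 = z 0 * z 7} ∩ ({z | z 2 * z 3 - z 1 * z 5 = z 0 * z 9} ∩
      ({z | z 8 * z 10 - z 9 ^ 2 = z 11 * z 1} ∩ ({z | z 1 * z 10 - z 7 ^ 2 = z 11 * z 4} ∩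
      ({z | z 1 * z 8 - z 4 ^ 2 = z 11 * z 6} ∩ ({z | z 7 * z 9 - z 4 * z 10 = z 11 * z 2} ∩
      ({z | z 4 * z 9 - z 7 * z 8 = z 11 * z 3} ∩ ({z | z 4 * z 7 - z 1 * z 9 = z 11 * z 5} ∩
      ({z | z 1 * z 1 + z 2 * z 4 + z 3 * z 7 = z 0 * z 11} ∩
      ({z | z 1 * z 4 + z 2 * z 8 + z 3 * z 9 = 0} ∩
      ({z | z 1 * z 7 + z 2 * z 9 + z 3 * z 10 = 0} ∩
      ({z | z 2 * z 1 + z 4 * z 4 + z 5 * z 7 = 0} ∩
      ({z | z 2 * z 4 + z 4 * z 8 + z 5 * z 9 = z 0 * z 11} ∩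
      ({z | z 2 * z 7 + z 4 * z 9 + z 5 * z 10 = 0} ∩
      ({z | z 3 * z 1 + z 5 * z 4 + z 6 * z 7 = 0} ∩
      ({z | z 3 * z 4 + z 5 * z 8 + z 6 * z 9 = 0} ∩
      ({z | z 3 * z 7 + z 5 * z 9 + z 6 * z 10 = z 0 * z 11})))))))))))))))))))) := by
    ext z
    simp only [Set.mem_ofPred_eq, Set.mem_inter_iff]
    constructor
    · rintro ⟨h1, h2, h3, h4, h5, h6, h7, h8, h9, h10, h11, h12, h13, h14, h15, h16, h17, h18,
        h19, h20, h21⟩
      exact ⟨h1, h2, h3, h4, h5, h6, h7, h8, h9, h10, h11, h12, h13, h14, h15, h16, h17, h18,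
        h19, h20, h21⟩
    · rintro ⟨h1, h2, h3, h4, h5, h6, h7, h8, h9, h10, h11, h12, h13, h14, h15, h16, h17, h18,
        h19, h20, h21⟩
      exact ⟨h1, h2, h3, h4, h5, h6, h7, h8, h9, h10, h11, h12, h13, h14, h15, h16, h17, h18,
        h19, h20, h21⟩
  rw [h]
  repeat' apply IsClosed.inter
  all_goals exact isClosed_eq (by fun_prop) (by fun_prop)

/-- The squared norm. -/
noncomputable def nrm (z : Fin 12 → ℂ) : ℝ := ∑ k, normSq (z k)

theorem nrm_nonneg (z : Fin 12 → ℂ) : 0 ≤ nrm z := Finset.sum_nonneg fun _ _ => normSq_nonneg _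

theorem nrm_pos {z : Fin 12 → ℂ} (hz : z ≠ 0) : 0 < nrm z := by
  obtain ⟨i, hi⟩ := Function.ne_iff.1 hz
  exact Finset.sum_pos' (fun _ _ => normSq_nonneg _)
    ⟨i, Finset.mem_univ _, normSq_pos.2 hi⟩

theorem nrm_smul (c : ℂ) (z : Fin 12 → ℂ) : nrm (fun i => c * z i) = normSq c * nrm z := by
  unfold nrm
  rw [Finset.mul_sum]
  exact Finset.sum_congr rfl fun k _ => normSq_mul _ _

theorem continuous_nrm : Continuous nrm := by
  unfold nrm
  exact continuous_finsetSum _ fun i _ => continuous_normSq.comp (continuous_apply i)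

/-- The projection onto the line spanned by `z`. -/
noncomputable def PP (z : Fin 12 → ℂ) : Fin 12 → Fin 12 → ℂ :=
  fun i j => z i * (starRingEnd ℂ) (z j) / (nrm z : ℂ)

theorem PP_smul {c : ℂ} (hc : c ≠ 0) (z : Fin 12 → ℂ) : PP (fun i => c * z i) = PP z := by
  funext i j
  unfold PP
  rw [nrm_smul, map_mul]
  have h1 : (c * z i * ((starRingEnd ℂ) c * (starRingEnd ℂ) (z j))) =
      (normSq c : ℂ) * (z i * (starRingEnd ℂ) (z j)) := by
    rw [← mul_conj]; ring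
  rw [h1, ofReal_mul, mul_div_mul_left]
  rw [Ne, ofReal_eq_zero, normSq_eq_zero]
  exact hc

theorem PP_diag_ne_zero {z : Fin 12 → ℂ} {i : Fin 12} (hz : z i ≠ 0) : PP z i i ≠ 0 := by
  have hz' : z ≠ 0 := fun h => hz (by rw [h]; rfl)
  unfold PP
  rw [mul_conj]
  refine div_ne_zero ?_ ?_
  · rw [Ne, ofReal_eq_zero, normSq_eq_zero]
    exact hz
  · rw [Ne, ofReal_eq_zero]
    exact (nrm_pos hz').ne'

theorem ne_zero_of_PP_diag {z : Fin 12 → ℂ} {i : Fin 12} (h : PP z i i ≠ 0) : z i ≠ 0 := by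
  intro h0
  apply h
  unfold PP
  rw [h0, zero_mul, zero_div]

theorem PP_ratio {z : Fin 12 → ℂ} {i : Fin 12} (hz : z i ≠ 0) (j : Fin 12) :
    PP z j i / PP z i i = z j / z i := by
  have hz' : z ≠ 0 := fun h => hz (by rw [h]; rfl)
  have h1 : (nrm z : ℂ) ≠ 0 := by
    rw [Ne, ofReal_eq_zero]
    exact (nrm_pos hz').ne'
  have h2 : (starRingEnd ℂ) (z i) ≠ 0 := by
    rw [Ne, map_eq_zero]
    exact hz
  unfold PP
  field_simp

/-- The variety. -/
def VV : Type := {M : Fin 12 → Fin 12 → ℂ // ∃ z, z ≠ 0 ∧ InK z ∧ M = PP z}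

noncomputable instance : TopologicalSpace VV := instTopologicalSpaceSubtype

instance : T2Space VV := inferInstanceAs
  (T2Space {M : Fin 12 → Fin 12 → ℂ // ∃ z, z ≠ 0 ∧ InK z ∧ M = PP z})

instance : SecondCountableTopology VV := inferInstanceAs
  (SecondCountableTopology {M : Fin 12 → Fin 12 → ℂ // ∃ z, z ≠ 0 ∧ InK z ∧ M = PP z})

theorem continuousOn_PP : ContinuousOn PP {z | z ≠ 0} := by
  refine continuousOn_pi.2 fun i => continuousOn_pi.2 fun j => ?_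
  unfold PP
  refine ContinuousOn.div ?_ ?_ ?_
  · exact ((continuous_apply i).mul (continuous_conj.comp (continuous_apply j))).continuousOn
  · exact (continuous_ofReal.comp continuous_nrm).continuousOn
  · intro z hz
    rw [Ne, ofReal_eq_zero]
    exact (nrm_pos hz).ne'

theorem isCompact_image : IsCompact {M : Fin 12 → Fin 12 → ℂ | ∃ z, z ≠ 0 ∧ InK z ∧ M = PP z} := by
  have hcomp : IsCompact {z : Fin 12 → ℂ | nrm z = 1 ∧ InK z} := by
    refine Metric.isCompact_of_isClosed_isBounded ?_ ?_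
    · exact (isClosed_eq continuous_nrm continuous_const).inter isClosed_InK
    · refine (Metric.isBounded_closedBall (x := (0 : Fin 12 → ℂ)) (r := 1)).subset ?_
      rintro z ⟨hz, -⟩
      rw [mem_closedBall_zero_iff, pi_norm_le_iff_of_nonneg zero_le_one]
      intro i
      have h1 : normSq (z i) ≤ nrm z :=
        Finset.single_le_sum (f := fun k => normSq (z k)) (fun _ _ => normSq_nonneg _)
          (Finset.mem_univ i)
      rw [hz, normSq_eq_norm_sq] at h1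
      nlinarith [norm_nonneg (z i)]
  have himg : {M : Fin 12 → Fin 12 → ℂ | ∃ z, z ≠ 0 ∧ InK z ∧ M = PP z} =
      PP '' {z : Fin 12 → ℂ | nrm z = 1 ∧ InK z} := by
    ext M
    constructor
    · rintro ⟨z, hz, hK, rfl⟩
      have hpos := nrm_pos hz
      have hc : ((Real.sqrt (nrm z))⁻¹ : ℂ) ≠ 0 := by
        rw [Ne, inv_eq_zero, ofReal_eq_zero]
        exact (Real.sqrt_pos.2 hpos).ne'
      refine ⟨fun i => ((Real.sqrt (nrm z))⁻¹ : ℂ) * z i, ⟨?_, hK.smul _⟩, PP_smul hc z⟩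
      rw [nrm_smul, map_inv₀, normSq_ofReal, Real.mul_self_sqrt hpos.le, inv_mul_cancel₀ hpos.ne']
    · rintro ⟨z, ⟨hz, hK⟩, rfl⟩
      refine ⟨z, ?_, hK, rfl⟩
      rintro rfl
      simp [nrm] at hz
  rw [himg]
  refine hcomp.image_of_continuousOn (continuousOn_PP.mono ?_)
  rintro z ⟨hz, -⟩ rfl
  simp [nrm] at hz

instance : CompactSpace VV := isCompact_iff_compactSpace.1 isCompact_image

/-- The point of `VV` given by a nonzero vector of the cone. -/
noncomputable def mkV (z : Fin 12 → ℂ) (hz : z ≠ 0) (hK : InK z) : VV := ⟨PP z, z, hz, hK, rfl⟩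

theorem VV_exists (p : VV) : ∃ (z : Fin 12 → ℂ) (hz : z ≠ 0) (hK : InK z), p = mkV z hz hK := by
  obtain ⟨M, z, hz, hK, rfl⟩ := p
  exact ⟨z, hz, hK, rfl⟩

/-- Coordinates normalised at a pivot. -/
noncomputable def crd (i : Fin 12) (p : VV) : Fin 12 → ℂ := fun j => p.1 j i / p.1 i i

theorem crd_mkV {z : Fin 12 → ℂ} {hz : z ≠ 0} {hK : InK z} {i : Fin 12} (hi : z i ≠ 0)
    (j : Fin 12) : crd i (mkV z hz hK) j = z j / z i := PP_ratio hi j

theorem diag_mkV_ne_zero {z : Fin 12 → ℂ} {hz : z ≠ 0} {hK : InK z} {i : Fin 12} :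
    (mkV z hz hK).1 i i ≠ 0 ↔ z i ≠ 0 :=
  ⟨ne_zero_of_PP_diag, PP_diag_ne_zero⟩

theorem exists_normalised {p : VV} {i : Fin 12} (hp : p.1 i i ≠ 0) :
    InK (crd i p) ∧ crd i p i = 1 ∧ ∃ (hz : crd i p ≠ 0) (hK : InK (crd i p)),
      p = mkV (crd i p) hz hK := by
  obtain ⟨z, hz, hK, rfl⟩ := VV_exists p
  have hi : z i ≠ 0 := diag_mkV_ne_zero.1 hp
  have h1 : crd i (mkV z hz hK) = fun j => (z i)⁻¹ * z j := by
    funext j
    rw [crd_mkV hi, div_eq_inv_mul]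
  have h2 : InK (crd i (mkV z hz hK)) := by
    rw [h1]
    exact hK.smul _
  have h3 : crd i (mkV z hz hK) i = 1 := by
    rw [crd_mkV hi, div_self hi]
  have h4 : crd i (mkV z hz hK) ≠ 0 := by
    intro h
    rw [h] at h3
    exact zero_ne_one h3
  refine ⟨h2, h3, h4, h2, ?_⟩
  apply Subtype.ext
  show PP z = PP (crd i (mkV z hz hK))
  rw [h1, PP_smul (inv_ne_zero hi)]

theorem continuousOn_crd (i : Fin 12) : ContinuousOn (crd i) {p : VV | p.1 i i ≠ 0} := by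
  refine continuousOn_pi.2 fun j => ?_
  unfold crd
  refine ContinuousOn.div ?_ ?_ (fun p hp => hp)
  · exact ((continuous_apply i).comp ((continuous_apply j).comp
      continuous_subtype_val)).continuousOn
  · exact ((continuous_apply i).comp ((continuous_apply i).comp
      continuous_subtype_val)).continuousOn

theorem isOpen_diag (i : Fin 12) : IsOpen {p : VV | p.1 i i ≠ 0} :=
  isOpen_ne.preimage ((continuous_apply i).comp ((continuous_apply i).comp continuous_subtype_val))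

end Pool.Agent.Helper45
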