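import Pool.Agent.Helper45.SmallChains

/-!
Reduced homology of subsets of a space (by hand) and Mayer-Vietoris.
-/

namespace Pool.Agent.Helper45

open Set

section Hom

variable {X : Type} [TopologicalSpace X]

/-- Cycles supported in `U`. -/
noncomputable def Zc (U : Set X) : ∀ n, Submodule ℚ ((sing X).Ch n)
  | 0 => CU U 0
  | (n + 1) => CU U (n + 1) ⊓ LinearMap.ker ((sing X).bd n)

/-- Boundaries of chains supported in `U`. -/
noncomputable def Bc (U : Set X) (n : ℕ) : Submodule ℚ ((sing X).Ch n) :=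
  (CU U (n + 1)).map ((sing X).bd n)

theorem Zc_le_CU (U : Set X) (n : ℕ) : Zc U n ≤ CU U n := by
  cases n with
  | zero => exact le_rfl
  | succ n => exact inf_le_left

theorem mem_Zc_succ {U : Set X} {n : ℕ} {x : (sing X).Ch (n + 1)} :
    x ∈ Zc U (n + 1) ↔ x ∈ CU U (n + 1) ∧ (sing X).bd n x = 0 := Iff.rfl

theorem mem_Bc {U : Set X} {n : ℕ} {x : (sing X).Ch n} :
    x ∈ Bc U n ↔ ∃ y ∈ CU U (n + 1), (sing X).bd n y = x := Iff.rfl

theorem Bc_le_Zc (U : Set X) (n : ℕ) : Bc U n ≤ Zc U n := by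
  rintro _ ⟨y, hy, rfl⟩
  cases n with
  | zero => exact bd_mem_CU hy
  | succ n => exact ⟨bd_mem_CU hy, FaceSys.bd_bd _ _ _⟩

theorem Bc_mono {U V : Set X} (h : U ⊆ V) (n : ℕ) : Bc U n ≤ Bc V n :=
  Submodule.map_mono (CU_mono h (n + 1))

theorem Zc_mono {U V : Set X} (h : U ⊆ V) (n : ℕ) : Zc U n ≤ Zc V n := by
  cases n with
  | zero => exact CU_mono h 0
  | succ n => exact inf_le_inf_right _ (CU_mono h (n + 1))

/-- A chain of a smaller subset that is a cycle is a cycle there. -/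
theorem mem_Zc_of_mem {U V : Set X} {n : ℕ} {x : (sing X).Ch n} (hx : x ∈ CU U n)
    (h : x ∈ Zc V n) : x ∈ Zc U n := by
  cases n with
  | zero => exact hx
  | succ n => exact ⟨hx, h.2⟩

theorem Zc_inter (U V : Set X) (n : ℕ) : Zc (U ∩ V) n = Zc U n ⊓ Zc V n := by
  cases n with
  | zero => exact CU_inter U V 0
  | succ n =>
    show CU (U ∩ V) (n + 1) ⊓ _ = (CU U (n + 1) ⊓ _) ⊓ (CU V (n + 1) ⊓ _)
    rw [CU_inter]
    ext x
    simp only [Submodule.mem_inf]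
    tauto

/-- Acyclicity of `U` in index `n`. -/
def Acyc (U : Set X) (n : ℕ) : Prop := Zc U n ≤ Bc U n

/-- The homology of `U` in index `n` (reduced homology in degree `n - 1`). -/
abbrev HH (U : Set X) (n : ℕ) : Type := ↥(Zc U n) ⧸ (Bc U n).submoduleOf (Zc U n)

/-- The rank of the homology. -/
noncomputable def hr (U : Set X) (n : ℕ) : Cardinal := Module.rank ℚ (HH U n)

theorem acyc_iff (U : Set X) (n : ℕ) : Acyc U n ↔ hr U n = 0 := by
  unfold hr
  rw [rank_zero_iff]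
  constructor
  · intro h
    rw [Submodule.Quotient.subsingleton_iff, Submodule.submoduleOf_eq_top]
    exact h
  · intro h
    rw [Submodule.Quotient.subsingleton_iff, Submodule.submoduleOf_eq_top] at h
    exact h

/-- One subdivision changes a cycle by a boundary. -/
theorem sub_SD_mem {N : ∀ n, Submodule ℚ ((sing X).Ch n)}
    (hH : ∀ n, ∀ x ∈ N n, HT n x ∈ N (n + 1)) {n : ℕ} {z : (sing X).Ch n} (hz : z ∈ N n)
    (hc : z ∈ Zc univ n) : z - SD n z ∈ (N (n + 1)).map ((sing X).bd n) := by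
  cases n with
  | zero =>
    rw [SD_zero, sub_self]
    exact Submodule.zero_mem _
  | succ n =>
    have h1 := bd_HT n z
    rw [hc.2, map_zero, add_zero] at h1
    rw [← h1]
    exact ⟨_, hH _ _ hz, rfl⟩

theorem SD_mem_Zc {U : Set X} {n : ℕ} {z : (sing X).Ch n} (hz : z ∈ Zc U n) :
    SD n z ∈ Zc U n := by
  cases n with
  | zero => exact SD_mem_CU hz
  | succ n =>
    refine mem_Zc_succ.2 ⟨SD_mem_CU hz.1, ?_⟩
    rw [bd_SD, (mem_Zc_succ.1 hz).2, map_zero]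

theorem sub_SD_iterate_mem {N : ∀ n, Submodule ℚ ((sing X).Ch n)}
    (hH : ∀ n, ∀ x ∈ N n, HT n x ∈ N (n + 1)) (hS : ∀ n, ∀ x ∈ N n, SD n x ∈ N n)
    {n : ℕ} {z : (sing X).Ch n} (hz : z ∈ N n)
    (hc : z ∈ Zc univ n) (k : ℕ) :
    z - (⇑(SD n))^[k] z ∈ (N (n + 1)).map ((sing X).bd n) := by
  induction k generalizing z with
  | zero =>
    rw [Function.iterate_zero, id, sub_self]
    exact Submodule.zero_mem _
  | succ k ih =>
    rw [Function.iterate_succ_apply]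
    have h1 := sub_SD_mem hH hz hc
    have h2 := ih (hS n z hz) (SD_mem_Zc hc)
    have := Submodule.add_mem _ h1 h2
    rwa [sub_add_sub_cancel] at this

/-- The chains subordinate to `U, V`. -/
noncomputable def NN (U V : Set X) (n : ℕ) : Submodule ℚ ((sing X).Ch n) := CU U n ⊔ CU V n

theorem NN_le (U V : Set X) (n : ℕ) : NN U V n ≤ CU (U ∪ V) n :=
  sup_le (CU_mono subset_union_left n) (CU_mono subset_union_right n)

theorem HT_mem_NN {U V : Set X} (n : ℕ) (x : (sing X).Ch n) (hx : x ∈ NN U V n) :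
    HT n x ∈ NN U V (n + 1) := by
  obtain ⟨a, ha, b, hb, rfl⟩ := Submodule.mem_sup.1 hx
  rw [map_add]
  exact Submodule.add_mem _ (Submodule.mem_sup_left (HT_mem_CU ha))
    (Submodule.mem_sup_right (HT_mem_CU hb))

theorem SD_mem_NN {U V : Set X} (n : ℕ) (x : (sing X).Ch n) (hx : x ∈ NN U V n) :
    SD n x ∈ NN U V n := by
  obtain ⟨a, ha, b, hb, rfl⟩ := Submodule.mem_sup.1 hx
  rw [map_add]
  exact Submodule.add_mem _ (Submodule.mem_sup_left (SD_mem_CU ha))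
    (Submodule.mem_sup_right (SD_mem_CU hb))

theorem SD_iterate_mem_Zc {U : Set X} {n : ℕ} {z : (sing X).Ch n} (hz : z ∈ Zc U n) (k : ℕ) :
    (⇑(SD n))^[k] z ∈ Zc U n := by
  induction k generalizing z with
  | zero => exact hz
  | succ k ih =>
    rw [Function.iterate_succ_apply]
    exact ih (SD_mem_Zc hz)

theorem bd_SD_iterate (n : ℕ) (x : (sing X).Ch (n + 1)) (k : ℕ) :
    (sing X).bd n ((⇑(SD (n + 1)))^[k] x) = (⇑(SD n))^[k] ((sing X).bd n x) := by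
  induction k generalizing x with
  | zero => rfl
  | succ k ih =>
    rw [Function.iterate_succ_apply, ih, bd_SD, Function.iterate_succ_apply]

/-- Every cycle in the union is homologous to a subordinate cycle. -/
theorem exists_small_cycle {U V : Set X} (hU : IsOpen U) (hV : IsOpen V) {n : ℕ}
    {z : (sing X).Ch n} (hz : z ∈ Zc (U ∪ V) n) :
    ∃ z' ∈ NN U V n, z' ∈ Zc (U ∪ V) n ∧ z - z' ∈ Bc (U ∪ V) n := by
  obtain ⟨k, hk⟩ := small_chains hU hV n z (Zc_le_CU _ _ hz)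
  refine ⟨_, hk, SD_iterate_mem_Zc hz k, ?_⟩
  exact sub_SD_iterate_mem (N := CU (U ∪ V)) (fun n x hx => HT_mem_CU hx)
    (fun n x hx => SD_mem_CU hx) (Zc_le_CU _ _ hz) (Zc_mono (subset_univ _) n hz) k

/-- A subordinate boundary is the boundary of a subordinate chain. -/
theorem small_boundary {U V : Set X} (hU : IsOpen U) (hV : IsOpen V) {n : ℕ}
    {z : (sing X).Ch n} (hz : z ∈ NN U V n) (hb : z ∈ Bc (U ∪ V) n) :
    z ∈ (NN U V (n + 1)).map ((sing X).bd n) := by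
  have hc : z ∈ Zc univ n := Zc_mono (subset_univ _) n (Bc_le_Zc _ _ hb)
  obtain ⟨y, hy, rfl⟩ := hb
  obtain ⟨k, hk⟩ := small_chains hU hV (n + 1) y hy
  have h1 := sub_SD_iterate_mem (N := NN U V) HT_mem_NN SD_mem_NN hz hc k
  rw [← bd_SD_iterate] at h1
  have h2 : (sing X).bd n ((⇑(SD (n + 1)))^[k] y) ∈ (NN U V (n + 1)).map ((sing X).bd n) :=
    ⟨_, hk, rfl⟩
  have := Submodule.add_mem _ h1 h2
  rwa [sub_add_cancel] at this

/-- Injectivity of `H(U) → H(U ∪ V)`. -/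
theorem mv_inj {U V : Set X} (hU : IsOpen U) (hV : IsOpen V) {n : ℕ}
    (hR : Acyc (U ∩ V) n) {p : (sing X).Ch n} (hp : p ∈ Zc U n) (hb : p ∈ Bc (U ∪ V) n) :
    p ∈ Bc U n := by
  obtain ⟨c, hc, hcp⟩ := small_boundary hU hV
    (Submodule.mem_sup_left (Zc_le_CU _ _ hp)) hb
  obtain ⟨a, ha, b, hb', rfl⟩ := Submodule.mem_sup.1 hc
  have h1 : p - (sing X).bd n a = (sing X).bd n b := by
    rw [← hcp, map_add]; abel
  have h2 : p - (sing X).bd n a ∈ Zc (U ∩ V) n := by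
    rw [Zc_inter]
    refine ⟨Submodule.sub_mem _ hp (Bc_le_Zc _ _ ⟨a, ha, rfl⟩), ?_⟩
    rw [h1]
    exact Bc_le_Zc _ _ ⟨b, hb', rfl⟩
  have h3 := Bc_mono inter_subset_left n (hR h2)
  have := Submodule.add_mem _ h3 (⟨a, ha, rfl⟩ : (sing X).bd n a ∈ Bc U n)
  rwa [sub_add_cancel] at this

/-- Surjectivity of `H(U) → H(U ∪ V)` in index zero. -/
theorem mv_surj_zero {U V : Set X} (hU : IsOpen U) (hV : IsOpen V)
    (hVa : Acyc V 0) {z : (sing X).Ch 0} (hz : z ∈ Zc (U ∪ V) 0) :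
    ∃ p ∈ Zc U 0, z - p ∈ Bc (U ∪ V) 0 := by
  obtain ⟨z', hz', -, hb⟩ := exists_small_cycle hU hV hz
  obtain ⟨a, ha, b, hb', rfl⟩ := Submodule.mem_sup.1 hz'
  refine ⟨a, ha, ?_⟩
  have h1 := Bc_mono (subset_union_right (s := U)) 0 (hVa hb')
  have := Submodule.add_mem _ hb h1
  rwa [sub_add_eq_sub_sub, sub_add_cancel] at this

/-- Surjectivity of `H(U) → H(U ∪ V)`. -/
theorem mv_surj {U V : Set X} (hU : IsOpen U) (hV : IsOpen V) {n : ℕ}
    (hVa : Acyc V (n + 1)) (hR : Acyc (U ∩ V) n) {z : (sing X).Ch (n + 1)}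
    (hz : z ∈ Zc (U ∪ V) (n + 1)) :
    ∃ p ∈ Zc U (n + 1), z - p ∈ Bc (U ∪ V) (n + 1) := by
  obtain ⟨z', hz', hc, hb⟩ := exists_small_cycle hU hV hz
  obtain ⟨a, ha, b, hb', rfl⟩ := Submodule.mem_sup.1 hz'
  have hc2 : (sing X).bd n a + (sing X).bd n b = 0 := by
    rw [← map_add]; exact hc.2
  have h1 : (sing X).bd n a ∈ Zc (U ∩ V) n := by
    rw [Zc_inter]
    refine ⟨Bc_le_Zc _ _ ⟨a, ha, rfl⟩, ?_⟩
    rw [eq_neg_of_add_eq_zero_left hc2]
    exact Submodule.neg_mem _ (Bc_le_Zc _ _ ⟨b, hb', rfl⟩)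
  obtain ⟨r, hr, hra⟩ := hR h1
  rw [SetLike.mem_coe, CU_inter] at hr
  refine ⟨a - r, mem_Zc_succ.2 ⟨Submodule.sub_mem _ ha hr.1, ?_⟩, ?_⟩
  · rw [map_sub, hra, sub_self]
  · have h2 : b + r ∈ Zc V (n + 1) := by
      refine mem_Zc_succ.2 ⟨Submodule.add_mem _ hb' hr.2, ?_⟩
      rw [map_add, hra, add_comm]
      exact hc2
    have h3 := Bc_mono (subset_union_right (s := U)) (n + 1) (hVa h2)
    have := Submodule.add_mem _ hb h3
    have e : z - (a + b) + (b + r) = z - (a - r) := by abel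
    rwa [e] at this

/-- The map on homology induced by an inclusion. -/
noncomputable def incH {U W : Set X} (h : U ⊆ W) (n : ℕ) : HH U n →ₗ[ℚ] HH W n :=
  Submodule.mapQ _ _ (Submodule.inclusion (Zc_mono h n)) (by
    rintro ⟨x, hx⟩ hb
    exact Bc_mono h n hb)

theorem incH_mk {U W : Set X} (h : U ⊆ W) (n : ℕ) (x : Zc U n) :
    incH h n (Submodule.Quotient.mk x) =
      Submodule.Quotient.mk ⟨x.1, Zc_mono h n x.2⟩ := rfl

theorem mk_eq_mk_iff {U : Set X} {n : ℕ} (x y : Zc U n) :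
    (Submodule.Quotient.mk x : HH U n) = Submodule.Quotient.mk y ↔ x.1 - y.1 ∈ Bc U n := by
  rw [Submodule.Quotient.eq]
  rfl

theorem mk_eq_zero_iff {U : Set X} {n : ℕ} (x : Zc U n) :
    (Submodule.Quotient.mk x : HH U n) = 0 ↔ x.1 ∈ Bc U n := by
  rw [Submodule.Quotient.mk_eq_zero]
  rfl

theorem hr_eq_of_surj_inj {U W : Set X} (h : U ⊆ W) (n : ℕ)
    (hs : ∀ z ∈ Zc W n, ∃ p ∈ Zc U n, z - p ∈ Bc W n)
    (hi : ∀ p ∈ Zc U n, p ∈ Bc W n → p ∈ Bc U n) : hr W n = hr U n := by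
  refine (LinearEquiv.rank_eq (LinearEquiv.ofBijective (incH h n) ⟨?_, ?_⟩)).symm
  · rw [injective_iff_map_eq_zero]
    intro a ha
    obtain ⟨x, rfl⟩ := Submodule.Quotient.mk_surjective _ a
    rw [incH_mk, mk_eq_zero_iff] at ha
    rw [mk_eq_zero_iff]
    exact hi _ x.2 ha
  · intro a
    obtain ⟨z, rfl⟩ := Submodule.Quotient.mk_surjective _ a
    obtain ⟨p, hp, hb⟩ := hs z.1 z.2
    refine ⟨Submodule.Quotient.mk ⟨p, hp⟩, ?_⟩
    rw [incH_mk, mk_eq_mk_iff]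
    have := Submodule.neg_mem _ hb
    rwa [neg_sub] at this

theorem hr_union_zero {U V : Set X} (hU : IsOpen U) (hV : IsOpen V)
    (hVa : Acyc V 0) (hR : Acyc (U ∩ V) 0) : hr (U ∪ V) 0 = hr U 0 :=
  hr_eq_of_surj_inj subset_union_left 0 (fun _ hz => mv_surj_zero hU hV hVa hz)
    (fun _ hp hb => mv_inj hU hV hR hp hb)

theorem hr_union_succ {U V : Set X} (hU : IsOpen U) (hV : IsOpen V) {n : ℕ}
    (hVa : Acyc V (n + 1)) (hR : Acyc (U ∩ V) n) (hR' : Acyc (U ∩ V) (n + 1)) :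
    hr (U ∪ V) (n + 1) = hr U (n + 1) :=
  hr_eq_of_surj_inj subset_union_left (n + 1) (fun _ hz => mv_surj hU hV hVa hR hz)
    (fun _ hp hb => mv_inj hU hV hR' hp hb)

/-- If `H(U)` and `H(V)` vanish and the intersection is acyclic one index lower, then the union
is acyclic. -/
theorem acyc_union_succ {U V : Set X} (hU : IsOpen U) (hV : IsOpen V) {n : ℕ}
    (hUa : Acyc U (n + 1)) (hVa : Acyc V (n + 1)) (hR : Acyc (U ∩ V) n) :
    Acyc (U ∪ V) (n + 1) := by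
  intro z hz
  obtain ⟨p, hp, hb⟩ := mv_surj hU hV hVa hR hz
  have h1 := Bc_mono (subset_union_left (t := V)) (n + 1) (hUa hp)
  have := Submodule.add_mem _ hb h1
  rwa [sub_add_cancel] at this

theorem acyc_union_zero {U V : Set X} (hU : IsOpen U) (hV : IsOpen V)
    (hUa : Acyc U 0) (hVa : Acyc V 0) : Acyc (U ∪ V) 0 := by
  intro z hz
  obtain ⟨p, hp, hb⟩ := mv_surj_zero hU hV hVa hz
  have h1 := Bc_mono (subset_union_left (t := V)) 0 (hUa hp)
  have := Submodule.add_mem _ hb h1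
  rwa [sub_add_cancel] at this

end Hom

/-- Linear algebra behind the connecting homomorphism. -/
theorem rank_of_correspondence {E H A B : Type} [AddCommGroup E] [Module ℚ E]
    [AddCommGroup H] [Module ℚ H] [AddCommGroup A] [Module ℚ A] [AddCommGroup B] [Module ℚ B]
    (α : E →ₗ[ℚ] H) (β : E →ₗ[ℚ] B) (γ : A →ₗ[ℚ] H)
    (hα : Function.Surjective α) (hβ : Function.Surjective β) (hγ : Function.Injective γ)
    (h1 : ∀ e a, α e = γ a → β e = 0) (h2 : ∀ e, β e = 0 → ∃ a, γ a = α e) :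
    Module.rank ℚ H = Module.rank ℚ A + Module.rank ℚ B := by
  have hk : LinearMap.ker α ≤ LinearMap.ker β := by
    intro e he
    rw [LinearMap.mem_ker] at he ⊢
    exact h1 e 0 (by rw [he, map_zero])
  let δ : H →ₗ[ℚ] B := ((LinearMap.ker α).liftQ β hk) ∘ₗ
    (α.quotKerEquivOfSurjective hα).symm.toLinearMap
  have hδ : ∀ e, δ (α e) = β e := by
    intro e
    have : (α.quotKerEquivOfSurjective hα).symm (α e) = Submodule.Quotient.mk e := by
      rw [LinearEquiv.symm_apply_eq]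
      rfl
    show ((LinearMap.ker α).liftQ β hk) ((α.quotKerEquivOfSurjective hα).symm (α e)) = β e
    rw [this]
    rfl
  have hδs : Function.Surjective δ := by
    intro b
    obtain ⟨e, rfl⟩ := hβ b
    exact ⟨α e, hδ e⟩
  have hker : LinearMap.ker δ = LinearMap.range γ := by
    ext x
    obtain ⟨e, rfl⟩ := hα x
    rw [LinearMap.mem_ker, hδ]
    constructor
    · intro h
      obtain ⟨a, ha⟩ := h2 e h
      exact ⟨a, ha⟩
    · rintro ⟨a, ha⟩
      exact h1 e a ha.symm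
  have h3 := LinearMap.rank_range_add_rank_ker δ
  rw [LinearMap.range_eq_top.2 hδs, rank_top, hker,
    ← LinearEquiv.rank_eq (LinearEquiv.ofInjective γ hγ)] at h3
  rw [← h3, add_comm]

section Connecting

variable {X : Type} [TopologicalSpace X]

/-- Pairs of chains whose sum is a cycle. -/
noncomputable def EE (U V : Set X) (n : ℕ) :
    Submodule ℚ ((sing X).Ch (n + 1) × (sing X).Ch (n + 1)) :=
  (CU U (n + 1)).prod (CU V (n + 1)) ⊓
    LinearMap.ker (((sing X).bd n) ∘ₗ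
      (LinearMap.fst ℚ ((sing X).Ch (n + 1)) ((sing X).Ch (n + 1)) +
        LinearMap.snd ℚ ((sing X).Ch (n + 1)) ((sing X).Ch (n + 1))))

theorem mem_EE {U V : Set X} {n : ℕ} {e : (sing X).Ch (n + 1) × (sing X).Ch (n + 1)} :
    e ∈ EE U V n ↔ (e.1 ∈ CU U (n + 1) ∧ e.2 ∈ CU V (n + 1)) ∧
      (sing X).bd n (e.1 + e.2) = 0 := Iff.rfl

theorem EE_bd_mem {U V : Set X} {n : ℕ} {e : (sing X).Ch (n + 1) × (sing X).Ch (n + 1)}
    (he : e ∈ EE U V n) : (sing X).bd n e.1 ∈ Zc (U ∩ V) n := by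
  obtain ⟨⟨h1, h2⟩, h3⟩ := mem_EE.1 he
  rw [map_add] at h3
  rw [Zc_inter]
  refine ⟨Bc_le_Zc _ _ ⟨_, h1, rfl⟩, ?_⟩
  rw [eq_neg_of_add_eq_zero_left h3]
  exact Submodule.neg_mem _ (Bc_le_Zc _ _ ⟨_, h2, rfl⟩)

/-- `(p, q) ↦ [p + q]`. -/
noncomputable def αE (U V : Set X) (n : ℕ) : EE U V n →ₗ[ℚ] HH (U ∪ V) (n + 1) :=
  (Submodule.mkQ _) ∘ₗ
    (LinearMap.codRestrict (Zc (U ∪ V) (n + 1))
      ((LinearMap.fst ℚ ((sing X).Ch (n + 1)) ((sing X).Ch (n + 1)) +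
        LinearMap.snd ℚ ((sing X).Ch (n + 1)) ((sing X).Ch (n + 1))) ∘ₗ (EE U V n).subtype)
      (fun e => ⟨Submodule.add_mem _ (CU_mono subset_union_left _ e.2.1.1)
        (CU_mono subset_union_right _ e.2.1.2), e.2.2⟩))

/-- `(p, q) ↦ [∂ p]`. -/
noncomputable def βE (U V : Set X) (n : ℕ) : EE U V n →ₗ[ℚ] HH (U ∩ V) n :=
  (Submodule.mkQ _) ∘ₗ
    (LinearMap.codRestrict (Zc (U ∩ V) n)
      (((sing X).bd n) ∘ₗ (LinearMap.fst ℚ ((sing X).Ch (n + 1)) ((sing X).Ch (n + 1))) ∘ₗ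
        (EE U V n).subtype)
      (fun e => EE_bd_mem e.2))

theorem αE_apply (U V : Set X) (n : ℕ) (e : EE U V n) (h : e.1.1 + e.1.2 ∈ Zc (U ∪ V) (n + 1)) :
    αE U V n e = Submodule.Quotient.mk ⟨e.1.1 + e.1.2, h⟩ := rfl

theorem βE_apply (U V : Set X) (n : ℕ) (e : EE U V n) :
    βE U V n e = Submodule.Quotient.mk ⟨(sing X).bd n e.1.1, EE_bd_mem e.2⟩ := rfl

/-- The Mayer-Vietoris rank formula around the index where the intersection has homology. -/
theorem hr_union_connect {U V : Set X} (hU : IsOpen U) (hV : IsOpen V) {n : ℕ}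
    (hVa : Acyc V (n + 1)) (hVa' : Acyc V n) (hUa' : Acyc U n)
    (hi : ∀ p ∈ Zc U (n + 1), p ∈ Bc (U ∪ V) (n + 1) → p ∈ Bc U (n + 1)) :
    hr (U ∪ V) (n + 1) = hr U (n + 1) + hr (U ∩ V) n := by
  refine rank_of_correspondence (αE U V n) (βE U V n) (incH subset_union_left (n + 1))
    ?_ ?_ ?_ ?_ ?_
  · intro a
    obtain ⟨z, rfl⟩ := Submodule.Quotient.mk_surjective _ a
    obtain ⟨z', hz', hc, hb⟩ := exists_small_cycle hU hV z.2
    obtain ⟨a, ha, b, hb', rfl⟩ := Submodule.mem_sup.1 hz'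
    refine ⟨⟨(a, b), ⟨⟨ha, hb'⟩, hc.2⟩⟩, ?_⟩
    rw [αE_apply _ _ _ _ hc, mk_eq_mk_iff]
    have := Submodule.neg_mem _ hb
    rwa [neg_sub] at this
  · intro a
    obtain ⟨r, rfl⟩ := Submodule.Quotient.mk_surjective _ a
    have hr1 : r.1 ∈ Zc U n ⊓ Zc V n := by
      rw [← Zc_inter]
      exact r.2
    obtain ⟨p, hp, hpr⟩ := hUa' hr1.1
    obtain ⟨q, hq, hqr⟩ := hVa' hr1.2
    refine ⟨⟨(p, -q), ⟨⟨hp, Submodule.neg_mem _ hq⟩, ?_⟩⟩, ?_⟩
    · show (sing X).bd n (p + -q) = 0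
      rw [map_add, map_neg, hpr, hqr, add_neg_cancel]
    · rw [βE_apply, mk_eq_mk_iff]
      show (sing X).bd n p - r.1 ∈ _
      rw [hpr, sub_self]
      exact Submodule.zero_mem _
  · rw [injective_iff_map_eq_zero]
    intro a ha
    obtain ⟨x, rfl⟩ := Submodule.Quotient.mk_surjective _ a
    rw [incH_mk, mk_eq_zero_iff] at ha
    rw [mk_eq_zero_iff]
    exact hi _ x.2 ha
  · intro e a hea
    obtain ⟨u, rfl⟩ := Submodule.Quotient.mk_surjective _ a
    have hc : e.1.1 + e.1.2 ∈ Zc (U ∪ V) (n + 1) :=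
      ⟨Submodule.add_mem _ (CU_mono subset_union_left _ e.2.1.1)
        (CU_mono subset_union_right _ e.2.1.2), e.2.2⟩
    rw [αE_apply _ _ _ _ hc, incH_mk, mk_eq_mk_iff] at hea
    have hsm : e.1.1 + e.1.2 - u.1 ∈ NN U V (n + 1) := by
      have e1 : e.1.1 + e.1.2 - u.1 = (e.1.1 - u.1) + e.1.2 := by abel
      rw [e1]
      exact Submodule.add_mem _
        (Submodule.mem_sup_left (Submodule.sub_mem _ e.2.1.1 (Zc_le_CU _ _ u.2)))
        (Submodule.mem_sup_right e.2.1.2)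
    obtain ⟨c, hc', hcb⟩ := small_boundary hU hV hsm hea
    obtain ⟨a', ha', b', hb', rfl⟩ := Submodule.mem_sup.1 hc'
    rw [βE_apply, mk_eq_zero_iff]
    refine ⟨e.1.1 - u.1 - (sing X).bd (n + 1) a', ?_, ?_⟩
    · rw [SetLike.mem_coe, CU_inter]
      refine ⟨Submodule.sub_mem _ (Submodule.sub_mem _ e.2.1.1 (Zc_le_CU _ _ u.2))
        (bd_mem_CU ha'), ?_⟩
      have e2 : e.1.1 - u.1 - (sing X).bd (n + 1) a' =
          (sing X).bd (n + 1) b' - e.1.2 := by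
        rw [map_add] at hcb
        have : (sing X).bd (n + 1) b' = e.1.1 + e.1.2 - u.1 - (sing X).bd (n + 1) a' := by
          rw [← hcb]; abel
        rw [this]; abel
      rw [e2]
      exact Submodule.sub_mem _ (bd_mem_CU hb') e.2.1.2
    · rw [map_sub, map_sub, FaceSys.bd_bd, u.2.2, sub_zero, sub_zero]
  · intro e he
    rw [βE_apply, mk_eq_zero_iff] at he
    obtain ⟨r, hr, hre⟩ := he
    rw [SetLike.mem_coe, CU_inter] at hr
    have hc : e.1.1 + e.1.2 ∈ Zc (U ∪ V) (n + 1) :=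
      ⟨Submodule.add_mem _ (CU_mono subset_union_left _ e.2.1.1)
        (CU_mono subset_union_right _ e.2.1.2), e.2.2⟩
    have h1 : e.1.1 - r ∈ Zc U (n + 1) := by
      refine mem_Zc_succ.2 ⟨Submodule.sub_mem _ e.2.1.1 hr.1, ?_⟩
      rw [map_sub, hre, sub_self]
    have h2 : e.1.2 + r ∈ Zc V (n + 1) := by
      refine mem_Zc_succ.2 ⟨Submodule.add_mem _ e.2.1.2 hr.2, ?_⟩
      rw [map_add, hre, add_comm, ← map_add]
      exact e.2.2
    refine ⟨Submodule.Quotient.mk ⟨e.1.1 - r, h1⟩, ?_⟩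
    rw [αE_apply _ _ _ _ hc, incH_mk, mk_eq_mk_iff]
    have h3 := Submodule.neg_mem _ (Bc_mono (subset_union_right (s := U)) (n + 1) (hVa h2))
    have e3 : e.1.1 - r - (e.1.1 + e.1.2) = -(e.1.2 + r) := by abel
    show e.1.1 - r - (e.1.1 + e.1.2) ∈ _
    rw [e3]
    exact h3

end Connecting

end Pool.Agent.Helper45
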