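import Pool.Agent.Helper45.HomotopyInv

/-!
Homology of contractible spaces and of punctured real vector spaces.
-/

namespace Pool.Agent.Helper45

open Set

section Point

theorem mkS_unit_eq {n : ℕ} (σ τ : (sing Unit).K n) : σ = τ := by
  have : unS σ = unS τ := by
    ext t
  exact this

/-- The cone operator on a point. -/
noncomputable def conePt (n : ℕ) : (sing Unit).Ch n →ₗ[ℚ] (sing Unit).Ch (n + 1) :=
  Finsupp.lmapDomain ℚ ℚ (fun _ => mkS (ContinuousMap.const _ ()))

theorem conePt_single (n : ℕ) (σ : (sing Unit).K n) (a : ℚ) :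
    conePt n (Finsupp.single σ a) = Finsupp.single (mkS (ContinuousMap.const _ ())) a := by
  simp only [conePt, Finsupp.lmapDomain_apply]
  exact Finsupp.mapDomain_single

theorem bd_conePt_zero (x : (sing Unit).Ch 0) : (sing Unit).bd 0 (conePt 0 x) = x := by
  have : (sing Unit).bd 0 ∘ₗ conePt 0 = LinearMap.id := by
    apply ch_ext
    intro w
    rw [LinearMap.comp_apply, conePt_single, FaceSys.bd_single, Fin.sum_univ_succ,
      Finset.univ_eq_empty, Finset.sum_empty, add_zero, Fin.val_zero, pow_zero,
      one_smul, LinearMap.id_apply,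
      mkS_unit_eq ((sing Unit).face 0 0 (mkS (ContinuousMap.const _ ()))) w]
  exact LinearMap.congr_fun this x

theorem bd_conePt_succ (n : ℕ) (x : (sing Unit).Ch (n + 1)) :
    (sing Unit).bd (n + 1) (conePt (n + 1) x) = x - conePt n ((sing Unit).bd n x) := by
  have : (sing Unit).bd (n + 1) ∘ₗ conePt (n + 1) =
      LinearMap.id - conePt n ∘ₗ (sing Unit).bd n := by
    apply ch_ext
    intro w
    rw [LinearMap.comp_apply, conePt_single, FaceSys.bd_single, Fin.sum_univ_succ]
    rw [LinearMap.sub_apply, LinearMap.comp_apply, FaceSys.bd_single, map_sum, LinearMap.id_apply]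
    rw [mkS_unit_eq ((sing Unit).face (n + 1) 0 (mkS (ContinuousMap.const _ ()))) w]
    simp only [Fin.val_zero, pow_zero, one_smul]
    rw [sub_eq_add_neg, ← Finset.sum_neg_distrib]
    congr 1
    refine Finset.sum_congr rfl fun i _ => ?_
    rw [mkS_unit_eq ((sing Unit).face (n + 1) i.succ (mkS (ContinuousMap.const _ ())))
      (mkS (ContinuousMap.const _ ())), map_smul, conePt_single, Fin.val_succ, pow_succ,
      mul_neg_one, neg_smul]
  exact LinearMap.congr_fun this x

theorem acyc_unit (n : ℕ) : Acyc (univ : Set Unit) n := by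
  intro z hz
  have hmem : ∀ m (x : (sing Unit).Ch m), x ∈ CU (univ : Set Unit) m := by
    intro m x
    simp [CU]
  cases n with
  | zero => exact ⟨conePt 0 z, hmem _ _, bd_conePt_zero z⟩
  | succ n =>
    refine ⟨conePt (n + 1) z, hmem _ _, ?_⟩
    rw [bd_conePt_succ, (mem_Zc_succ.1 hz).2, map_zero, sub_zero]

end Point

section Contractible

variable {X Y : Type} [TopologicalSpace X] [TopologicalSpace Y]

theorem acyc_of_contractible [ContractibleSpace X] (n : ℕ) : Acyc (univ : Set X) n := by
  obtain ⟨e⟩ := ContractibleSpace.hequiv_unit X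
  rw [acyc_iff, hr_eq_of_homotopyEquiv e n, ← acyc_iff]
  exact acyc_unit n

theorem hr_coe (A : Set X) (n : ℕ) : hr A n = hr (univ : Set A) n := by
  have := hr_image (i := (Subtype.val : A → X)) Topology.IsEmbedding.subtypeVal
    (univ : Set A) n
  rw [← this, image_univ, Subtype.range_coe]

theorem hr_eq_of_subtype_equiv {A : Set X} {B : Set Y}
    (e : ContinuousMap.HomotopyEquiv A B) (n : ℕ) : hr A n = hr B n := by
  rw [hr_coe A, hr_coe B]
  exact hr_eq_of_homotopyEquiv e n

theorem acyc_coe {A : Set X} (h : ContractibleSpace A) (n : ℕ) : Acyc A n := by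
  rw [acyc_iff, hr_coe, ← acyc_iff]
  exact acyc_of_contractible n

/-- Star-shaped sets are acyclic. -/
theorem acyc_of_star {E : Type} [AddCommGroup E] [Module ℝ E] [TopologicalSpace E]
    [IsTopologicalAddGroup E] [ContinuousSMul ℝ E] {A : Set E} {x : E} (hx : x ∈ A)
    (h : StarConvex ℝ x A) (n : ℕ) : Acyc A n :=
  acyc_coe (h.contractibleSpace ⟨x, hx⟩) n

end Contractible

section Punctured

variable {X : Type} [TopologicalSpace X]

theorem isEmpty_Sp0 : IsEmpty (Sp 0) := ⟨fun t => absurd t.2.2 (by simp)⟩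

theorem CU_zero_eq_top (U : Set X) : CU U 0 = ⊤ := by
  have := isEmpty_Sp0
  unfold CU
  have h : {σ : (sing X).K 0 | range (unS σ) ⊆ U} = univ := by
    ext σ
    simp [range_eq_empty]
  rw [h]
  exact Finsupp.supported_univ

theorem CU_empty_succ (n : ℕ) : CU (∅ : Set X) (n + 1) = ⊥ := by
  unfold CU
  have h : {σ : (sing X).K (n + 1) | range (unS σ) ⊆ (∅ : Set X)} = ∅ := by
    ext σ
    simp only [Set.mem_ofPred_eq, mem_empty_iff_false, iff_false]
    intro hσ
    exact hσ ⟨stdSimplex.vertex 0, rfl⟩
  rw [h]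
  exact Finsupp.supported_empty

theorem hr_empty_zero : hr (∅ : Set X) 0 = 1 := by
  have hB : (Bc (∅ : Set X) 0).submoduleOf (Zc ∅ 0) = ⊥ := by
    have : Bc (∅ : Set X) 0 = ⊥ := by
      unfold Bc
      rw [CU_empty_succ, Submodule.map_bot]
    rw [this, Submodule.submoduleOf, Submodule.comap_bot, Submodule.ker_subtype]
  unfold hr
  rw [(Submodule.quotEquivOfEqBot _ hB).rank_eq]
  have hZ : Zc (∅ : Set X) 0 = ⊤ := CU_zero_eq_top _
  rw [hZ, rank_top, rank_finsupp_self]
  have := isEmpty_Sp0
  have hu : Unique ((sing X).K 0) :=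
    { default := mkS ⟨fun t => (isEmptyElim t : X), continuous_of_const (fun t => isEmptyElim t)⟩
      uniq := by
        intro σ
        have : unS σ = unS (mkS ⟨fun t => (isEmptyElim t : X),
          continuous_of_const (fun t => isEmptyElim t)⟩) := by
          ext t
          exact isEmptyElim t
        exact this }
  simp

theorem acyc_empty_succ (n : ℕ) : Acyc (∅ : Set X) (n + 1) := by
  intro z hz
  have h := Zc_le_CU _ _ hz
  rw [CU_empty_succ] at h
  rw [(Submodule.mem_bot ℚ).1 h]
  exact Submodule.zero_mem _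

/-- Real space minus the origin. -/
def Pn (k : ℕ) : Set (Fin k → ℝ) := {x | x ≠ 0}

/-- One half of the cover. -/
def Ug (k : ℕ) (s : ℝ) : Set (Fin (k + 1) → ℝ) := {x | 0 < s * x 0 ∨ Fin.tail x ≠ 0}

theorem continuous_tail (k : ℕ) : Continuous (fun x : Fin (k + 1) → ℝ => Fin.tail x) :=
  continuous_pi fun i => continuous_apply i.succ

theorem isOpen_Ug (k : ℕ) (s : ℝ) : IsOpen (Ug k s) := by
  refine IsOpen.union ?_ ?_
  · exact isOpen_lt continuous_const (continuous_const.mul (continuous_apply 0))
  · exact isOpen_ne.preimage (continuous_tail k)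

theorem acyc_Ug (k : ℕ) {s : ℝ} (hs : s ≠ 0) (n : ℕ) : Acyc (Ug k s) n := by
  refine acyc_of_star (x := Fin.cons s 0) ?_ ?_ n
  · left
    rw [Fin.cons_zero]
    exact mul_self_pos.2 hs
  · intro x hx a b ha hb hab
    rcases hb.eq_or_lt with rfl | hb
    · left
      rw [add_zero] at hab
      rw [hab]
      simp only [one_smul, zero_smul, add_zero, Fin.cons_zero]
      exact mul_self_pos.2 hs
    · rcases hx with hx | hx
      · left
        simp only [Pi.add_apply, Pi.smul_apply, Fin.cons_zero, smul_eq_mul]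
        have h1 : 0 < s * s := mul_self_pos.2 hs
        have h2 : s * (a * s + b * x 0) = a * (s * s) + b * (s * x 0) := by ring
        rw [h2]
        have := mul_pos hb hx
        have := mul_nonneg ha h1.le
        linarith
      · right
        intro h
        apply hx
        funext i
        have := congrFun h i
        simp only [Fin.tail, Pi.add_apply, Pi.smul_apply, Fin.cons_succ, smul_eq_mul,
          Pi.zero_apply, mul_zero, zero_add, mul_eq_zero] at this
        rcases this with h' | h'
        · exact absurd h' hb.ne'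
        · exact h'

theorem Ug_union (k : ℕ) : Ug k 1 ∪ Ug k (-1) = Pn (k + 1) := by
  ext x
  simp only [Ug, Pn, mem_union, Set.mem_ofPred_eq, one_mul, neg_mul, ne_eq]
  constructor
  · rintro ((h | h) | (h | h)) h0
    · rw [h0] at h; simp at h
    · apply h; rw [h0]; rfl
    · rw [h0] at h; simp at h
    · apply h; rw [h0]; rfl
  · intro h
    by_cases ht : Fin.tail x = 0
    · have hx : x 0 ≠ 0 := by
        intro h0
        apply h
        funext i
        refine Fin.cases ?_ (fun i => ?_) i
        · exact h0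
        · exact congrFun ht i
      rcases lt_or_gt_of_ne hx with h1 | h1
      · right; left; linarith
      · left; left; exact h1
    · left; right; exact ht

theorem Ug_inter (k : ℕ) : Ug k 1 ∩ Ug k (-1) = {x | Fin.tail x ≠ 0} := by
  ext x
  simp only [Ug, mem_inter_iff, Set.mem_ofPred_eq, one_mul, neg_mul]
  constructor
  · rintro ⟨h1 | h1, h2 | h2⟩
    · linarith
    · exact h2
    · exact h1
    · exact h2
  · intro h
    exact ⟨Or.inr h, Or.inr h⟩

/-- Projection to the equator. -/
def eqTo (k : ℕ) : C(({x | Fin.tail x ≠ 0} : Set (Fin (k + 1) → ℝ)), Pn k) :=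
  ⟨fun x => ⟨Fin.tail x.1, x.2⟩,
    Continuous.subtype_mk ((continuous_tail k).comp continuous_subtype_val) _⟩

theorem tail_cons_ne (k : ℕ) (a : ℝ) {y : Fin k → ℝ} (hy : y ≠ 0) :
    (Fin.cons a y : Fin (k + 1) → ℝ) ∈ ({x | Fin.tail x ≠ 0} : Set (Fin (k + 1) → ℝ)) := by
  show Fin.tail (Fin.cons a y : Fin (k + 1) → ℝ) ≠ 0
  rw [Fin.tail_cons]
  exact hy

/-- Inclusion of the equator. -/
noncomputable def eqInv (k : ℕ) : C(Pn k, ({x | Fin.tail x ≠ 0} : Set (Fin (k + 1) → ℝ))) :=
  ⟨fun y => ⟨Fin.cons 0 y.1, tail_cons_ne k 0 y.2⟩, by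
    refine Continuous.subtype_mk ?_ _
    refine continuous_pi fun i => ?_
    refine Fin.cases ?_ (fun i => ?_) i
    · simp only [Fin.cons_zero]
      exact continuous_const
    · simp only [Fin.cons_succ]
      exact (continuous_apply i).comp continuous_subtype_val⟩

/-- The retraction homotopy. -/
noncomputable def eqHtpy (k : ℕ) :
    ((eqInv k).comp (eqTo k)).Homotopy (ContinuousMap.id _) where
  toFun := fun p => ⟨Fin.cons ((p.1 : ℝ) * p.2.1 0) (Fin.tail p.2.1),
    tail_cons_ne k _ p.2.2⟩
  continuous_toFun := by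
    refine Continuous.subtype_mk ?_ _
    refine continuous_pi fun i => ?_
    refine Fin.cases ?_ (fun i => ?_) i
    · simp only [Fin.cons_zero]
      exact (continuous_subtype_val.comp continuous_fst).mul
        ((continuous_apply 0).comp (continuous_subtype_val.comp continuous_snd))
    · simp only [Fin.cons_succ]
      exact (continuous_apply i.succ).comp (continuous_subtype_val.comp continuous_snd)
  map_zero_left := by
    intro x
    apply Subtype.ext
    funext i
    refine Fin.cases ?_ (fun i => ?_) i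
    · simp [eqInv]
    · simp [eqInv, eqTo]
  map_one_left := by
    intro x
    apply Subtype.ext
    funext i
    refine Fin.cases ?_ (fun i => ?_) i
    · simp
    · simp [Fin.tail]

theorem eqTo_comp_eqInv (k : ℕ) : (eqTo k).comp (eqInv k) = ContinuousMap.id _ := by
  ext1 y
  apply Subtype.ext
  funext i
  rfl

/-- The equator is a deformation retract. -/
noncomputable def equatorEquiv (k : ℕ) :
    ContinuousMap.HomotopyEquiv ({x | Fin.tail x ≠ 0} : Set (Fin (k + 1) → ℝ)) (Pn k) where
  toFun := eqTo k
  invFun := eqInv k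
  left_inv := ⟨eqHtpy k⟩
  right_inv := by rw [eqTo_comp_eqInv]

/-- The homology of a punctured real vector space. -/
theorem hr_Pn (k n : ℕ) : hr (Pn k) n = if n = k then 1 else 0 := by
  induction k generalizing n with
  | zero =>
    have h0 : Pn 0 = ∅ := by
      ext x
      simp only [Pn, Set.mem_ofPred_eq, mem_empty_iff_false, iff_false, not_not]
      exact Subsingleton.elim _ _
    rw [h0]
    cases n with
    | zero => rw [if_pos rfl]; exact hr_empty_zero
    | succ n =>
      rw [if_neg (Nat.succ_ne_zero n)]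
      exact (acyc_iff _ _).1 (acyc_empty_succ n)
  | succ k ih =>
    have h1 : (1 : ℝ) ≠ 0 := one_ne_zero
    have h2 : (-1 : ℝ) ≠ 0 := by norm_num
    rw [← Ug_union]
    cases n with
    | zero =>
      rw [if_neg (Nat.succ_ne_zero k).symm]
      exact (acyc_iff _ _).1
        (acyc_union_zero (isOpen_Ug k 1) (isOpen_Ug k (-1)) (acyc_Ug k h1 0) (acyc_Ug k h2 0))
    | succ n =>
      rw [hr_union_connect (isOpen_Ug k 1) (isOpen_Ug k (-1)) (acyc_Ug k h2 (n + 1))
        (acyc_Ug k h2 n) (acyc_Ug k h1 n) (fun p hp _ => acyc_Ug k h1 (n + 1) hp),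
        (acyc_iff _ _).1 (acyc_Ug k h1 (n + 1)), zero_add, Ug_inter,
        hr_eq_of_subtype_equiv (equatorEquiv k), ih]
      simp

end Punctured

end Pool.Agent.Helper45
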