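import Pool.Agent.Helper45.AffineChains

/-!
Singular chains (augmented, with rational coefficients) and barycentric subdivision.
-/

namespace Pool.Agent.Helper45

/-- The standard topological simplex with `n` vertices. -/
abbrev Sp (n : ℕ) : Type := stdSimplex ℝ (Fin n)

/-- Coordinates of a word. -/
def pt {K : Type} {n : ℕ} (w : (tup K).K n) (i : Fin n) : K := (w : Fin n → K) i

theorem pt_mapW {K L : Type} {n : ℕ} (f : K → L) (w : (tup K).K n) (i : Fin n) :
    pt (mapW f w) i = f (pt w i) := rfl

theorem pt_consW_zero {K : Type} {n : ℕ} (b : K) (w : (tup K).K n) :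
    pt (consW b w) 0 = b := rfl

theorem pt_consW_succ {K : Type} {n : ℕ} (b : K) (w : (tup K).K n) (i : Fin n) :
    pt (consW b w) i.succ = pt w i := rfl

theorem pt_face {K : Type} {n : ℕ} (w : (tup K).K (n + 1)) (i : Fin (n + 1)) (k : Fin n) :
    pt ((tup K).face n i w) k = pt w (i.succAbove k) := rfl

theorem word_ext {K : Type} {n : ℕ} {v w : (tup K).K n} (h : ∀ i, pt v i = pt w i) : v = w := by
  funext i
  exact h i

/-- The word of vertices. -/
def vtxW (n : ℕ) : (tup (Sp n)).K n := fun i : Fin n => stdSimplex.vertex i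

theorem pt_vtxW (n : ℕ) (i : Fin n) : pt (vtxW n) i = stdSimplex.vertex i := rfl

/-- The point with barycentric coordinates `t` with respect to a word. -/
noncomputable def comb {n m : ℕ} (w : (tup (Sp m)).K n) (t : Sp n) : Sp m :=
  ⟨fun j => ∑ i, t.1 i * (pt w i).1 j, by
    constructor
    · intro j
      exact Finset.sum_nonneg fun i _ => mul_nonneg (t.2.1 i) ((pt w i).2.1 j)
    · rw [Finset.sum_comm]
      have h : ∀ i : Fin n, ∑ j, t.1 i * (pt w i).1 j = t.1 i := by
        intro i
        rw [← Finset.mul_sum, (pt w i).2.2, mul_one]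
      rw [Finset.sum_congr rfl fun i _ => h i]
      exact t.2.2⟩

theorem comb_apply {n m : ℕ} (w : (tup (Sp m)).K n) (t : Sp n) (j : Fin m) :
    (comb w t).1 j = ∑ i, t.1 i * (pt w i).1 j := rfl

theorem continuous_comb {n m : ℕ} (w : (tup (Sp m)).K n) : Continuous (comb w) := by
  unfold comb
  refine Continuous.subtype_mk ?_ _
  refine continuous_pi fun j => ?_
  refine continuous_finsetSum _ fun i _ => ?_
  exact ((continuous_apply i).comp continuous_subtype_val).mul continuous_const

/-- `comb` as a continuous map. -/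
noncomputable def combC {n m : ℕ} (w : (tup (Sp m)).K n) : C(Sp n, Sp m) :=
  ⟨comb w, continuous_comb w⟩

theorem combC_apply {n m : ℕ} (w : (tup (Sp m)).K n) (t : Sp n) : combC w t = comb w t := rfl

theorem comb_vertex {n m : ℕ} (w : (tup (Sp m)).K n) (i : Fin n) :
    comb w (stdSimplex.vertex i) = pt w i := by
  apply Subtype.ext
  funext j
  rw [comb_apply]
  rw [Finset.sum_eq_single i]
  · simp
  · intro b _ hb
    simp [Pi.single_apply, hb]
  · intro h
    exact absurd (Finset.mem_univ _) h

theorem comb_vtxW {n : ℕ} (t : Sp n) : comb (vtxW n) t = t := by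
  apply Subtype.ext
  funext j
  rw [comb_apply]
  rw [Finset.sum_eq_single j]
  · simp [pt_vtxW]
  · intro b _ hb
    simp [pt_vtxW, Pi.single_apply, hb.symm]
  · intro h
    exact absurd (Finset.mem_univ _) h

theorem combC_vtxW (n : ℕ) : combC (vtxW n) = ContinuousMap.id _ := by
  ext1 t
  exact comb_vtxW t

theorem comb_comb {n m l : ℕ} (w : (tup (Sp l)).K m) (v : (tup (Sp m)).K n) (t : Sp n) :
    comb w (comb v t) = comb (mapW (combC w) v) t := by
  apply Subtype.ext
  funext j
  rw [comb_apply, comb_apply]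
  simp only [comb_apply, pt_mapW, combC_apply, Finset.sum_mul, Finset.mul_sum]
  rw [Finset.sum_comm]
  refine Finset.sum_congr rfl fun i _ => Finset.sum_congr rfl fun k _ => ?_
  ring

theorem combC_comp {n m l : ℕ} (w : (tup (Sp l)).K m) (v : (tup (Sp m)).K n) :
    (combC w).comp (combC v) = combC (mapW (combC w) v) := by
  ext1 t
  exact comb_comb w v t

theorem mapW_combC_vtxW {n m : ℕ} (w : (tup (Sp m)).K n) : mapW (combC w) (vtxW n) = w := by
  apply word_ext
  intro i
  rw [pt_mapW, pt_vtxW, combC_apply, comb_vertex]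

/-- The face inclusions of the standard simplices. -/
noncomputable def faceC (n : ℕ) (i : Fin (n + 1)) : C(Sp n, Sp (n + 1)) :=
  combC ((tup (Sp (n + 1))).face n i (vtxW (n + 1)))

theorem combC_comp_faceC {n m : ℕ} (w : (tup (Sp m)).K (n + 1)) (i : Fin (n + 1)) :
    (combC w).comp (faceC n i) = combC ((tup (Sp m)).face n i w) := by
  rw [faceC, combC_comp, ← face_mapW, mapW_combC_vtxW]

/-- The singular simplices of a space. -/
noncomputable def sing (X : Type) [TopologicalSpace X] : FaceSys where
  K n := C(Sp n, X)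
  face n i σ := σ.comp (faceC n i)
  comm n i j hij σ := by
    have h1 : (faceC (n + 1) j.succ).comp (faceC n i) =
        (faceC (n + 1) i.castSucc).comp (faceC n j) := by
      have a1 := combC_comp_faceC ((tup (Sp (n + 2))).face (n + 1) j.succ (vtxW (n + 2))) i
      have a2 := combC_comp_faceC ((tup (Sp (n + 2))).face (n + 1) i.castSucc (vtxW (n + 2))) j
      rw [(tup (Sp (n + 2))).comm n i j hij] at a1
      exact a1.trans a2.symm
    calc (σ.comp (faceC (n + 1) j.succ)).comp (faceC n i)
        = σ.comp ((faceC (n + 1) j.succ).comp (faceC n i)) := ContinuousMap.comp_assoc _ _ _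
      _ = σ.comp ((faceC (n + 1) i.castSucc).comp (faceC n j)) := by rw [h1]
      _ = (σ.comp (faceC (n + 1) i.castSucc)).comp (faceC n j) :=
          (ContinuousMap.comp_assoc _ _ _).symm

section Sing

variable {X : Type} [TopologicalSpace X]

/-- View a continuous map as a singular simplex. -/
def mkS {n : ℕ} (σ : C(Sp n, X)) : (sing X).K n := σ

/-- View a singular simplex as a continuous map. -/
def unS {n : ℕ} (σ : (sing X).K n) : C(Sp n, X) := σ

theorem unS_mkS {n : ℕ} (σ : C(Sp n, X)) : unS (mkS σ) = σ := rfl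

theorem mkS_unS {n : ℕ} (σ : (sing X).K n) : mkS (unS σ) = σ := rfl

theorem face_mkS {n : ℕ} (σ : C(Sp (n + 1), X)) (i : Fin (n + 1)) :
    (sing X).face n i (mkS σ) = mkS (σ.comp (faceC n i)) := rfl

/-- Affine chains in the standard simplex give singular chains. -/
noncomputable def push {m : ℕ} (σ : C(Sp m, X)) (n : ℕ) :
    (tup (Sp m)).Ch n →ₗ[ℚ] (sing X).Ch n :=
  Finsupp.lmapDomain ℚ ℚ (fun w => mkS (σ.comp (combC w)))

theorem push_single {m : ℕ} (σ : C(Sp m, X)) (n : ℕ) (w : (tup (Sp m)).K n) (a : ℚ) :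
    push σ n (Finsupp.single w a) = Finsupp.single (mkS (σ.comp (combC w))) a := by
  simp only [push, Finsupp.lmapDomain_apply]
  exact Finsupp.mapDomain_single

theorem push_bd {m : ℕ} (σ : C(Sp m, X)) (n : ℕ) (x : (tup (Sp m)).Ch (n + 1)) :
    push σ n ((tup (Sp m)).bd n x) = (sing X).bd n (push σ (n + 1) x) := by
  have : push σ n ∘ₗ (tup (Sp m)).bd n = (sing X).bd n ∘ₗ push σ (n + 1) := by
    apply ch_ext
    intro w
    rw [LinearMap.comp_apply, LinearMap.comp_apply, push_single, FaceSys.bd_single,
      FaceSys.bd_single, map_sum]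
    refine Finset.sum_congr rfl fun i _ => ?_
    rw [map_smul, push_single, face_mkS, ContinuousMap.comp_assoc, combC_comp_faceC]
  exact LinearMap.congr_fun this x

theorem push_comp {m l : ℕ} (σ : C(Sp l, X)) (v : (tup (Sp l)).K m) (n : ℕ)
    (x : (tup (Sp m)).Ch n) :
    push (σ.comp (combC v)) n x = push σ n (mapK (combC v) n x) := by
  have : push (σ.comp (combC v)) n = push σ n ∘ₗ mapK (combC v) n := by
    apply ch_ext
    intro w
    rw [LinearMap.comp_apply, mapK_single, push_single, push_single, ContinuousMap.comp_assoc,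
      combC_comp]
  exact LinearMap.congr_fun this x

theorem push_vtxW {n : ℕ} (σ : C(Sp n, X)) :
    push σ n (Finsupp.single (vtxW n) 1) = Finsupp.single (mkS σ) 1 := by
  rw [push_single, combC_vtxW, ContinuousMap.comp_id]

/-- Barycentric apex. -/
noncomputable def bary {m : ℕ} (n : ℕ) (w : (tup (Sp m)).K (n + 1)) : Sp m :=
  comb w stdSimplex.barycenter

theorem bary_nat {m l : ℕ} (v : (tup (Sp l)).K m) (n : ℕ) (w : (tup (Sp m)).K (n + 1)) :
    combC v (bary n w) = bary n (mapW (combC v) w) := by
  rw [bary, bary, combC_apply, comb_comb]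

/-- Barycentric subdivision of singular chains. -/
noncomputable def SD (n : ℕ) : (sing X).Ch n →ₗ[ℚ] (sing X).Ch n :=
  Finsupp.linearCombination ℚ
    (fun σ => push (unS σ) n (sub (fun k => bary k) n (Finsupp.single (vtxW n) 1)))

/-- The homotopy. -/
noncomputable def HT (n : ℕ) : (sing X).Ch n →ₗ[ℚ] (sing X).Ch (n + 1) :=
  Finsupp.linearCombination ℚ
    (fun σ => push (unS σ) (n + 1) (hmt (fun k => bary k) n (Finsupp.single (vtxW n) 1)))

theorem SD_single {n : ℕ} (σ : C(Sp n, X)) :
    SD n (Finsupp.single (mkS σ) 1) =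
      push σ n (sub (fun k => bary k) n (Finsupp.single (vtxW n) 1)) := by
  rw [SD, Finsupp.linearCombination_single, one_smul, unS_mkS]

theorem HT_single {n : ℕ} (σ : C(Sp n, X)) :
    HT n (Finsupp.single (mkS σ) 1) =
      push σ (n + 1) (hmt (fun k => bary k) n (Finsupp.single (vtxW n) 1)) := by
  rw [HT, Finsupp.linearCombination_single, one_smul, unS_mkS]

theorem SD_push {m : ℕ} (σ : C(Sp m, X)) (n : ℕ) (x : (tup (Sp m)).Ch n) :
    SD n (push σ n x) = push σ n (sub (fun k => bary k) n x) := by
  have : SD n ∘ₗ push σ n = push σ n ∘ₗ sub (fun k => bary k) n := by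
    apply ch_ext
    intro w
    rw [LinearMap.comp_apply, LinearMap.comp_apply, push_single, SD_single, push_comp,
      mapK_sub (fun k => bary k) (fun k => bary k) (combC w) (fun k v => bary_nat w k v),
      mapK_single, mapW_combC_vtxW]
  exact LinearMap.congr_fun this x

theorem HT_push {m : ℕ} (σ : C(Sp m, X)) (n : ℕ) (x : (tup (Sp m)).Ch n) :
    HT n (push σ n x) = push σ (n + 1) (hmt (fun k => bary k) n x) := by
  have : HT n ∘ₗ push σ n = push σ (n + 1) ∘ₗ hmt (fun k => bary k) n := by
    apply ch_ext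
    intro w
    rw [LinearMap.comp_apply, LinearMap.comp_apply, push_single, HT_single, push_comp,
      mapK_hmt (fun k => bary k) (fun k => bary k) (combC w) (fun k v => bary_nat w k v),
      mapK_single, mapW_combC_vtxW]
  exact LinearMap.congr_fun this x

theorem bd_SD (n : ℕ) (x : (sing X).Ch (n + 1)) :
    (sing X).bd n (SD (n + 1) x) = SD n ((sing X).bd n x) := by
  have : (sing X).bd n ∘ₗ SD (n + 1) = SD n ∘ₗ (sing X).bd n := by
    apply ch_ext
    intro σ
    rw [LinearMap.comp_apply, LinearMap.comp_apply]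
    rw [← mkS_unS σ]
    rw [SD_single, ← push_bd, bd_sub, ← SD_push, push_bd, push_vtxW]
  exact LinearMap.congr_fun this x

theorem bd_HT (n : ℕ) (x : (sing X).Ch (n + 1)) :
    (sing X).bd (n + 1) (HT (n + 1) x) + HT n ((sing X).bd n x) = x - SD (n + 1) x := by
  have : (sing X).bd (n + 1) ∘ₗ HT (n + 1) + HT n ∘ₗ (sing X).bd n =
      LinearMap.id - SD (n + 1) := by
    apply ch_ext
    intro σ
    simp only [LinearMap.add_apply, LinearMap.comp_apply, LinearMap.sub_apply,
      LinearMap.id_apply]
    rw [← mkS_unS σ]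
    rw [HT_single, ← push_bd]
    have h1 : (sing X).bd n (Finsupp.single (mkS (unS σ)) 1) =
        push (unS σ) n ((tup (Sp (n + 1))).bd n (Finsupp.single (vtxW (n + 1)) 1)) := by
      rw [push_bd, push_vtxW]
    rw [h1, HT_push, ← map_add, bd_hmt, map_sub, push_vtxW, SD_single]
  exact LinearMap.congr_fun this x

theorem SD_zero (x : (sing X).Ch 0) : SD 0 x = x := by
  have : SD (X := X) 0 = LinearMap.id := by
    apply ch_ext
    intro σ
    rw [← mkS_unS σ, SD_single, sub_zero', push_vtxW, LinearMap.id_apply]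
  exact LinearMap.congr_fun this x

theorem HT_zero (x : (sing X).Ch 0) : HT 0 x = 0 := by
  have : HT (X := X) 0 = 0 := by
    apply ch_ext
    intro σ
    rw [← mkS_unS σ, HT_single, hmt_zero', map_zero, LinearMap.zero_apply]
  exact LinearMap.congr_fun this x

end Sing

end Pool.Agent.Helper45
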