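import Pool.Agent.Helper45.SingularChains

/-!
The theorem of small chains: iterated barycentric subdivision makes every singular chain
subordinate to a cover by two open sets.
-/

namespace Pool.Agent.Helper45

open Set

section Metric

variable {m : ℕ}

/-- Pairwise distances of the vertices of a word are at most `δ`. -/
def Mesh {n : ℕ} (δ : ℝ) (w : (tup (Sp m)).K n) : Prop :=
  ∀ i j : Fin n, dist (pt w i) (pt w j) ≤ δ

theorem mesh_face {n : ℕ} {δ : ℝ} {w : (tup (Sp m)).K (n + 1)} (h : Mesh δ w)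
    (i : Fin (n + 1)) : Mesh δ ((tup (Sp m)).face n i w) := by
  intro a b
  rw [pt_face, pt_face]
  exact h _ _

theorem comb_sub_comb {n : ℕ} (w : (tup (Sp m)).K n) (s t : Sp n) :
    (comb w s).1 - (comb w t).1 =
      ∑ i, ∑ j, (s.1 i * t.1 j) • ((pt w i).1 - (pt w j).1) := by
  funext k
  simp only [Pi.sub_apply, Finset.sum_apply, Pi.smul_apply, smul_eq_mul, mul_sub,
    Finset.sum_sub_distrib, comb_apply]
  congr 1
  · refine Finset.sum_congr rfl fun i _ => ?_
    have : ∀ j, s.1 i * t.1 j * (pt w i).1 k = (s.1 i * (pt w i).1 k) * t.1 j := by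
      intro j; ring
    rw [Finset.sum_congr rfl fun j _ => this j, ← Finset.mul_sum, t.2.2, mul_one]
  · rw [Finset.sum_comm]
    refine Finset.sum_congr rfl fun j _ => ?_
    have : ∀ i, s.1 i * t.1 j * (pt w j).1 k = (t.1 j * (pt w j).1 k) * s.1 i := by
      intro i; ring
    rw [Finset.sum_congr rfl fun i _ => this i, ← Finset.mul_sum, s.2.2, mul_one]

theorem dist_comb_le {n : ℕ} {δ : ℝ} {w : (tup (Sp m)).K n} (h : Mesh δ w) (s t : Sp n) :
    dist (comb w s) (comb w t) ≤ δ := by
  rw [Subtype.dist_eq, dist_eq_norm, comb_sub_comb]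
  calc ‖∑ i, ∑ j, (s.1 i * t.1 j) • ((pt w i).1 - (pt w j).1)‖
      ≤ ∑ i, ∑ j, ‖(s.1 i * t.1 j) • ((pt w i).1 - (pt w j).1)‖ := by
        refine (norm_sum_le _ _).trans ?_
        refine Finset.sum_le_sum fun i _ => ?_
        exact norm_sum_le _ _
    _ ≤ ∑ i, ∑ j, (s.1 i * t.1 j) * δ := by
        refine Finset.sum_le_sum fun i _ => Finset.sum_le_sum fun j _ => ?_
        rw [norm_smul, Real.norm_of_nonneg (mul_nonneg (s.2.1 i) (t.2.1 j))]
        refine mul_le_mul_of_nonneg_left ?_ (mul_nonneg (s.2.1 i) (t.2.1 j))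
        have := h i j
        rwa [Subtype.dist_eq, dist_eq_norm] at this
    _ = δ := by
        have : ∀ i, ∑ j, (s.1 i * t.1 j) * δ = s.1 i * δ := by
          intro i
          have h2 : ∀ j, s.1 i * t.1 j * δ = (s.1 i * δ) * t.1 j := by intro j; ring
          rw [Finset.sum_congr rfl fun j _ => h2 j, ← Finset.mul_sum, t.2.2, mul_one]
        rw [Finset.sum_congr rfl fun i _ => this i, ← Finset.sum_mul, s.2.2, one_mul]

theorem dist_bary_le {n : ℕ} {δ : ℝ} {w : (tup (Sp m)).K (n + 1)} (h : Mesh δ w)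
    (t : Sp (n + 1)) :
    dist (bary n w) (comb w t) ≤ ((n : ℝ) / (n + 1)) * δ := by
  rw [bary, Subtype.dist_eq, dist_eq_norm, comb_sub_comb, Finset.sum_comm]
  have hb : ∀ i : Fin (n + 1), (stdSimplex.barycenter : Sp (n + 1)).1 i = 1 / ((n : ℝ) + 1) := by
    intro i
    rw [stdSimplex.barycenter_apply]
    simp
  have hn : (0 : ℝ) < (n : ℝ) + 1 := by positivity
  calc ‖∑ j, ∑ i, ((stdSimplex.barycenter : Sp (n + 1)).1 i * t.1 j) •
          ((pt w i).1 - (pt w j).1)‖
      ≤ ∑ j, ∑ i, ‖((stdSimplex.barycenter : Sp (n + 1)).1 i * t.1 j) •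
          ((pt w i).1 - (pt w j).1)‖ := by
        refine (norm_sum_le _ _).trans ?_
        refine Finset.sum_le_sum fun i _ => ?_
        exact norm_sum_le _ _
    _ ≤ ∑ j, t.1 j * (((n : ℝ) / (n + 1)) * δ) := by
        refine Finset.sum_le_sum fun j _ => ?_
        rw [← Finset.add_sum_erase _ _ (Finset.mem_univ j)]
        rw [sub_self, smul_zero, norm_zero, zero_add]
        have h1 : ∀ i ∈ Finset.univ.erase j,
            ‖((stdSimplex.barycenter : Sp (n + 1)).1 i * t.1 j) •
              ((pt w i).1 - (pt w j).1)‖ ≤ (1 / ((n : ℝ) + 1)) * t.1 j * δ := by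
          intro i _
          rw [hb, norm_smul, Real.norm_of_nonneg (mul_nonneg (by positivity) (t.2.1 j))]
          refine mul_le_mul_of_nonneg_left ?_ (mul_nonneg (by positivity) (t.2.1 j))
          have := h i j
          rwa [Subtype.dist_eq, dist_eq_norm] at this
        refine (Finset.sum_le_card_nsmul _ _ _ h1).trans (le_of_eq ?_)
        rw [Finset.card_erase_of_mem (Finset.mem_univ j), Finset.card_univ, Fintype.card_fin,
          nsmul_eq_mul]
        simp only [Nat.add_sub_cancel]
        field_simp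
    _ = ((n : ℝ) / (n + 1)) * δ := by
        rw [← Finset.sum_mul, t.2.2, one_mul]

theorem fine_mem_hull {n : ℕ} (w w' : (tup (Sp m)).K n)
    (h : Fine (fun k => bary k) n w w') (i : Fin n) : ∃ t : Sp n, pt w' i = comb w t := by
  induction n with
  | zero => exact i.elim0
  | succ n ih =>
    obtain ⟨a, v, hv, rfl⟩ := h
    refine Fin.cases ?_ (fun k => ?_) i
    · exact ⟨stdSimplex.barycenter, rfl⟩
    · obtain ⟨t, ht⟩ := ih ((tup (Sp m)).face n a w) v hv k
      refine ⟨faceC n a t, ?_⟩
      rw [pt_consW_succ, ht]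
      have := congrArg (fun f : C(Sp n, Sp m) => f t) (combC_comp_faceC w a)
      exact this.symm

theorem fine_mesh {n : ℕ} {δ : ℝ} (w w' : (tup (Sp m)).K (n + 1))
    (h : Fine (fun k => bary k) (n + 1) w w') (hw : Mesh δ w) :
    Mesh (((n : ℝ) / (n + 1)) * δ) w' := by
  have hδ : 0 ≤ δ := dist_nonneg.trans (hw 0 0)
  induction n with
  | zero =>
    obtain ⟨a, v, hv, rfl⟩ := h
    intro i j
    have hi : i = j := Fin.ext (by omega)
    rw [hi, dist_self]
    positivity
  | succ n ih =>
    obtain ⟨a, v, hv, rfl⟩ := h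
    have key : ∀ k : Fin (n + 1), dist (bary (n + 1) w) (pt v k) ≤
        (((n + 1 : ℕ) : ℝ) / ((n + 1 : ℕ) + 1)) * δ := by
      intro k
      obtain ⟨t, ht⟩ := fine_mem_hull _ _ hv k
      rw [ht]
      have h2 : comb ((tup (Sp m)).face (n + 1) a w) t = comb w (faceC (n + 1) a t) := by
        have := congrArg (fun f : C(Sp (n + 1), Sp m) => f t) (combC_comp_faceC w a)
        exact this.symm
      rw [h2]
      exact dist_bary_le hw _
    intro i j
    refine Fin.cases ?_ (fun i' => ?_) i
    · refine Fin.cases ?_ (fun j' => ?_) j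
      · rw [dist_self]; positivity
      · rw [pt_consW_zero, pt_consW_succ]
        exact key j'
    · refine Fin.cases ?_ (fun j' => ?_) j
      · rw [pt_consW_zero, pt_consW_succ, dist_comm]
        exact key i'
      · rw [pt_consW_succ, pt_consW_succ]
        have h3 := ih ((tup (Sp m)).face (n + 1) a w) v hv (mesh_face hw a) i' j'
        refine h3.trans ?_
        refine mul_le_mul_of_nonneg_right ?_ hδ
        rw [div_le_div_iff₀ (by positivity) (by positivity)]
        push_cast
        nlinarith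

end Metric

/-- A linear map sends supported chains into a submodule as soon as it does so on simplices. -/
theorem map_supported_mem {α : Type} {M : Type*} [AddCommGroup M] [Module ℚ M]
    (f : (α →₀ ℚ) →ₗ[ℚ] M) (s : Set α) (N : Submodule ℚ M)
    (h : ∀ a ∈ s, f (Finsupp.single a 1) ∈ N) {x : α →₀ ℚ}
    (hx : x ∈ Finsupp.supported ℚ ℚ s) : f x ∈ N := by
  rw [Finsupp.supported_eq_span_single] at hx
  have : Submodule.span ℚ ((fun i => Finsupp.single i (1 : ℚ)) '' s) ≤ N.comap f := by
    rw [Submodule.span_le]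
    rintro _ ⟨a, ha, rfl⟩
    exact h a ha
  exact this hx

section Small

variable {X : Type} [TopologicalSpace X]

/-- Singular chains supported in a subset. -/
def CU (U : Set X) (n : ℕ) : Submodule ℚ ((sing X).Ch n) :=
  Finsupp.supported ℚ ℚ {σ | range (unS σ) ⊆ U}

theorem single_mem_CU {U : Set X} {n : ℕ} {σ : (sing X).K n} (h : range (unS σ) ⊆ U) (a : ℚ) :
    Finsupp.single σ a ∈ CU U n :=
  Finsupp.single_mem_supported ℚ a h

theorem CU_mono {U V : Set X} (h : U ⊆ V) (n : ℕ) : CU U n ≤ CU V n :=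
  Finsupp.supported_mono fun _ hσ => hσ.trans h

theorem CU_inter (U V : Set X) (n : ℕ) : CU (U ∩ V) n = CU U n ⊓ CU V n := by
  unfold CU
  rw [← Finsupp.supported_inter]
  congr 1
  ext σ
  simp only [Set.subset_inter_iff, Set.mem_ofPred_eq, Set.mem_inter_iff]

theorem range_comp_subset {m n : ℕ} (σ : C(Sp m, X)) (f : C(Sp n, Sp m)) :
    range (unS (mkS (σ.comp f))) ⊆ range σ := by
  rintro _ ⟨t, rfl⟩
  exact ⟨f t, rfl⟩

theorem push_mem_CU {U : Set X} {m : ℕ} {σ : C(Sp m, X)} (h : range σ ⊆ U) (n : ℕ)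
    (x : (tup (Sp m)).Ch n) : push σ n x ∈ CU U n := by
  refine map_supported_mem (push σ n) Set.univ (CU U n) ?_ (by simp)
  intro w _
  rw [push_single]
  exact single_mem_CU ((range_comp_subset σ _).trans h) _

theorem bd_mem_CU {U : Set X} {n : ℕ} {x : (sing X).Ch (n + 1)} (hx : x ∈ CU U (n + 1)) :
    (sing X).bd n x ∈ CU U n := by
  refine map_supported_mem ((sing X).bd n) _ (CU U n) ?_ hx
  intro σ hσ
  rw [FaceSys.bd_single]
  refine Submodule.sum_mem _ fun i _ => Submodule.smul_mem _ _ ?_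
  rw [← mkS_unS σ, face_mkS]
  exact single_mem_CU ((range_comp_subset _ _).trans hσ) _

theorem SD_mem_CU {U : Set X} {n : ℕ} {x : (sing X).Ch n} (hx : x ∈ CU U n) :
    SD n x ∈ CU U n := by
  refine map_supported_mem (SD n) _ (CU U n) ?_ hx
  intro σ hσ
  rw [← mkS_unS σ, SD_single]
  exact push_mem_CU hσ n _

theorem HT_mem_CU {U : Set X} {n : ℕ} {x : (sing X).Ch n} (hx : x ∈ CU U n) :
    HT n x ∈ CU U (n + 1) := by
  refine map_supported_mem (HT n) _ (CU U (n + 1)) ?_ hx
  intro σ hσ
  rw [← mkS_unS σ, HT_single]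
  exact push_mem_CU hσ (n + 1) _

theorem SD_iterate_push {m : ℕ} (σ : C(Sp m, X)) (n : ℕ) (x : (tup (Sp m)).Ch n) (k : ℕ) :
    (⇑(SD n))^[k] (push σ n x) = push σ n ((⇑(sub (fun k => bary k) n))^[k] x) := by
  induction k generalizing x with
  | zero => rfl
  | succ k ih => rw [Function.iterate_succ_apply, SD_push, ih, Function.iterate_succ_apply]

theorem sub_iterate_mesh (m n : ℕ) {δ : ℝ} (w : (tup (Sp m)).K (n + 1)) (hw : Mesh δ w) (k : ℕ) :
    (⇑(sub (fun k => bary k) (n + 1)))^[k] (Finsupp.single w 1) ∈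
      Finsupp.supported ℚ ℚ {w' : (tup (Sp m)).K (n + 1) |
        Mesh (((n : ℝ) / (n + 1)) ^ k * δ) w'} := by
  induction k with
  | zero =>
    rw [Function.iterate_zero, id, pow_zero, one_mul]
    exact Finsupp.single_mem_supported ℚ 1 hw
  | succ k ih =>
    rw [Function.iterate_succ_apply']
    refine map_supported_mem _ _ _ ?_ ih
    intro v hv
    have h1 := sub_mem_supported (fun k => bary k) (n + 1) v
    refine Finsupp.supported_mono ?_ h1
    intro w' hw'
    have h2 := fine_mesh v w' hw' hv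
    rw [← mul_assoc, ← pow_succ'] at h2
    exact h2

theorem mesh_vtxW (n : ℕ) : Mesh 1 (vtxW n) := by
  intro i j
  rw [Subtype.dist_eq]
  refine (dist_pi_le_iff zero_le_one).2 fun k => ?_
  have h1 := mem_Icc_of_mem_stdSimplex (pt (vtxW n) i).2 k
  have h2 := mem_Icc_of_mem_stdSimplex (pt (vtxW n) j).2 k
  rw [Real.dist_eq, abs_le]
  constructor <;> linarith [h1.1, h1.2, h2.1, h2.2]

theorem small_simplex {U V : Set X} (hU : IsOpen U) (hV : IsOpen V) (n : ℕ) (σ : C(Sp n, X))
    (h : range σ ⊆ U ∪ V) :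
    ∃ k : ℕ, ∀ l, k ≤ l → (⇑(SD n))^[l] (Finsupp.single (mkS σ) 1) ∈ CU U n ⊔ CU V n := by
  rcases n with _ | n
  · refine ⟨0, fun l _ => ?_⟩
    have h0 : ∀ (l : ℕ) (y), (⇑(SD (X := X) 0))^[l] y = y := by
      intro l y
      induction l with
      | zero => rfl
      | succ l ih => rw [Function.iterate_succ_apply, SD_zero, ih]
    rw [h0]
    refine Submodule.mem_sup_left (single_mem_CU ?_ _)
    rintro _ ⟨t, -⟩
    exact absurd t.2.2 (by simp)
  · -- Lebesgue number
    let c : Bool → Set (Sp (n + 1)) := fun b => if b then σ ⁻¹' U else σ ⁻¹' V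
    have hc : ∀ b, IsOpen (c b) := by
      intro b
      cases b
      · exact hV.preimage σ.continuous
      · exact hU.preimage σ.continuous
    have hcov : (Set.univ : Set (Sp (n + 1))) ⊆ ⋃ b, c b := by
      intro t _
      rcases h ⟨t, rfl⟩ with ht | ht
      · exact Set.mem_iUnion.2 ⟨true, ht⟩
      · exact Set.mem_iUnion.2 ⟨false, ht⟩
    obtain ⟨ε, hε, hball⟩ := lebesgue_number_lemma_of_metric isCompact_univ hc hcov
    have hr0 : (0 : ℝ) ≤ (n : ℝ) / (n + 1) := by positivity
    have hr1 : (n : ℝ) / (n + 1) < 1 := by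
      rw [div_lt_one (by positivity)]
      linarith
    obtain ⟨k, hk⟩ := exists_pow_lt_of_lt_one hε hr1
    refine ⟨k, fun l hl => ?_⟩
    rw [← push_vtxW, SD_iterate_push]
    refine map_supported_mem (push σ (n + 1)) _ _ ?_
      (sub_iterate_mesh (n + 1) n (vtxW (n + 1)) (mesh_vtxW _) l)
    intro w hw
    rw [push_single]
    have hsmall : ((n : ℝ) / (n + 1)) ^ l * 1 < ε := by
      rw [mul_one]
      exact (pow_le_pow_of_le_one hr0 hr1.le hl).trans_lt hk
    obtain ⟨b, hb⟩ := hball (comb w stdSimplex.barycenter) (Set.mem_univ _)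
    have hin : ∀ t : Sp (n + 1), comb w t ∈ c b := by
      intro t
      apply hb
      rw [Metric.mem_ball]
      exact (dist_comb_le hw t _).trans_lt hsmall
    cases b
    · refine Submodule.mem_sup_right (single_mem_CU ?_ _)
      rintro _ ⟨t, rfl⟩
      exact hin t
    · refine Submodule.mem_sup_left (single_mem_CU ?_ _)
      rintro _ ⟨t, rfl⟩
      exact hin t

/-- The theorem of small chains. -/
theorem small_chains {U V : Set X} (hU : IsOpen U) (hV : IsOpen V) (n : ℕ)
    (x : (sing X).Ch n) (hx : x ∈ CU (U ∪ V) n) :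
    ∃ k : ℕ, (⇑(SD n))^[k] x ∈ CU U n ⊔ CU V n := by
  have key : ∃ k : ℕ, ∀ l, k ≤ l → (⇑(SD n))^[l] x ∈ CU U n ⊔ CU V n := by
    unfold CU at hx
    rw [Finsupp.supported_eq_span_single] at hx
    have iter_add : ∀ (l : ℕ) (a b : (sing X).Ch n), (⇑(SD n))^[l] (a + b) =
        (⇑(SD n))^[l] a + (⇑(SD n))^[l] b := by
      intro l a b
      induction l generalizing a b with
      | zero => rfl
      | succ l ih => rw [Function.iterate_succ_apply, map_add, ih, Function.iterate_succ_apply,
          Function.iterate_succ_apply]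
    have iter_smul : ∀ (l : ℕ) (c : ℚ) (a : (sing X).Ch n), (⇑(SD n))^[l] (c • a) =
        c • (⇑(SD n))^[l] a := by
      intro l c a
      induction l generalizing a with
      | zero => rfl
      | succ l ih => rw [Function.iterate_succ_apply, map_smul, ih, Function.iterate_succ_apply]
    have iter_zero : ∀ (l : ℕ), (⇑(SD (X := X) n))^[l] 0 = 0 := by
      intro l
      induction l with
      | zero => rfl
      | succ l ih => rw [Function.iterate_succ_apply, map_zero, ih]
    induction hx using Submodule.span_induction with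
    | mem y hy =>
      obtain ⟨σ, hσ, rfl⟩ := hy
      exact small_simplex hU hV n (unS σ) hσ
    | zero => exact ⟨0, fun l _ => by rw [iter_zero]; exact Submodule.zero_mem _⟩
    | add a b _ _ ha hb =>
      obtain ⟨k, hk⟩ := ha
      obtain ⟨k', hk'⟩ := hb
      refine ⟨max k k', fun l hl => ?_⟩
      rw [iter_add]
      exact Submodule.add_mem _ (hk l (le_trans (le_max_left _ _) hl))
        (hk' l (le_trans (le_max_right _ _) hl))
    | smul c a _ ha =>
      obtain ⟨k, hk⟩ := ha
      refine ⟨k, fun l hl => ?_⟩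
      rw [iter_smul]
      exact Submodule.smul_mem _ _ (hk l hl)
  obtain ⟨k, hk⟩ := key
  exact ⟨k, hk k le_rfl⟩

end Small

end Pool.Agent.Helper45
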